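import Pool.Agent.Work.MP_58cfe3_nt.Z.Defs

/-!
# Block Z, module Bessel (size S-M)

An inequality of Bessel (large sieve) type for the logarithmic average.

PROOF. If `X = 0` then `Elog = 0/0 = 0` and both sides are `0`; let `X ≥ 1`, `H = ∑_{n ≤ X} 1/n > 0` and weights
`w_n = 1/(n H) ≥ 0` with `∑_{n ≤ X} w_n = 1`; `Elog f X = ∑_{n ≤ X} w_n f n`. For `t ∈ P` let `a_t` be a complex
number of norm `≤ 1` with `a_t * Elog (G u_t) X = ‖Elog (G u_t) X‖` (as a complex number). Then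
`∑_t ‖Elog (G u_t)‖ = ∑_n w_n G n (∑_t a_t u_t n)`, whose norm is `≤ ∑_n w_n ‖∑_t a_t u_t n‖`. By
Cauchy-Schwarz (`∑ w_n = 1`) its square is `≤ ∑_n w_n ‖∑_t a_t u_t n‖^2`
`= ∑_n w_n ∑_{t,t'} a_t (star a_t') u_t n (star (u_t' n)) = ∑_{t,t'} a_t (star a_t') Elog (u_t * star u_t')`,
and the norm of this is `≤ ∑_{t,t'} ‖Elog (u_t * star u_t')‖`.
-/

set_option autoImplicit false

namespace Pool.Agent.Work.MP_58cfe3_nt

open Filter Topology

private theorem exists_weights {X : ℕ} (hX : 0 < X) :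
    ∃ w : ℕ → ℝ, (∀ n, 0 ≤ w n) ∧ ∑ n ∈ Finset.Icc 1 X, w n = 1 ∧
      ∀ f : ℤ → ℂ, Elog f X = ∑ n ∈ Finset.Icc 1 X, (w n : ℂ) * f n := by
  have hH : (0 : ℝ) < ∑ n ∈ Finset.Icc 1 X, (1 / (n : ℝ)) := by
    refine Finset.sum_pos (fun n hn => ?_) ⟨1, Finset.mem_Icc.2 ⟨le_rfl, hX⟩⟩
    rw [Finset.mem_Icc] at hn
    have : (0 : ℝ) < n := by exact_mod_cast hn.1
    positivity
  refine ⟨fun n => 1 / (n : ℝ) / ∑ n ∈ Finset.Icc 1 X, (1 / (n : ℝ)), fun n => by positivity,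
    ?_, fun f => ?_⟩
  · rw [← Finset.sum_div, div_self hH.ne']
  · unfold Elog
    rw [Finset.sum_div]
    refine Finset.sum_congr rfl fun n _ => ?_
    push_cast
    ring

theorem bessel {κ : Type} (P : Finset κ) (u : κ → ℤ → ℂ) {G : ℤ → ℂ} (hG : ∀ n, ‖G n‖ ≤ 1)
    (X : ℕ) :
    (∑ t ∈ P, ‖Elog (fun n => G n * u t n) X‖) ^ 2 ≤
      ∑ t ∈ P, ∑ t' ∈ P, ‖Elog (fun n => u t n * star (u t' n)) X‖ := by
  rcases Nat.eq_zero_or_pos X with rfl | hX
  · have h0 : ∀ f : ℤ → ℂ, Elog f 0 = 0 := by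
      intro f
      unfold Elog
      simp
    have h1 : ∀ t ∈ P, ‖Elog (fun n => G n * u t n) 0‖ = 0 := fun t _ => by
      rw [h0, norm_zero]
    rw [Finset.sum_eq_zero h1]
    have h2 : (0 : ℝ) ≤ ∑ t ∈ P, ∑ t' ∈ P, ‖Elog (fun n => u t n * star (u t' n)) 0‖ :=
      Finset.sum_nonneg fun t _ => Finset.sum_nonneg fun t' _ => norm_nonneg _
    nlinarith
  · obtain ⟨w, hw0, hw1, hE⟩ := exists_weights hX
    choose a ha1 ha2 using fun t => RCLike.exists_norm_eq_mul_self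
      (Elog (fun n => G n * u t n) X)
    have hS : ((∑ t ∈ P, ‖Elog (fun n => G n * u t n) X‖ : ℝ) : ℂ) =
        ∑ n ∈ Finset.Icc 1 X, (w n : ℂ) * (G n * ∑ t ∈ P, a t * u t n) := by
      have h1 : ((∑ t ∈ P, ‖Elog (fun n => G n * u t n) X‖ : ℝ) : ℂ) =
          ∑ t ∈ P, a t * ∑ n ∈ Finset.Icc 1 X, (w n : ℂ) * (G n * u t n) := by
        push_cast
        refine Finset.sum_congr rfl fun t _ => ?_
        exact (ha2 t).trans (by rw [hE fun n => G n * u t n])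
      rw [h1]
      simp only [Finset.mul_sum]
      rw [Finset.sum_comm]
      refine Finset.sum_congr rfl fun n _ => Finset.sum_congr rfl fun t _ => ?_
      ring
    have hle : ∑ t ∈ P, ‖Elog (fun n => G n * u t n) X‖ ≤
        ∑ n ∈ Finset.Icc 1 X, w n * ‖∑ t ∈ P, a t * u t n‖ := by
      have h1 : (0 : ℝ) ≤ ∑ t ∈ P, ‖Elog (fun n => G n * u t n) X‖ :=
        Finset.sum_nonneg fun t _ => norm_nonneg _
      have h2 : ∑ t ∈ P, ‖Elog (fun n => G n * u t n) X‖ =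
          ‖((∑ t ∈ P, ‖Elog (fun n => G n * u t n) X‖ : ℝ) : ℂ)‖ := by
        rw [Complex.norm_real, Real.norm_of_nonneg h1]
      rw [h2, hS]
      refine (norm_sum_le _ _).trans (Finset.sum_le_sum fun n hn => ?_)
      rw [norm_mul, norm_mul, Complex.norm_real, Real.norm_of_nonneg (hw0 n)]
      refine mul_le_mul_of_nonneg_left ?_ (hw0 n)
      calc ‖G n‖ * ‖∑ t ∈ P, a t * u t n‖ ≤ 1 * ‖∑ t ∈ P, a t * u t n‖ :=
            mul_le_mul_of_nonneg_right (hG n) (norm_nonneg _)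
        _ = _ := one_mul _
    have hsq : (∑ n ∈ Finset.Icc 1 X, w n * ‖∑ t ∈ P, a t * u t n‖) ^ 2 ≤
        ∑ n ∈ Finset.Icc 1 X, w n * ‖∑ t ∈ P, a t * u t n‖ ^ 2 := by
      have h1 := (Even.convexOn_pow (𝕜 := ℝ) even_two).map_sum_le (t := Finset.Icc 1 X)
        (w := w) (p := fun n : ℕ => ‖∑ t ∈ P, a t * u t n‖) (fun n _ => hw0 n) hw1
        (fun n _ => Set.mem_univ _)
      simpa only [smul_eq_mul] using h1
    have hexp : ((∑ n ∈ Finset.Icc 1 X, w n * ‖∑ t ∈ P, a t * u t n‖ ^ 2 : ℝ) : ℂ) =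
        ∑ t ∈ P, ∑ t' ∈ P, a t * star (a t') * Elog (fun n => u t n * star (u t' n)) X := by
      have h1 : ∀ n : ℕ, ((‖∑ t ∈ P, a t * u t n‖ ^ 2 : ℝ) : ℂ) =
          ∑ t ∈ P, ∑ t' ∈ P, a t * star (a t') * (u t n * star (u t' n)) := by
        intro n
        have h2 : ((‖∑ t ∈ P, a t * u t n‖ ^ 2 : ℝ) : ℂ) =
            (∑ t ∈ P, a t * u t n) * star (∑ t ∈ P, a t * u t n) := by
          rw [← Complex.normSq_eq_norm_sq]
          exact (Complex.mul_conj _).symm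
        rw [h2, star_sum, Finset.sum_mul_sum]
        refine Finset.sum_congr rfl fun t _ => Finset.sum_congr rfl fun t' _ => ?_
        rw [star_mul']
        ring
      have h3 : ∀ t t', Elog (fun n => u t n * star (u t' n)) X =
          ∑ n ∈ Finset.Icc 1 X, (w n : ℂ) * (u t n * star (u t' n)) := fun t t' => hE _
      simp only [h3]
      rw [Complex.ofReal_sum]
      simp only [Complex.ofReal_mul, h1, Finset.mul_sum]
      rw [Finset.sum_comm]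
      refine Finset.sum_congr rfl fun t _ => ?_
      rw [Finset.sum_comm]
      refine Finset.sum_congr rfl fun t' _ => Finset.sum_congr rfl fun n _ => ?_
      ring
    have hfin : ∑ n ∈ Finset.Icc 1 X, w n * ‖∑ t ∈ P, a t * u t n‖ ^ 2 ≤
        ∑ t ∈ P, ∑ t' ∈ P, ‖Elog (fun n => u t n * star (u t' n)) X‖ := by
      have h1 : (0 : ℝ) ≤ ∑ n ∈ Finset.Icc 1 X, w n * ‖∑ t ∈ P, a t * u t n‖ ^ 2 :=
        Finset.sum_nonneg fun n _ => mul_nonneg (hw0 n) (by positivity)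
      have h2 : ∑ n ∈ Finset.Icc 1 X, w n * ‖∑ t ∈ P, a t * u t n‖ ^ 2 =
          ‖((∑ n ∈ Finset.Icc 1 X, w n * ‖∑ t ∈ P, a t * u t n‖ ^ 2 : ℝ) : ℂ)‖ := by
        rw [Complex.norm_real, Real.norm_of_nonneg h1]
      rw [h2, hexp]
      refine (norm_sum_le _ _).trans (Finset.sum_le_sum fun t _ => ?_)
      refine (norm_sum_le _ _).trans (Finset.sum_le_sum fun t' _ => ?_)
      rw [norm_mul, norm_mul, norm_star, ha1, ha1, one_mul, one_mul]
    have h0 : (0 : ℝ) ≤ ∑ t ∈ P, ‖Elog (fun n => G n * u t n) X‖ :=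
      Finset.sum_nonneg fun t _ => norm_nonneg _
    exact (pow_le_pow_left₀ h0 hle 2).trans (hsq.trans hfin)

end Pool.Agent.Work.MP_58cfe3_nt
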