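import Pool.Agent.Work.MP_58cfe3_nt.Z.Defs

/-!
# Block Z, module Cell (size S-M)

Pigeonhole: among more than `N k` points of the box `[-T₀, T₀]^d` more than `k` are close to each
other and have nearly the same value of a given linear form modulo `2 π`; here `N` does not depend on
the linear form.

PROOF. Let `K₁ = ⌈T₀/ρ₁⌉ + 1` (a natural number `≥ 1`; if `T₀ < 0` the set `P` is empty unless `d = 0`; use
`max T₀ 0`) and `K₂ = ⌈2 π/ρ₂⌉ + 1`. Map `t ∈ P` to the pair of `(⌊t_l/ρ₁⌋)_l ∈ [-K₁, K₁]^d` (integers) and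
`⌊2 π fract(dot t FX/(2 π))/ρ₂⌋ ∈ [0, K₂]`. The target finite set
`(Fintype.piFinset fun _ => Finset.Icc (-K₁) K₁) ×ˢ Finset.Icc 0 K₂` has `N = (2 K₁ + 1)^d (K₂ + 1)` elements. If
`N k < P.card`, by `Finset.exists_lt_card_fiber_of_mul_lt_card_of_maps_to` some fiber `P'` has more than `k`
elements. For `t, t'` in the same fiber, `⌊t_l/ρ₁⌋ = ⌊t'_l/ρ₁⌋` gives `|t_l - t'_l| ≤ ρ₁`
(`Int.abs_sub_lt_one_of_floor_eq_floor`), and with `x = dot t FX/(2π) = ⌊x⌋ + fract x`,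
`x' = dot t' FX/(2π)`: `|2π fract x - 2π fract x'| ≤ ρ₂`, so with `j = ⌊x⌋ - ⌊x'⌋`,
`|dot t FX - dot t' FX - 2π j| = 2π |fract x - fract x'| ≤ ρ₂`.
-/

set_option autoImplicit false

namespace Pool.Agent.Work.MP_58cfe3_nt

open Filter Topology

theorem cell_pigeon (d : ℕ) (T₀ : ℝ) {ρ₁ ρ₂ : ℝ} (h₁ : 0 < ρ₁) (h₂ : 0 < ρ₂) :
    ∃ N : ℕ, ∀ (FX : Fin d → ℝ) (P : Finset (Fin d → ℝ)), (∀ t ∈ P, ∀ l, |t l| ≤ T₀) →
      ∀ k : ℕ, N * k < P.card → ∃ P' ⊆ P, k < P'.card ∧ ∀ t ∈ P', ∀ t' ∈ P',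
        (∀ l, |t l - t' l| ≤ ρ₁) ∧ ∃ j : ℤ, |dot t FX - dot t' FX - 2 * Real.pi * j| ≤ ρ₂ := by
  classical
  obtain ⟨K₁, hK₁⟩ : ∃ K₁ : ℕ, T₀ / ρ₁ + 1 ≤ K₁ := exists_nat_ge _
  obtain ⟨K₂, hK₂⟩ : ∃ K₂ : ℕ, 2 * Real.pi / ρ₂ ≤ K₂ := exists_nat_ge _
  refine ⟨((Fintype.piFinset fun _ : Fin d => Finset.Icc (-(K₁ : ℤ)) K₁) ×ˢ
    Finset.Icc (0 : ℤ) K₂).card, ?_⟩
  intro FX P hP k hk
  have hpi := Real.pi_pos
  obtain ⟨f, hf⟩ : ∃ f : (Fin d → ℝ) → (Fin d → ℤ) × ℤ, ∀ t, f t =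
      (fun l => ⌊t l / ρ₁⌋, ⌊2 * Real.pi * Int.fract (dot t FX / (2 * Real.pi)) / ρ₂⌋) :=
    ⟨fun t => (fun l => ⌊t l / ρ₁⌋,
      ⌊2 * Real.pi * Int.fract (dot t FX / (2 * Real.pi)) / ρ₂⌋), fun _ => rfl⟩
  have hmaps : ∀ t ∈ P, f t ∈ (Fintype.piFinset fun _ : Fin d => Finset.Icc (-(K₁ : ℤ)) K₁) ×ˢ
      Finset.Icc (0 : ℤ) K₂ := by
    intro t ht
    rw [hf, Finset.mem_product, Fintype.mem_piFinset]
    constructor
    · intro l
      have h3 := abs_le.1 (hP t ht l)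
      have h4 : t l / ρ₁ ≤ T₀ / ρ₁ := (div_le_div_iff_of_pos_right h₁).2 h3.2
      have h5 : -(T₀ / ρ₁) ≤ t l / ρ₁ := by
        rw [← neg_div]
        exact (div_le_div_iff_of_pos_right h₁).2 h3.1
      show ⌊t l / ρ₁⌋ ∈ Finset.Icc (-(K₁ : ℤ)) K₁
      rw [Finset.mem_Icc]
      constructor
      · rw [Int.le_floor]
        push_cast
        linarith
      · have h6 : ⌊t l / ρ₁⌋ < (K₁ : ℤ) + 1 := by
          rw [Int.floor_lt]
          push_cast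
          linarith
        omega
    · have h3 := Int.fract_nonneg (dot t FX / (2 * Real.pi))
      have h4 := Int.fract_lt_one (dot t FX / (2 * Real.pi))
      rw [Finset.mem_Icc]
      constructor
      · rw [Int.le_floor, Int.cast_zero]
        positivity
      · have h6 : ⌊2 * Real.pi * Int.fract (dot t FX / (2 * Real.pi)) / ρ₂⌋ < (K₂ : ℤ) + 1 := by
          rw [Int.floor_lt]
          push_cast
          have h7 : 2 * Real.pi * Int.fract (dot t FX / (2 * Real.pi)) / ρ₂ ≤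
              2 * Real.pi / ρ₂ := by
            refine (div_le_div_iff_of_pos_right h₂).2 ?_
            nlinarith
          linarith
        omega
  obtain ⟨y, -, hy⟩ := Finset.exists_lt_card_fiber_of_mul_lt_card_of_maps_to hmaps hk
  refine ⟨P.filter fun t => f t = y, Finset.filter_subset _ _, hy, fun t ht t' ht' => ?_⟩
  rw [Finset.mem_filter] at ht ht'
  have heq : f t = f t' := ht.2.trans ht'.2.symm
  rw [hf, hf, Prod.mk.injEq] at heq
  obtain ⟨h3, h4⟩ := heq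
  constructor
  · intro l
    have h5 := Int.abs_sub_lt_one_of_floor_eq_floor (congrFun h3 l)
    have h6 : t l - t' l = (t l / ρ₁ - t' l / ρ₁) * ρ₁ := by
      field_simp
    rw [h6, abs_mul, abs_of_pos h₁]
    nlinarith
  · refine ⟨⌊dot t FX / (2 * Real.pi)⌋ - ⌊dot t' FX / (2 * Real.pi)⌋, ?_⟩
    have h5 := Int.abs_sub_lt_one_of_floor_eq_floor h4
    have h6 : dot t FX - dot t' FX - 2 * Real.pi *
        ((⌊dot t FX / (2 * Real.pi)⌋ - ⌊dot t' FX / (2 * Real.pi)⌋ : ℤ) : ℝ) =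
        (2 * Real.pi * Int.fract (dot t FX / (2 * Real.pi)) / ρ₂ -
          2 * Real.pi * Int.fract (dot t' FX / (2 * Real.pi)) / ρ₂) * ρ₂ := by
      unfold Int.fract
      push_cast
      field_simp
      ring
    rw [h6, abs_mul, abs_of_pos h₂]
    nlinarith

end Pool.Agent.Work.MP_58cfe3_nt
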