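import Pool.Agent.Work.MP_58cfe3_nt.LDefs

/-!
# MP_58cfe3_nt, block Z: deformations of a multiplicative function by an additive function

`d`-parameter families `g_t(n) = g(n) exp(i t·F(n))`, `t ∈ ℝ^d`, where `F` is the completely additive
function with given values `F(p) ∈ ℝ^d` at the primes.
-/

set_option autoImplicit false

namespace Pool.Agent.Work.MP_58cfe3_nt

open Filter Topology

/-- the inner product of `ℝ^d` -/
noncomputable def dot {d : ℕ} (t v : Fin d → ℝ) : ℝ := ∑ l, t l * v l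

/-- `exp(i x)` -/
noncomputable def ei (x : ℝ) : ℂ := Complex.exp ((x : ℂ) * Complex.I)

/-- The deformation `g(n) exp(i t·F(n))` of `g`, where `F` is the completely additive function with
the values `F p ∈ ℝ^d` at the primes; that is, `g(n)` times the product of `exp(i a t·F(p))` over
the prime powers `p^a` exactly dividing `n`. -/
noncomputable def defo (g : ℤ → ℂ) {d : ℕ} (F : ℕ → Fin d → ℝ) (t : Fin d → ℝ) : ℤ → ℂ :=
  twist g Set.univ fun p => ei (dot t (F p))

/-- `F` varies slowly on the primes: `F(p) - F(q)` is bounded when `p^θ ≤ q ≤ p`. (Bounded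
functions are of this kind.) -/
def SlowVar {d : ℕ} (F : ℕ → Fin d → ℝ) : Prop :=
  ∀ θ : ℝ, 0 < θ → ∃ C : ℝ, ∀ p q : ℕ, p.Prime → q.Prime → (p : ℝ) ^ θ ≤ q → q ≤ p →
    ∀ l, |F p l - F q l| ≤ C

/-- `F` has spread of exponent `κ`: for small `β` the square of the pretentious distance
`D(exp(i β·F), 1; X)` is at least `c (|β| (log log X)^(κ/2))^σ - C`. -/
def Spread {d : ℕ} (F : ℕ → Fin d → ℝ) (κ : ℝ) : Prop :=
  ∃ c σ C b : ℝ, 0 < c ∧ 0 < σ ∧ 0 < b ∧ ∀ᶠ X : ℕ in atTop, ∀ β : Fin d → ℝ, ‖β‖ ≤ b →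
    c * (‖β‖ * Real.log (Real.log X) ^ (κ / 2)) ^ σ - C ≤
      ∑ p ∈ (Finset.Icc 1 X).filter Nat.Prime, (1 - Real.cos (dot β (F p))) / p

/-- the completely additive extension of `F` -/
noncomputable def Fa {d : ℕ} (F : ℕ → Fin d → ℝ) (m : ℤ) : Fin d → ℝ :=
  fun l => ∑ p ∈ m.toNat.primeFactors, (m.toNat.factorization p : ℝ) * F p l

/-- the sign of a vertex of the cube -/
noncomputable def sg {r : ℕ} (A : Finset (Fin r)) : ℝ := if Even A.card then 1 else -1

/-- the alternating sum of `F` over the vertices of a cube -/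
noncomputable def DD {d : ℕ} (F : ℕ → Fin d → ℝ) {r : ℕ} (e : Fin r → ℤ) (n : ℤ) : Fin d → ℝ :=
  fun l => ∑ A : Finset (Fin r), sg A * Fa F (n + vert e A) l

/-- the part of the alternating sum which comes from the primes of `T` (without multiplicities) -/
noncomputable def DT {d : ℕ} (F : ℕ → Fin d → ℝ) {r : ℕ} (e : Fin r → ℤ) (T : Finset ℕ) (n : ℤ) :
    Fin d → ℝ :=
  fun l => ∑ p ∈ T, ∑ A : Finset (Fin r), if (p : ℤ) ∣ n + vert e A then sg A * F p l else 0

/-- the local values of `exp(i β·F)` over the cube -/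
noncomputable def uu {d : ℕ} (F : ℕ → Fin d → ℝ) {r : ℕ} (β : Fin d → ℝ) (p : ℕ)
    (A : Finset (Fin r)) : ℂ := ei (sg A * dot β (F p))

/-- the `m`-th scale: `log log (sc δ m)` is about `δ m` -/
noncomputable def sc (δ : ℝ) (m : ℕ) : ℕ := ⌊Real.exp (Real.exp (δ * m))⌋₊

/-- the points of the finite set `P` are at distance at least `ρ` from each other -/
def Sepd {d : ℕ} (P : Finset (Fin d → ℝ)) (ρ : ℝ) : Prop :=
  ∀ t ∈ P, ∀ t' ∈ P, t ≠ t' → ρ ≤ dist t t'

/-- the sets `A m` have at most `K` points at mutual distance `C m^(-a)`, for large `m` -/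
def Thin {d : ℕ} (A : ℕ → Set (Fin d → ℝ)) (K : ℕ) (C a : ℝ) : Prop :=
  ∀ᶠ m : ℕ in atTop, ∀ P : Finset (Fin d → ℝ), (∀ t ∈ P, t ∈ A m) →
    Sepd P (C * (m : ℝ) ^ (-a)) → P.card ≤ K

end Pool.Agent.Work.MP_58cfe3_nt
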