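import Pool.Agent.Work.MP_58cfe3_nt.Z.Defs

/-!
# Block Z, module ExA (size S-M)

Bounded `F` whose covariance matrices `∑_{p ≤ X} F(p) F(p)^T/p` are at least `c (log log X)^κ`.

PROOF. `SlowVar`: `|F p l - F q l| ≤ 2 M`. `Spread` with `σ = 2`, `C = 0`, `c' = c/5` and `b > 0` with
`d b |M| ≤ 3` (e.g. `b = 3/((d + 1) (|M| + 1))`): for `‖β‖ ≤ b` and a prime `p`, `|dot β (F p)| ≤ d b |M| ≤ 3 ≤ π`, so
`1 - cos x ≥ x^2/5` for `|x| ≤ π` (`2/π^2 > 1/5`; Mathlib: `Real.cos_le_one_sub_mul_cos_sq` or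
`Real.cos_quadratic_upper_bound : |x| ≤ π → cos x ≤ 1 - 2/π^2 * x^2`). Sum over `p` with weights `1/p`:
`∑ (1 - cos)/p ≥ (1/5) ∑ (dot β (F p))^2/p ≥ (c/5) (log log X)^κ ∑ β_l^2 ≥ (c/5) (log log X)^κ ‖β‖^2`
(`‖β‖ = max |β_l|`; if `d = 0` the norm is `0`), and `(‖β‖ m^(κ/2))^2 = ‖β‖^2 m^κ` for `m = log log X ≥ 0` (`X ≥ 3`)
(`Real.rpow_natCast`, `Real.rpow_mul`).
-/

set_option autoImplicit false

namespace Pool.Agent.Work.MP_58cfe3_nt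

open Filter Topology

theorem slow_bdd {d : ℕ} {F : ℕ → Fin d → ℝ} {M : ℝ} (hM : ∀ p : ℕ, p.Prime → ∀ l, |F p l| ≤ M) :
    SlowVar F := by
  intro θ _
  refine ⟨2 * M, fun p q hp hq _ _ l => ?_⟩
  have h1 := hM p hp l
  have h2 := hM q hq l
  have h3 := abs_sub (F p l) (F q l)
  linarith

private theorem exaCos {x : ℝ} (hx : |x| ≤ 3) : x ^ 2 / 5 ≤ 1 - Real.cos x := by
  have hpi : (3 : ℝ) < Real.pi := Real.pi_gt_three
  have hpi' : Real.pi < 3.15 := Real.pi_lt_d2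
  have h := Real.cos_le_one_sub_mul_cos_sq (hx.trans hpi.le)
  have h1 : 1 / 5 ≤ 2 / Real.pi ^ 2 := by
    rw [div_le_div_iff₀ (by norm_num) (by positivity)]
    nlinarith
  have h2 := mul_le_mul_of_nonneg_right h1 (sq_nonneg x)
  linarith

private theorem exaNorm {d : ℕ} (β : Fin d → ℝ) : ‖β‖ ^ 2 ≤ ∑ l, β l ^ 2 := by
  have h0 : 0 ≤ ∑ l, β l ^ 2 := Finset.sum_nonneg fun l _ => sq_nonneg _
  have h1 : ‖β‖ ≤ √(∑ l, β l ^ 2) := by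
    rw [pi_norm_le_iff_of_nonneg (Real.sqrt_nonneg _)]
    intro l
    rw [Real.norm_eq_abs]
    refine Real.abs_le_sqrt ?_
    exact Finset.single_le_sum (f := fun l => β l ^ 2) (fun l _ => sq_nonneg _) (Finset.mem_univ l)
  calc ‖β‖ ^ 2 ≤ (√(∑ l, β l ^ 2)) ^ 2 := pow_le_pow_left₀ (norm_nonneg _) h1 2
    _ = ∑ l, β l ^ 2 := Real.sq_sqrt h0

theorem spread_bdd {d : ℕ} {F : ℕ → Fin d → ℝ} {M : ℝ}
    (hM : ∀ p : ℕ, p.Prime → ∀ l, |F p l| ≤ M) {κ c : ℝ} (hc : 0 < c)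
    (h : ∀ᶠ X : ℕ in atTop, ∀ β : Fin d → ℝ, c * Real.log (Real.log X) ^ κ * ∑ l, β l ^ 2 ≤
      ∑ p ∈ (Finset.Icc 1 X).filter Nat.Prime, (dot β (F p)) ^ 2 / p) : Spread F κ := by
  have hM' : 0 < |M| + 1 := by positivity
  have hd : (0 : ℝ) < (d : ℝ) + 1 := by positivity
  refine ⟨c / 5, 2, 0, 3 / (((d : ℝ) + 1) * (|M| + 1)), by positivity, by norm_num, by positivity, ?_⟩
  have hL : ∀ᶠ X : ℕ in atTop, 0 ≤ Real.log (Real.log (X : ℝ)) :=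
    (Real.tendsto_log_atTop.comp (Real.tendsto_log_atTop.comp
      tendsto_natCast_atTop_atTop)).eventually_ge_atTop 0
  filter_upwards [h, hL] with X hX hL0
  intro β hβ
  obtain ⟨L, hLd⟩ : ∃ L : ℝ, L = Real.log (Real.log (X : ℝ)) := ⟨_, rfl⟩
  rw [← hLd] at hL0
  have hX' := hX β
  rw [← hLd] at hX' ⊢
  have hdot : ∀ p : ℕ, p.Prime → |dot β (F p)| ≤ 3 := by
    intro p hp
    have a1 : |dot β (F p)| ≤ ∑ l, |β l * F p l| := Finset.abs_sum_le_sum_abs _ _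
    have a2 : ∑ l : Fin d, |β l * F p l| ≤ ∑ _l : Fin d, ‖β‖ * |M| := by
      refine Finset.sum_le_sum fun l _ => ?_
      rw [abs_mul]
      refine mul_le_mul ?_ ((hM p hp l).trans (le_abs_self M)) (abs_nonneg _) (norm_nonneg _)
      rw [← Real.norm_eq_abs]
      exact norm_le_pi_norm β l
    rw [Finset.sum_const, Finset.card_univ, Fintype.card_fin, nsmul_eq_mul] at a2
    have a3 : ‖β‖ * (((d : ℝ) + 1) * (|M| + 1)) ≤ 3 := by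
      rw [le_div_iff₀ (by positivity)] at hβ
      exact hβ
    have a4 : (d : ℝ) * (‖β‖ * |M|) ≤ ‖β‖ * (((d : ℝ) + 1) * (|M| + 1)) := by
      have b1 : 0 ≤ ‖β‖ := norm_nonneg _
      have b2 : 0 ≤ |M| := abs_nonneg _
      have b3 : (d : ℝ) * |M| ≤ ((d : ℝ) + 1) * (|M| + 1) := by nlinarith [Nat.cast_nonneg (α := ℝ) d]
      calc (d : ℝ) * (‖β‖ * |M|) = ‖β‖ * ((d : ℝ) * |M|) := by ring
        _ ≤ _ := mul_le_mul_of_nonneg_left b3 b1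
    linarith
  have h1 : (1 / 5) * ∑ p ∈ (Finset.Icc 1 X).filter Nat.Prime, (dot β (F p)) ^ 2 / p ≤
      ∑ p ∈ (Finset.Icc 1 X).filter Nat.Prime, (1 - Real.cos (dot β (F p))) / p := by
    rw [Finset.mul_sum]
    refine Finset.sum_le_sum fun p hp => ?_
    have a1 := exaCos (hdot p (Finset.mem_filter.1 hp).2)
    calc 1 / 5 * (dot β (F p) ^ 2 / p) = (dot β (F p) ^ 2 / 5) / p := by ring
      _ ≤ _ := div_le_div_of_nonneg_right a1 (Nat.cast_nonneg _)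
  have h2 : (‖β‖ * L ^ (κ / 2)) ^ (2 : ℝ) = ‖β‖ ^ 2 * L ^ κ := by
    rw [Real.rpow_two, mul_pow, ← Real.rpow_natCast (L ^ (κ / 2)), ← Real.rpow_mul hL0]
    congr 2
    push_cast
    ring
  have h3 : 0 ≤ L ^ κ := Real.rpow_nonneg hL0 _
  have h4 := exaNorm β
  rw [h2, sub_zero]
  calc c / 5 * (‖β‖ ^ 2 * L ^ κ) ≤ c / 5 * ((∑ l, β l ^ 2) * L ^ κ) := by
        refine mul_le_mul_of_nonneg_left ?_ (by positivity)
        exact mul_le_mul_of_nonneg_right h4 h3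
    _ = 1 / 5 * (c * L ^ κ * ∑ l, β l ^ 2) := by ring
    _ ≤ 1 / 5 * ∑ p ∈ (Finset.Icc 1 X).filter Nat.Prime, (dot β (F p)) ^ 2 / p :=
        mul_le_mul_of_nonneg_left hX' (by norm_num)
    _ ≤ _ := h1

end Pool.Agent.Work.MP_58cfe3_nt
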