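import Pool.Agent.Work.MP_58cfe3_nt.Z.Defs
import Pool.Agent.Work.MP_58cfe3_nt.Mer

/-!
# Block Z, module ExB (size M)

The function `F(p) = log log p` (`d = 1`) varies slowly and has spread of exponent `3`.

PROOF. `SlowVar`: if `p^θ ≤ q ≤ p` are primes, `θ log p ≤ log q ≤ log p`, all positive, so
`log θ + log log p ≤ log log q ≤ log log p` and the difference is at most `|log θ|`.
`Spread` with `κ = 3`, `σ = 2/3`, `b = 1`, suitable `c, C`. Write `m = log log X`, `x = |β 0| = ‖β‖ ≤ 1`,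
`Σ = ∑_{p ≤ X} (1 - cos (x log log p))/p` (`cos` is even). Note `(x m^(3/2))^(2/3) = x^(2/3) m`.
MERTENS: by `mertens2` there are `a₀ ≥ 1` and, for `a₀ ≤ a ≤ b' ≤ m`,
`∑_{p : a < log log p ≤ b'} 1/p ≥ b' - a - 1/2` (the primes with `exp(exp a) < p ≤ exp(exp b')`; compare the values of
`∑_{p ≤ N} 1/p - log log N` at `N = ⌊exp(exp b')⌋` and `⌊exp(exp a)⌋`, both within `1/8` of the limit; `log log` of
the floor differs from `b'` resp. `a` by at most `1/8` for `a ≥ a₀`). All terms of `Σ` are `≥ 0`.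
CASE 1: `x m ≤ 2 π`. Use only the primes with `m/4 < u := log log p ≤ m/2`, where `x u ≤ π`, so
`1 - cos (x u) ≥ (x u)^2/5 ≥ x^2 m^2/80` (`Real.cos_quadratic_upper_bound`). If `m ≥ 4 a₀` and `m ≥ 4`:
`Σ ≥ (x^2 m^2/80) (m/4 - 1/2) ≥ x^2 m^3/640`. Put `y = x^(2/3) m`, `x^2 m^3 = y^3 ≥ y - 1`: so
`Σ ≥ (y - 1)/640`. (For the finitely many... `X` is large anyway.)
CASE 2: `x m > 2 π`. Let `n = ⌊x m/(2 π)⌋ ≥ 1`. On the windows `W_k = ((2k + 1/2) π/x, (2k + 3/2) π/x]`, `0 ≤ k < n`, of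
length `π/x ≥ π`, `cos (x u) ≤ 0`, so `1 - cos ≥ 1`; they are disjoint and contained in `[0, 2 π n/x] ⊆ [0, m]`.
The windows which start above `a₀` contribute at least `π/x - 1/2 ≥ (π/x)/2` each. The number of windows which start
below `a₀` is at most `a₀ x/(2π) + 1`, so
`Σ ≥ (n - a₀ x/(2π) - 1) (π/x)/2` if this is positive. If `n ≥ 2` we have `n ≥ x m/(4π)`...; to avoid cases use
only ONE of the following two lower bounds:
 * `n = 1` (`2π < x m < 4π`): use the single window `(m/4, m/2]`-argument with `u ∈ (m/8, m/4]`: `x u ≤ π`, as in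
   Case 1: `Σ ≥ c x^2 m^3 - C` (constants `(x m/8)^2/5 (m/8 - 1/2)`);
 * in general, for `x m > 4π`: `n ≥ x m/(4π)` (`⌊z⌋ ≥ z/2` for `z ≥ 1`), so
   `Σ ≥ (x m/(4π) - 1) (π/x)/2 - a₀/4`; and `x m/(4π) - 1 ≥ x m/(8π)` if `x m ≥ 8π`, giving `Σ ≥ m/16 - a₀`; for `4π < x m < 8π`
   use again the argument of Case 1 with `u ∈ (m/16, m/8]`.
 Finally `m ≥ x^(2/3) m = y` as `x ≤ 1`.
(So: Case 1' `x m ≤ 8π`, primes with `u ∈ (m/16, m/8]`, `x u ≤ π`; Case 2' `x m > 8π`, windows. Any constants do.)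
-/

set_option autoImplicit false

namespace Pool.Agent.Work.MP_58cfe3_nt

open Filter Topology

theorem slow_loglog : SlowVar (fun (p : ℕ) (_ : Fin 1) => Real.log (Real.log p)) := by
  intro θ hθ
  refine ⟨|Real.log θ|, fun p q hp hq hpq hqp _ => ?_⟩
  have hp1 : (1 : ℝ) < p := by exact_mod_cast hp.one_lt
  have hq1 : (1 : ℝ) < q := by exact_mod_cast hq.one_lt
  have hlp : 0 < Real.log p := Real.log_pos hp1
  have hlq : 0 < Real.log q := Real.log_pos hq1
  have h1 : θ * Real.log p ≤ Real.log q := by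
    rw [← Real.log_rpow (by linarith)]
    exact Real.log_le_log (Real.rpow_pos_of_pos (by linarith) _) hpq
  have h2 : Real.log q ≤ Real.log p := Real.log_le_log (by linarith) (by exact_mod_cast hqp)
  have h3 : Real.log (Real.log q) ≤ Real.log (Real.log p) := Real.log_le_log hlq h2
  have h4 : Real.log θ + Real.log (Real.log p) ≤ Real.log (Real.log q) := by
    rw [← Real.log_mul hθ.ne' hlp.ne']
    exact Real.log_le_log (mul_pos hθ hlp) h1
  have h5 := neg_abs_le (Real.log θ)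
  simp only
  rw [abs_le]
  constructor <;> linarith

private noncomputable def Nb (b : ℝ) : ℕ := ⌊Real.exp (Real.exp b)⌋₊

private theorem Nb_mono {a b : ℝ} (h : a ≤ b) : Nb a ≤ Nb b :=
  Nat.floor_le_floor (Real.exp_le_exp.2 (Real.exp_le_exp.2 h))

private theorem Nb_le (b : ℝ) : (Nb b : ℝ) ≤ Real.exp (Real.exp b) := Nat.floor_le (Real.exp_pos _).le

private theorem lt_Nb (b : ℝ) : Real.exp (Real.exp b) < (Nb b : ℝ) + 1 := Nat.lt_floor_add_one _

private theorem Nb_ge (b : ℝ) : b ≤ Nb b := by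
  have h1 := lt_Nb b
  have h2 := Real.add_one_le_exp b
  have h3 := Real.add_one_le_exp (Real.exp b)
  linarith

private theorem ll_Nb_le {b : ℝ} (hb : 9 ≤ b) : Real.log (Real.log (Nb b)) ≤ b := by
  have h0 := Nb_ge b
  have h1 : (1 : ℝ) < Nb b := by linarith
  have h2 : 0 < Real.log (Nb b) := Real.log_pos h1
  rw [Real.log_le_iff_le_exp h2, Real.log_le_iff_le_exp (by linarith)]
  exact Nb_le b

private theorem le_ll_Nb {b : ℝ} (hb : 9 ≤ b) : b - 1 / 8 ≤ Real.log (Real.log (Nb b)) := by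
  have h0 := Nb_ge b
  have h1 : (1 : ℝ) < Nb b := by linarith
  have h2 : 0 < Real.log (Nb b) := Real.log_pos h1
  rw [Real.le_log_iff_exp_le h2, Real.le_log_iff_exp_le (by linarith)]
  have h3 := lt_Nb b
  have h4 : Real.exp (b - 1 / 8) ≤ Real.exp b - 1 := by
    have h5 : (9 : ℝ) / 8 ≤ Real.exp (1 / 8) := by
      have := Real.add_one_le_exp (1 / 8 : ℝ)
      linarith
    have h6 : Real.exp b = Real.exp (b - 1 / 8) * Real.exp (1 / 8) := by
      rw [← Real.exp_add]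
      congr 1
      ring
    have h7 := Real.add_one_le_exp (b - 1 / 8)
    rw [h6]
    nlinarith [Real.exp_pos (b - 1 / 8)]
  have h8 : Real.exp (Real.exp (b - 1 / 8)) ≤ Real.exp (Real.exp b - 1) := Real.exp_le_exp.2 h4
  have h9 : Real.exp (Real.exp b - 1) ≤ Real.exp (Real.exp b) - 1 := by
    have h10 : Real.exp (Real.exp b) = Real.exp (Real.exp b - 1) * Real.exp 1 := by
      rw [← Real.exp_add]
      congr 1
      ring
    have h11 : (2 : ℝ) ≤ Real.exp 1 := by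
      have := Real.add_one_le_exp (1 : ℝ)
      linarith
    have h12 : (1 : ℝ) ≤ Real.exp (Real.exp b - 1) := by
      apply Real.one_le_exp
      have := Real.add_one_le_exp b
      linarith
    rw [h10]
    nlinarith
  linarith

private theorem mwin : ∃ a₀ : ℝ, 9 ≤ a₀ ∧ ∀ a b : ℝ, a₀ ≤ a → a ≤ b →
    b - a - 1 / 2 ≤ ∑ p ∈ (Finset.Ioc (Nb a) (Nb b)).filter Nat.Prime, (1 / p : ℝ) := by
  obtain ⟨M, hM⟩ := mertens2
  rw [Metric.tendsto_atTop] at hM
  obtain ⟨N₁, hN₁⟩ := hM (1 / 8) (by norm_num)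
  refine ⟨max 9 N₁, le_max_left _ _, fun a b ha hab => ?_⟩
  have ha9 : 9 ≤ a := (le_max_left _ _).trans ha
  have haN : (N₁ : ℝ) ≤ a := (le_max_right _ _).trans ha
  have h1 : N₁ ≤ Nb a := by
    have := haN.trans (Nb_ge a)
    exact_mod_cast this
  have h2 : Nb a ≤ Nb b := Nb_mono hab
  have h3 := hN₁ (Nb a) h1
  have h4 := hN₁ (Nb b) (h1.trans h2)
  rw [Real.dist_eq, abs_lt] at h3 h4
  have h5 := ll_Nb_le ha9
  have h6 := le_ll_Nb (ha9.trans hab)
  have h7 : ∑ p ∈ (Finset.Icc 1 (Nb b)).filter Nat.Prime, (1 / p : ℝ) =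
      ∑ p ∈ (Finset.Icc 1 (Nb a)).filter Nat.Prime, (1 / p : ℝ) +
      ∑ p ∈ (Finset.Ioc (Nb a) (Nb b)).filter Nat.Prime, (1 / p : ℝ) := by
    rw [← Finset.sum_union]
    · refine Finset.sum_congr ?_ fun _ _ => rfl
      rw [← Finset.filter_union]
      congr 1
      ext q
      simp only [Finset.mem_Icc, Finset.mem_union, Finset.mem_Ioc]
      omega
    · rw [Finset.disjoint_left]
      intro q hq hq'
      rw [Finset.mem_filter, Finset.mem_Icc] at hq
      rw [Finset.mem_filter, Finset.mem_Ioc] at hq'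
      omega
  linarith [h3.1, h3.2, h4.1, h4.2]

private noncomputable def fx (x : ℝ) (p : ℕ) : ℝ := (1 - Real.cos (x * Real.log (Real.log p))) / p

private theorem fx_nonneg (x : ℝ) (p : ℕ) : 0 ≤ fx x p :=
  div_nonneg (by linarith [Real.cos_le_one (x * Real.log (Real.log p))]) (Nat.cast_nonneg _)

private noncomputable def U (x b : ℝ) : ℝ := ∑ p ∈ (Finset.Icc 1 (Nb b)).filter Nat.Prime, fx x p

private theorem U_mono (x : ℝ) {a b : ℝ} (h : a ≤ b) : U x a ≤ U x b := by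
  unfold U
  refine Finset.sum_le_sum_of_subset_of_nonneg ?_ fun _ _ _ => fx_nonneg _ _
  exact Finset.filter_subset_filter _ (Finset.Icc_subset_Icc_right (Nb_mono h))

private theorem U_nonneg (x b : ℝ) : 0 ≤ U x b := Finset.sum_nonneg fun _ _ => fx_nonneg _ _

private theorem U_win {a₀ : ℝ} (h9 : 9 ≤ a₀) (hw : ∀ a b : ℝ, a₀ ≤ a → a ≤ b →
    b - a - 1 / 2 ≤ ∑ p ∈ (Finset.Ioc (Nb a) (Nb b)).filter Nat.Prime, (1 / p : ℝ))
    {x a b w : ℝ} (ha : a₀ ≤ a) (hab : a ≤ b) (hw0 : 0 ≤ w)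
    (h : ∀ u : ℝ, a < u → u ≤ b → w ≤ 1 - Real.cos (x * u)) :
    U x a + w * (b - a - 1 / 2) ≤ U x b := by
  have h7 : U x b = U x a + ∑ p ∈ (Finset.Ioc (Nb a) (Nb b)).filter Nat.Prime, fx x p := by
    unfold U
    rw [← Finset.sum_union]
    · refine Finset.sum_congr ?_ fun _ _ => rfl
      rw [← Finset.filter_union]
      congr 1
      ext q
      simp only [Finset.mem_Icc, Finset.mem_union, Finset.mem_Ioc]
      have := Nb_mono hab
      omega
    · rw [Finset.disjoint_left]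
      intro q hq hq'
      rw [Finset.mem_filter, Finset.mem_Icc] at hq
      rw [Finset.mem_filter, Finset.mem_Ioc] at hq'
      omega
  rw [h7]
  have h8 : w * ∑ p ∈ (Finset.Ioc (Nb a) (Nb b)).filter Nat.Prime, (1 / p : ℝ) ≤
      ∑ p ∈ (Finset.Ioc (Nb a) (Nb b)).filter Nat.Prime, fx x p := by
    rw [Finset.mul_sum]
    refine Finset.sum_le_sum fun p hp => ?_
    rw [Finset.mem_filter, Finset.mem_Ioc] at hp
    obtain ⟨⟨hp1, hp2⟩, hpp⟩ := hp
    have hp3 : (Nb a : ℝ) + 1 ≤ p := by exact_mod_cast hp1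
    have hp4 : (p : ℝ) ≤ Nb b := by exact_mod_cast hp2
    have hp5 : Real.exp (Real.exp a) < p := lt_of_lt_of_le (lt_Nb a) hp3
    have hp6 : (p : ℝ) ≤ Real.exp (Real.exp b) := hp4.trans (Nb_le b)
    have hp0 : (0 : ℝ) < p := (Real.exp_pos _).trans hp5
    have hl1 : Real.exp a < Real.log p := (Real.lt_log_iff_exp_lt hp0).2 hp5
    have hl0 : 0 < Real.log p := (Real.exp_pos _).trans hl1
    have hl2 : Real.log p ≤ Real.exp b := (Real.log_le_iff_le_exp hp0).2 hp6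
    have hu1 : a < Real.log (Real.log p) := (Real.lt_log_iff_exp_lt hl0).2 hl1
    have hu2 : Real.log (Real.log p) ≤ b := (Real.log_le_iff_le_exp hl0).2 hl2
    unfold fx
    rw [mul_one_div]
    exact div_le_div_of_nonneg_right (h _ hu1 hu2) hp0.le
  have h9 := mul_le_mul_of_nonneg_left (hw a b ha hab) hw0
  linarith

private theorem cos_nonpos_win {x u : ℝ} (hx : 0 < x) (k : ℕ)
    (h1 : (2 * k + 1 / 2) * Real.pi / x < u) (h2 : u ≤ (2 * k + 3 / 2) * Real.pi / x) :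
    Real.cos (x * u) ≤ 0 := by
  rw [div_lt_iff₀ hx] at h1
  rw [le_div_iff₀ hx] at h2
  have h3 : Real.cos (x * u) = Real.cos (x * u - k * (2 * Real.pi)) := by
    rw [Real.cos_sub_nat_mul_two_pi]
  rw [h3]
  apply Real.cos_nonpos_of_pi_div_two_le_of_le
  · linarith
  · linarith

private theorem stepT {a₀ : ℝ} (h9 : 9 ≤ a₀) (hw : ∀ a b : ℝ, a₀ ≤ a → a ≤ b →
    b - a - 1 / 2 ≤ ∑ p ∈ (Finset.Ioc (Nb a) (Nb b)).filter Nat.Prime, (1 / p : ℝ))
    {x : ℝ} (hx0 : 0 < x) (hx1 : x ≤ 1) (k : ℕ) (hk : a₀ ≤ 2 * k * Real.pi / x) :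
    U x (2 * k * Real.pi / x) + Real.pi / (2 * x) ≤ U x (2 * (k + 1 : ℕ) * Real.pi / x) := by
  have hpi := Real.pi_gt_three
  have e1 : 2 * k * Real.pi / x ≤ (2 * k + 1 / 2) * Real.pi / x := by
    apply div_le_div_of_nonneg_right _ hx0.le
    nlinarith
  have e2 : (2 * k + 1 / 2) * Real.pi / x ≤ (2 * k + 3 / 2) * Real.pi / x := by
    apply div_le_div_of_nonneg_right _ hx0.le
    nlinarith
  have e3 : (2 * k + 3 / 2) * Real.pi / x ≤ 2 * (k + 1 : ℕ) * Real.pi / x := by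
    apply div_le_div_of_nonneg_right _ hx0.le
    push_cast
    nlinarith
  have h1 := U_mono x e1
  have h2 := U_win h9 hw (x := x) (w := 1) (hk.trans e1) e2 zero_le_one (by
    intro u hu1 hu2
    have := cos_nonpos_win hx0 k hu1 hu2
    linarith)
  have h3 := U_mono x e3
  have e4 : (2 * k + 3 / 2) * Real.pi / x - (2 * k + 1 / 2) * Real.pi / x = Real.pi / x := by
    rw [← sub_div]
    congr 1
    ring
  have e5 : (1 : ℝ) / 2 ≤ Real.pi / (2 * x) := by
    rw [div_le_div_iff₀ (by norm_num) (by positivity)]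
    nlinarith
  have e6 : Real.pi / x = Real.pi / (2 * x) + Real.pi / (2 * x) := by
    field_simp
    ring
  linarith

private theorem sumT {a₀ : ℝ} (h9 : 9 ≤ a₀) (hw : ∀ a b : ℝ, a₀ ≤ a → a ≤ b →
    b - a - 1 / 2 ≤ ∑ p ∈ (Finset.Ioc (Nb a) (Nb b)).filter Nat.Prime, (1 / p : ℝ))
    {x : ℝ} (hx0 : 0 < x) (hx1 : x ≤ 1) (k₀ : ℕ) (hk : a₀ ≤ 2 * k₀ * Real.pi / x) (j : ℕ) :
    j * (Real.pi / (2 * x)) ≤ U x (2 * (k₀ + j : ℕ) * Real.pi / x) := by
  induction j with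
  | zero =>
    simp only [Nat.cast_zero, zero_mul]
    exact U_nonneg _ _
  | succ j ih =>
    have h1 : a₀ ≤ 2 * (k₀ + j : ℕ) * Real.pi / x := by
      refine hk.trans ?_
      apply div_le_div_of_nonneg_right _ hx0.le
      push_cast
      nlinarith [Real.pi_pos, mul_nonneg (Nat.cast_nonneg (α := ℝ) j) Real.pi_pos.le]
    have h2 := stepT h9 hw hx0 hx1 (k₀ + j) h1
    rw [← add_assoc]
    push_cast at h2 ih ⊢
    linarith

private theorem caseB {a₀ : ℝ} (h9 : 9 ≤ a₀) (hw : ∀ a b : ℝ, a₀ ≤ a → a ≤ b →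
    b - a - 1 / 2 ≤ ∑ p ∈ (Finset.Ioc (Nb a) (Nb b)).filter Nat.Prime, (1 / p : ℝ))
    {x m : ℝ} (hx0 : 0 < x) (hx1 : x ≤ 1) (hxm : 8 * Real.pi ≤ x * m) :
    m / 8 - a₀ / 4 ≤ U x m := by
  have hpi := Real.pi_pos
  obtain ⟨k₀, hk₀⟩ : ∃ k₀ : ℕ, k₀ = ⌈a₀ * x / (2 * Real.pi)⌉₊ := ⟨_, rfl⟩
  have hk1 : a₀ * x / (2 * Real.pi) ≤ k₀ := by
    rw [hk₀]
    exact Nat.le_ceil _
  have hk2 : (k₀ : ℝ) < a₀ * x / (2 * Real.pi) + 1 := by
    rw [hk₀]
    exact Nat.ceil_lt_add_one (by positivity)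
  obtain ⟨n, hn⟩ : ∃ n : ℕ, n = ⌊x * m / (2 * Real.pi)⌋₊ := ⟨_, rfl⟩
  have hxm0 : 0 ≤ x * m / (2 * Real.pi) := by
    have : 0 ≤ x * m := by linarith
    positivity
  have hn1 : (n : ℝ) ≤ x * m / (2 * Real.pi) := by
    rw [hn]
    exact Nat.floor_le hxm0
  have hn2 : x * m / (2 * Real.pi) < (n : ℝ) + 1 := by
    rw [hn]
    exact Nat.lt_floor_add_one _
  have hb : m / 8 - a₀ / 4 ≤ ((n : ℝ) - k₀) * (Real.pi / (2 * x)) := by
    have h1 : x * m / (2 * Real.pi) - 1 - (a₀ * x / (2 * Real.pi) + 1) ≤ (n : ℝ) - k₀ := by linarith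
    have h2 : (x * m / (2 * Real.pi) - 1 - (a₀ * x / (2 * Real.pi) + 1)) * (Real.pi / (2 * x)) ≤
        ((n : ℝ) - k₀) * (Real.pi / (2 * x)) :=
      mul_le_mul_of_nonneg_right h1 (by positivity)
    have h3 : (x * m / (2 * Real.pi) - 1 - (a₀ * x / (2 * Real.pi) + 1)) * (Real.pi / (2 * x)) =
        m / 4 - a₀ / 4 - Real.pi / x := by
      field_simp
      ring
    have h4 : Real.pi / x ≤ m / 8 := by
      rw [div_le_div_iff₀ hx0 (by norm_num)]
      linarith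
    linarith
  refine hb.trans ?_
  rcases le_total k₀ n with h | h
  · have h1 := sumT h9 hw hx0 hx1 k₀ (by
      rw [le_div_iff₀ hx0]
      rw [div_le_iff₀ (by positivity)] at hk1
      linarith) (n - k₀)
    rw [Nat.add_sub_cancel' h, Nat.cast_sub h] at h1
    refine h1.trans (U_mono x ?_)
    rw [div_le_iff₀ hx0]
    rw [le_div_iff₀ (by positivity)] at hn1
    linarith
  · have h1 : (n : ℝ) - k₀ ≤ 0 := by
      have : (n : ℝ) ≤ k₀ := by exact_mod_cast h
      linarith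
    exact (mul_nonpos_of_nonpos_of_nonneg h1 (by positivity)).trans (U_nonneg _ _)

private theorem caseA {a₀ : ℝ} (h9 : 9 ≤ a₀) (hw : ∀ a b : ℝ, a₀ ≤ a → a ≤ b →
    b - a - 1 / 2 ≤ ∑ p ∈ (Finset.Ioc (Nb a) (Nb b)).filter Nat.Prime, (1 / p : ℝ))
    {x m : ℝ} (hx0 : 0 ≤ x) (hm : 16 * a₀ ≤ m) (hxm : x * m ≤ 8 * Real.pi) :
    x ^ 2 * m ^ 3 / 50000 ≤ U x m := by
  have hpi := Real.pi_pos
  have hm0 : 0 < m := by linarith
  have h1 := U_win h9 hw (x := x) (a := m / 16) (b := m / 8) (w := 2 / Real.pi ^ 2 * (x * (m / 16)) ^ 2)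
    (by linarith) (by linarith) (by positivity) (by
      intro u hu1 hu2
      have hu0 : 0 < u := by linarith
      have h2 : |x * u| ≤ Real.pi := by
        rw [abs_of_nonneg (by positivity)]
        nlinarith [mul_le_mul_of_nonneg_left hu2 hx0]
      have h3 := Real.cos_le_one_sub_mul_cos_sq h2
      have h4 : (x * (m / 16)) ^ 2 ≤ (x * u) ^ 2 :=
        pow_le_pow_left₀ (by positivity) (mul_le_mul_of_nonneg_left hu1.le hx0) 2
      have h5 : 2 / Real.pi ^ 2 * (x * (m / 16)) ^ 2 ≤ 2 / Real.pi ^ 2 * (x * u) ^ 2 :=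
        mul_le_mul_of_nonneg_left h4 (by positivity)
      linarith)
  have h2 := U_mono x (show m / 8 ≤ m by linarith)
  have h3 := U_nonneg x (m / 16)
  refine le_trans ?_ (le_trans (le_add_of_nonneg_left h3) (h1.trans h2))
  have h4 : m / 32 ≤ m / 8 - m / 16 - 1 / 2 := by linarith
  have h5 : 2 / Real.pi ^ 2 * (x * (m / 16)) ^ 2 * (m / 32) ≤
      2 / Real.pi ^ 2 * (x * (m / 16)) ^ 2 * (m / 8 - m / 16 - 1 / 2) :=
    mul_le_mul_of_nonneg_left h4 (by positivity)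
  refine le_trans ?_ h5
  have h6 : 2 / Real.pi ^ 2 * (x * (m / 16)) ^ 2 * (m / 32) = x ^ 2 * m ^ 3 / (4096 * Real.pi ^ 2) := by
    field_simp
    ring
  rw [h6]
  apply div_le_div_of_nonneg_left (by positivity) (by positivity)
  have h7 : Real.pi < 3.15 := Real.pi_lt_d2
  nlinarith

private theorem norm1 (β : Fin 1 → ℝ) : ‖β‖ = |β 0| := by
  refine le_antisymm ((pi_norm_le_iff_of_nonneg (abs_nonneg _)).2 fun i => ?_) ?_
  · fin_cases i
    exact le_refl _
  · exact norm_le_pi_norm β 0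

theorem spread_loglog : Spread (fun (p : ℕ) (_ : Fin 1) => Real.log (Real.log p)) 3 := by
  obtain ⟨a₀, h9, hw⟩ := mwin
  refine ⟨1 / 50000, 2 / 3, 1 + a₀, 1, by norm_num, by norm_num, by norm_num, ?_⟩
  have hev : ∀ᶠ X : ℕ in atTop, 16 * a₀ ≤ Real.log (Real.log X) :=
    (Real.tendsto_log_atTop.comp (Real.tendsto_log_atTop.comp tendsto_natCast_atTop_atTop)).eventually_ge_atTop _
  filter_upwards [hev] with X hX β hβ
  rw [norm1] at hβ ⊢
  obtain ⟨x, hx⟩ : ∃ x : ℝ, x = |β 0| := ⟨_, rfl⟩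
  obtain ⟨m, hm⟩ : ∃ m : ℝ, m = Real.log (Real.log X) := ⟨_, rfl⟩
  have hsum : ∑ p ∈ (Finset.Icc 1 X).filter Nat.Prime,
      (1 - Real.cos (dot β ((fun (p : ℕ) (_ : Fin 1) => Real.log (Real.log p)) p))) / p =
      ∑ p ∈ (Finset.Icc 1 X).filter Nat.Prime, fx x p := by
    refine Finset.sum_congr rfl fun p _ => ?_
    unfold fx dot
    rw [Fin.sum_univ_one, hx]
    congr 2
    rcases abs_cases (β 0) with h | h
    · rw [h.1]
    · rw [h.1, neg_mul, Real.cos_neg]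
  rw [hsum, ← hx, ← hm]
  rw [← hx] at hβ
  rw [← hm] at hX
  have hx0 : 0 ≤ x := by
    rw [hx]
    exact abs_nonneg _
  have hm0 : 0 < m := by linarith
  have hlX : 0 < Real.log X := by
    by_contra hcon
    push Not at hcon
    rcases hcon.lt_or_eq with h | h
    · have h1 : (X : ℝ) < 1 := by
        by_contra h2
        push Not at h2
        linarith [Real.log_nonneg h2]
      have h2 : X = 0 := by
        have : X < 1 := by exact_mod_cast h1
        omega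
      rw [hm, h2] at hm0
      simp at hm0
    · rw [hm, h] at hm0
      simp at hm0
  have hX1 : (1 : ℝ) < X := by
    by_contra hcon
    push Not at hcon
    have := Real.log_nonpos (Nat.cast_nonneg X) hcon
    linarith
  have hNX : Nb m ≤ X := by
    have h1 := Nb_le m
    rw [hm, Real.exp_log hlX, Real.exp_log (by linarith)] at h1
    rw [hm]
    exact_mod_cast h1
  have hU : U x m ≤ ∑ p ∈ (Finset.Icc 1 X).filter Nat.Prime, fx x p := by
    unfold U
    refine Finset.sum_le_sum_of_subset_of_nonneg ?_ fun _ _ _ => fx_nonneg _ _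
    exact Finset.filter_subset_filter _ (Finset.Icc_subset_Icc_right hNX)
  refine le_trans ?_ hU
  obtain ⟨y, hy⟩ : ∃ y : ℝ, y = (x * m ^ ((3 : ℝ) / 2)) ^ ((2 : ℝ) / 3) := ⟨_, rfl⟩
  rw [← hy]
  have hxm0 : 0 ≤ x * m ^ ((3 : ℝ) / 2) := mul_nonneg hx0 (Real.rpow_nonneg hm0.le _)
  have hy0 : 0 ≤ y := by
    rw [hy]
    exact Real.rpow_nonneg hxm0 _
  rcases le_total (x * m) (8 * Real.pi) with h | h
  · have h1 := caseA h9 hw hx0 hX h
    have h2 : y ^ 3 = x ^ 2 * m ^ 3 := by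
      rw [hy, ← Real.rpow_natCast, ← Real.rpow_mul hxm0, Real.mul_rpow hx0 (Real.rpow_nonneg hm0.le _),
        ← Real.rpow_mul hm0.le, ← Real.rpow_natCast x, ← Real.rpow_natCast m]
      norm_num
    rw [← h2] at h1
    have h3 : y ≤ y ^ 3 + 1 := by
      nlinarith [sq_nonneg (y - 1), mul_nonneg hy0 (sq_nonneg (y - 1)), sq_nonneg y]
    linarith
  · have hxp : 0 < x := by
      rcases hx0.lt_or_eq with h1 | h1
      · exact h1
      · rw [← h1, zero_mul] at h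
        linarith [Real.pi_pos]
    have h1 := caseB h9 hw hxp hβ h
    have h2 : y ≤ m := by
      have h3 : x * m ^ ((3 : ℝ) / 2) ≤ m ^ ((3 : ℝ) / 2) := by
        have := Real.rpow_nonneg hm0.le ((3 : ℝ) / 2)
        nlinarith
      rw [hy]
      refine (Real.rpow_le_rpow hxm0 h3 (by norm_num)).trans ?_
      rw [← Real.rpow_mul hm0.le]
      norm_num
    linarith

end Pool.Agent.Work.MP_58cfe3_nt
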