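import Pool.Agent.Work.MP_58cfe3_nt.Z.HBase

/-!
# Block Z, module HAll (size S)

The points which lie in infinitely many `A m` form a set of Hausdorff dimension at most `1/a`.

PROOF. For every real `s > 1/a` apply `dim_base` with `B = A`, `N = K`, `ρ m = C m^(-a)` (positive for
`m ≥ 1`, tends to `0` by `tendsto_rpow_neg_atTop`) and `s`: `ρ m^s = C^s m^(-a s)` is summable because `a s > 1`
(`Real.summable_nat_rpow`). So `dimH ≤ s` for all `s > 1/a`; let `s` decrease to `1/a`
(`le_of_forall_gt`-type lemma for `ENNReal`, e.g. `ENNReal.le_of_forall_pos_le_add` or `le_of_forall_lt'`).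
-/

set_option autoImplicit false

namespace Pool.Agent.Work.MP_58cfe3_nt

open Filter Topology

theorem dim_limsup {d : ℕ} {A : ℕ → Set (Fin d → ℝ)} {K : ℕ} {C a : ℝ} (hC : 0 < C) (ha : 0 < a)
    (h : Thin A K C a) : dimH {t | ∃ᶠ m : ℕ in atTop, t ∈ A m} ≤ ENNReal.ofReal (1 / a) := by
  have h1a : 0 < 1 / a := by positivity
  apply ENNReal.le_of_forall_pos_le_add
  intro ε hε _
  set s : NNReal := (1 / a).toNNReal + ε with hs
  have hsr : (s : ℝ) = 1 / a + ε := by
    rw [hs, NNReal.coe_add, Real.coe_toNNReal _ h1a.le]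
  have hεr : (0 : ℝ) < ε := by exact_mod_cast hε
  have hs0 : 0 < s := by
    rw [← NNReal.coe_pos, hsr]
    linarith
  have hρ : ∀ᶠ i : ℕ in atTop, 0 < C * (i : ℝ) ^ (-a) := by
    filter_upwards [eventually_gt_atTop 0] with i hi
    have : (0 : ℝ) < i := by exact_mod_cast hi
    positivity
  have hρ0 : Tendsto (fun i : ℕ => C * (i : ℝ) ^ (-a)) atTop (𝓝 0) := by
    have h1 := ((tendsto_rpow_neg_atTop ha).comp tendsto_natCast_atTop_atTop).const_mul C
    rw [mul_zero] at h1
    exact h1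
  have hsum : Summable fun i : ℕ => (C * (i : ℝ) ^ (-a)) ^ (s : ℝ) := by
    have h1 : Summable fun i : ℕ => C ^ (s : ℝ) * (i : ℝ) ^ (-a * s) := by
      apply Summable.mul_left
      rw [Real.summable_nat_rpow, hsr]
      have h2 : a * (1 / a) = 1 := by field_simp
      nlinarith [mul_pos ha hεr]
    refine h1.congr fun i => ?_
    rw [Real.mul_rpow hC.le (Real.rpow_nonneg (Nat.cast_nonneg i) _),
      ← Real.rpow_mul (Nat.cast_nonneg i)]
  have key := dim_base (B := A) (N := K) (ρ := fun i : ℕ => C * (i : ℝ) ^ (-a)) hρ hρ0 h hs0 hsum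
  refine key.trans ?_
  rw [hs, ENNReal.coe_add]
  rfl

end Pool.Agent.Work.MP_58cfe3_nt
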