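import Pool.Agent.Work.MP_58cfe3_nt.Z.HBase

/-!
# Block Z, module HDens (size M)

The points `t` for which `{m : t ∈ A m}` does not have density zero form a set of Hausdorff dimension
zero.

PROOF. Write `c_M(t) = #{m < M : t ∈ A m}`. If `c_M(t)/M` does not tend to `0`, there is `j ≥ 1` with
`c_M(t) ≥ M/j` for infinitely many `M`; so the set is the union over `j` of
`E_j = {t : ∃ᶠ M, c_M(t) ≥ M/j}`, and by `dimH_iUnion` it suffices that `dimH E_j = 0`. Put `ϑ = 1/j ≤ 1`.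
For `t ∈ E_j` and infinitely many `M`, choose `i` with `2^i ≤ M < 2^(i+1)` (`i → ∞` with `M`): then
`c_{2^(i+1)}(t) ≥ c_M(t) ≥ ϑ 2^i`, and at most `ϑ 2^(i-1) + 1 ≤ (3/4) ϑ 2^i` (`i` large) of the `m` counted are `≤ ϑ 2^(i-1)`. So
`t ∈ B_i := {t : #{m : ϑ 2^(i-1) < m < 2^(i+1), t ∈ A m} ≥ ϑ 2^i/4}` for infinitely many `i`:
`E_j ⊆ {t | ∃ᶠ i, t ∈ B_i}`.
CLAIM: for large `i` every `ρ_i`-separated finite `P ⊆ B_i` has at most `N = ⌈8 K/ϑ⌉₊` elements, where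
`ρ_i = C (ϑ 2^(i-1))^(-a)`. Indeed for `m > ϑ 2^(i-1)` the set `P_m = {t ∈ P : t ∈ A m}` is `C m^(-a)`-separated
(as `C m^(-a) ≤ ρ_i`; a subset of `P`), so `#P_m ≤ K` by `Thin` (`m` is large). Double counting
(`Finset.sum_comm`, `Finset.sum_card_bipartiteAbove_eq_sum_card_bipartiteBelow`):
`#P ϑ 2^i/4 ≤ ∑_{t ∈ P} #{m : ...} = ∑_m #P_m ≤ 2^(i+1) K`, so `#P ≤ 8 K/ϑ`.
Now `dim_base` applies with every `s > 0`: `ρ_i^s = const (2^(-a s))^i` is a convergent geometric series. So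
`dimH E_j ≤ s` for all `s > 0`, i.e. `dimH E_j = 0`.
-/

set_option autoImplicit false

namespace Pool.Agent.Work.MP_58cfe3_nt

open Filter Topology

open Classical in
private noncomputable def cc {d : ℕ} (A : ℕ → Set (Fin d → ℝ)) (M : ℕ) (t : Fin d → ℝ) : ℕ :=
  ((Finset.range M).filter (fun m => t ∈ A m)).card

open Classical in
private noncomputable def bb {d : ℕ} (A : ℕ → Set (Fin d → ℝ)) (q i : ℕ) (t : Fin d → ℝ) : ℕ :=
  ((Finset.Ico (2 ^ i / (2 * q)) (2 ^ (i + 1))).filter (fun m => t ∈ A m)).card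

private theorem stepB {d : ℕ} (A : ℕ → Set (Fin d → ℝ)) (q : ℕ) (t : Fin d → ℝ)
    (h : ∃ᶠ M : ℕ in atTop, M ≤ q * cc A M t) : ∃ᶠ i : ℕ in atTop, 2 ^ i ≤ 2 * q * bb A q i t := by
  classical
  rw [frequently_atTop] at h ⊢
  intro i0
  obtain ⟨M, hM, hq⟩ := h (2 ^ i0)
  have hM0 : M ≠ 0 := by
    have : 0 < 2 ^ i0 := by positivity
    omega
  refine ⟨Nat.log 2 M, Nat.le_log_of_pow_le Nat.one_lt_two hM, ?_⟩
  have h1 : 2 ^ Nat.log 2 M ≤ M := Nat.pow_log_le_self 2 hM0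
  have h2 : M < 2 ^ (Nat.log 2 M + 1) := Nat.lt_pow_succ_log_self Nat.one_lt_two M
  generalize Nat.log 2 M = i at h1 h2
  have h3 : cc A M t ≤ 2 ^ i / (2 * q) + bb A q i t := by
    unfold cc bb
    have h4 : (Finset.range M).filter (fun m => t ∈ A m) ⊆ Finset.range (2 ^ i / (2 * q)) ∪
        (Finset.Ico (2 ^ i / (2 * q)) (2 ^ (i + 1))).filter (fun m => t ∈ A m) := by
      intro m hm
      rw [Finset.mem_filter, Finset.mem_range] at hm
      rw [Finset.mem_union, Finset.mem_range, Finset.mem_filter, Finset.mem_Ico]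
      by_cases h5 : m < 2 ^ i / (2 * q)
      · exact Or.inl h5
      · exact Or.inr ⟨⟨by omega, by omega⟩, hm.2⟩
    refine (Finset.card_le_card h4).trans ((Finset.card_union_le _ _).trans ?_)
    rw [Finset.card_range]
  have h6 : 2 ^ i / (2 * q) * (2 * q) ≤ 2 ^ i := Nat.div_mul_le_self _ _
  have h7 : q * cc A M t ≤ q * (2 ^ i / (2 * q) + bb A q i t) := Nat.mul_le_mul_left _ h3
  nlinarith [h1, h6, h7, hq]

private theorem claimP {d : ℕ} {A : ℕ → Set (Fin d → ℝ)} {K : ℕ} {C a : ℝ} (hC : 0 < C) (ha : 0 < a)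
    (h : Thin A K C a) (q : ℕ) (hq : 1 ≤ q) :
    ∀ᶠ i : ℕ in atTop, ∀ P : Finset (Fin d → ℝ), (∀ t ∈ P, 2 ^ i ≤ 2 * q * bb A q i t) →
      Sepd P (C * ((2 : ℝ) ^ i / (4 * q)) ^ (-a)) → P.card ≤ 4 * q * K := by
  classical
  obtain ⟨m₀, hm₀⟩ := eventually_atTop.1 h
  have hlarge : ∀ᶠ i : ℕ in atTop, 2 * q * (m₀ + 1) ≤ 2 ^ i :=
    (tendsto_pow_atTop_atTop_of_one_lt Nat.one_lt_two).eventually_ge_atTop _
  filter_upwards [hlarge] with i hi P hP hsep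
  have hq0 : 0 < 2 * q := by omega
  have hdiv : m₀ + 1 ≤ 2 ^ i / (2 * q) := by
    rw [Nat.le_div_iff_mul_le hq0]
    calc (m₀ + 1) * (2 * q) = 2 * q * (m₀ + 1) := by ring
      _ ≤ 2 ^ i := hi
  have hq1 : (0 : ℝ) < q := by exact_mod_cast hq
  have hlow : (2 : ℝ) ^ i / (4 * q) ≤ ((2 ^ i / (2 * q) : ℕ) : ℝ) := by
    have h1 : 2 ^ i < (2 ^ i / (2 * q) + 1) * (2 * q) := by
      have e1 := Nat.div_add_mod (2 ^ i) (2 * q)
      have e2 := Nat.mod_lt (2 ^ i) hq0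
      nlinarith [e1, e2]
    have h2 : (2 : ℝ) ^ i < (((2 ^ i / (2 * q) : ℕ) : ℝ) + 1) * (2 * q) := by exact_mod_cast h1
    have h3 : (1 : ℝ) ≤ ((2 ^ i / (2 * q) : ℕ) : ℝ) := by
      have : 1 ≤ 2 ^ i / (2 * q) := by omega
      exact_mod_cast this
    rw [div_le_iff₀ (by positivity)]
    nlinarith
  have hpos : (0 : ℝ) < (2 : ℝ) ^ i / (4 * q) := by positivity
  have hPm : ∀ m ∈ Finset.Ico (2 ^ i / (2 * q)) (2 ^ (i + 1)), (P.filter (fun t => t ∈ A m)).card ≤ K := by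
    intro m hm
    rw [Finset.mem_Ico] at hm
    refine hm₀ m (by omega) _ (fun t ht => (Finset.mem_filter.1 ht).2) ?_
    intro t ht t' ht' hne
    refine le_trans ?_ (hsep t (Finset.mem_filter.1 ht).1 t' (Finset.mem_filter.1 ht').1 hne)
    refine mul_le_mul_of_nonneg_left ?_ hC.le
    refine Real.rpow_le_rpow_of_nonpos hpos ?_ (by linarith)
    refine hlow.trans ?_
    exact_mod_cast hm.1
  have hdc : ∑ t ∈ P, bb A q i t = ∑ m ∈ Finset.Ico (2 ^ i / (2 * q)) (2 ^ (i + 1)),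
      (P.filter (fun t => t ∈ A m)).card := by
    unfold bb
    simp_rw [Finset.card_filter]
    rw [Finset.sum_comm]
  have h1 : P.card * 2 ^ i ≤ 2 * q * ∑ t ∈ P, bb A q i t := by
    rw [Finset.mul_sum, ← smul_eq_mul]
    exact Finset.card_nsmul_le_sum _ _ _ hP
  have h2 : ∑ t ∈ P, bb A q i t ≤ 2 ^ (i + 1) * K := by
    rw [hdc]
    refine (Finset.sum_le_card_nsmul _ _ _ hPm).trans ?_
    rw [smul_eq_mul, Nat.card_Ico]
    exact Nat.mul_le_mul_right _ (Nat.sub_le _ _)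
  have h3 : P.card * 2 ^ i ≤ 4 * q * K * 2 ^ i := by
    calc P.card * 2 ^ i ≤ 2 * q * ∑ t ∈ P, bb A q i t := h1
      _ ≤ 2 * q * (2 ^ (i + 1) * K) := Nat.mul_le_mul_left _ h2
      _ = 4 * q * K * 2 ^ i := by ring
  exact Nat.le_of_mul_le_mul_right h3 (by positivity)

private theorem dimE {d : ℕ} {A : ℕ → Set (Fin d → ℝ)} {K : ℕ} {C a : ℝ} (hC : 0 < C) (ha : 0 < a)
    (h : Thin A K C a) (q : ℕ) (hq : 1 ≤ q) :
    dimH {t | ∃ᶠ i : ℕ in atTop, t ∈ {t | 2 ^ i ≤ 2 * q * bb A q i t}} = 0 := by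
  by_contra hne
  have hpos : 0 < dimH {t | ∃ᶠ i : ℕ in atTop, t ∈ {t | 2 ^ i ≤ 2 * q * bb A q i t}} :=
    pos_iff_ne_zero.2 hne
  obtain ⟨s, hs0, hs1⟩ := ENNReal.lt_iff_exists_nnreal_btwn.1 hpos
  have hs : 0 < s := by exact_mod_cast hs0
  have hq1 : (0 : ℝ) < q := by exact_mod_cast hq
  have hform : ∀ i : ℕ, C * ((2 : ℝ) ^ i / (4 * q)) ^ (-a) = (C * (4 * q) ^ a) * ((2 : ℝ) ^ (-a)) ^ i := by
    intro i
    rw [Real.div_rpow (by positivity) (by positivity), Real.rpow_neg (by positivity : (0 : ℝ) ≤ 4 * q),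
      ← Real.rpow_natCast, ← Real.rpow_mul (by norm_num), ← Real.rpow_natCast, ← Real.rpow_mul (by norm_num),
      mul_comm (-a)]
    field_simp
  have hr0 : (0 : ℝ) < (2 : ℝ) ^ (-a) := Real.rpow_pos_of_pos two_pos _
  have hr1 : (2 : ℝ) ^ (-a) < 1 := Real.rpow_lt_one_of_one_lt_of_neg one_lt_two (by linarith)
  have hD : 0 < C * (4 * (q : ℝ)) ^ a := by positivity
  refine absurd (dim_base (B := fun i => {t | 2 ^ i ≤ 2 * q * bb A q i t}) (N := 4 * q * K)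
    (ρ := fun i => C * ((2 : ℝ) ^ i / (4 * q)) ^ (-a)) ?_ ?_ ?_ hs ?_) (not_le.2 hs1)
  · exact Eventually.of_forall fun i => by positivity
  · simp_rw [hform]
    rw [← mul_zero (C * (4 * (q : ℝ)) ^ a)]
    exact (tendsto_pow_atTop_nhds_zero_of_lt_one hr0.le hr1).const_mul _
  · filter_upwards [claimP hC ha h q hq] with i hi P hP hsep
    exact hi P hP hsep
  · simp_rw [hform]
    have h1 : ∀ i : ℕ, (C * (4 * (q : ℝ)) ^ a * ((2 : ℝ) ^ (-a)) ^ i) ^ (s : ℝ) =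
        (C * (4 * (q : ℝ)) ^ a) ^ (s : ℝ) * (((2 : ℝ) ^ (-a)) ^ (s : ℝ)) ^ i := by
      intro i
      rw [Real.mul_rpow hD.le (by positivity), ← Real.rpow_natCast (((2 : ℝ) ^ (-a)) ^ (s : ℝ)),
        ← Real.rpow_natCast ((2 : ℝ) ^ (-a)), ← Real.rpow_mul hr0.le, ← Real.rpow_mul hr0.le, mul_comm (i : ℝ)]
    simp_rw [h1]
    refine Summable.mul_left _ (summable_geometric_of_lt_one (by positivity) ?_)
    exact Real.rpow_lt_one hr0.le hr1 (by exact_mod_cast hs)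

open Classical in
theorem dim_dens {d : ℕ} {A : ℕ → Set (Fin d → ℝ)} {K : ℕ} {C a : ℝ} (hC : 0 < C) (ha : 0 < a)
    (h : Thin A K C a) :
    dimH {t | ¬ Tendsto (fun M : ℕ => (((Finset.range M).filter (fun m => t ∈ A m)).card : ℝ) / M)
      atTop (𝓝 0)} = 0 := by
  have hsub : {t | ¬ Tendsto (fun M : ℕ => (((Finset.range M).filter (fun m => t ∈ A m)).card : ℝ) / M)
      atTop (𝓝 0)} ⊆ ⋃ j : ℕ, {t | ∃ᶠ i : ℕ in atTop, t ∈ {t | 2 ^ i ≤ 2 * (j + 1) * bb A (j + 1) i t}} := by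
    intro t ht
    rw [Set.mem_iUnion]
    have ht' : ¬ Tendsto (fun M : ℕ => (cc A M t : ℝ) / M) atTop (𝓝 0) := ht
    rw [Metric.tendsto_atTop] at ht'
    push Not at ht'
    obtain ⟨ε, hε, hfr⟩ := ht'
    obtain ⟨j, hj⟩ := exists_nat_one_div_lt hε
    refine ⟨j, ?_⟩
    refine stepB A (j + 1) t ?_
    rw [frequently_atTop]
    intro M₀
    obtain ⟨M, hM, h1⟩ := hfr (M₀ + 1)
    refine ⟨M, by omega, ?_⟩
    have hM0 : (0 : ℝ) < M := by
      have : 0 < M := by omega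
      exact_mod_cast this
    rw [Real.dist_eq, sub_zero, abs_of_nonneg (by positivity)] at h1
    have h2 : 1 / ((j : ℝ) + 1) < (cc A M t : ℝ) / M := lt_of_lt_of_le hj h1
    rw [div_lt_div_iff₀ (by positivity) hM0] at h2
    have h3 : (M : ℝ) ≤ ((j + 1) * cc A M t : ℕ) := by
      push_cast
      linarith
    exact_mod_cast h3
  refine le_antisymm ((dimH_mono hsub).trans ?_) bot_le
  rw [dimH_iUnion]
  refine iSup_le fun j => ?_
  exact (dimE hC ha h (j + 1) (by omega)).le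

end Pool.Agent.Work.MP_58cfe3_nt
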