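import Pool.Agent.Work.MP_58cfe3_nt.Z.Defs

/-!
# Block Z, module LLm (size M)

A set `B` of scales which is contained in the union of the intervals `[sc δ m, sc δ (m+1))`, `m ∈ B'`
(for large `m`), where `B'` has density zero, has loglog density zero.

PROOF. Put `I_m = [sc δ m, sc δ (m+1))` (naturals) and `x_m = exp(exp(δ m))`, `sc δ m = ⌊x_m⌋`. Let `m₀` be such
that the hypothesis `h` holds for `m ≥ m₀` and `sc δ m₀ ≥ 3`. For `m ≥ m₀`
`W_m = ∑_{X ∈ I_m} 1/(X log X) ≤ δ + 2` (in fact about `δ`): for `X ≥ 3`, `1/(X log X) ≤ log log X - log log (X-1)`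
(the derivative `1/(x log x)` of `log log x` is decreasing; mean value theorem), so telescoping
`W_m ≤ 1/(⌊x_m⌋ log ⌊x_m⌋) + log log (sc δ (m+1) - 1) - log log (sc δ m) ≤ 1 + δ (m+1) - (δ m - 1)`, where
`log log ⌊x_m⌋ ≥ δ m - 1` for large `m` (`log ⌊x_m⌋ ≥ e^(δ m) - 1 ≥ e^(δ m - 1)`).
For `Y` large let `M` be such that `sc δ M ≤ Y < sc δ (M+1)`; then `log log Y ≥ δ M - 1`. And
`llw B Y ≤ C₀ + ∑_{m₀ ≤ m ≤ M, m ∈ B'} W_m ≤ C₀ + (δ + 2) #{m < M + 1 : m ∈ B'}`, with
`C₀ = llw Set.univ (sc δ m₀)` (the `X ≤ sc δ m₀`); indeed `X ∈ B`, `sc δ m₀ ≤ X ≤ Y` lies in `I_m` for exactly one `m ≤ M`, `m ≥ m₀`,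
and then `m ∈ B'`. Divide by `log log Y ≥ δ M - 1`: the quotient tends to `0`, because
`#{m < M+1 : m ∈ B'}/(M+1) → 0` and `M → ∞` as `Y → ∞`.
(Alternatively compare with the sets of `WDens`/`LDiag`, which contain similar computations.)
-/

set_option autoImplicit false

namespace Pool.Agent.Work.MP_58cfe3_nt

open Filter Topology

private noncomputable def wt (X : ℕ) : ℝ := 1 / ((X : ℝ) * Real.log X)

private theorem wt_nonneg (X : ℕ) : 0 ≤ wt X := by
  unfold wt
  have h2 : (0 : ℝ) ≤ Real.log X := Real.log_natCast_nonneg X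
  positivity

private theorem llw_nonneg (B : Set ℕ) (Y : ℕ) : 0 ≤ llw B Y := by
  classical
  unfold llw
  exact Finset.sum_nonneg fun X _ => wt_nonneg X

/-- `1/(X log X) ≤ log log X - log log (X - 1)` -/
private theorem term_le {X : ℕ} (hX : 3 ≤ X) :
    wt X ≤ Real.log (Real.log X) - Real.log (Real.log ((X : ℝ) - 1)) := by
  have hX3 : (3 : ℝ) ≤ X := by exact_mod_cast hX
  have h1 : 0 < Real.log ((X : ℝ) - 1) := Real.log_pos (by linarith)
  have h2 : 0 < Real.log X := Real.log_pos (by linarith)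
  have h3 : 1 / (X : ℝ) ≤ Real.log X - Real.log ((X : ℝ) - 1) := by
    have h4 := Real.add_one_le_exp (-(1 / (X : ℝ)))
    have h5 : Real.log (((X : ℝ) - 1) / X) ≤ ((X : ℝ) - 1) / X - 1 :=
      Real.log_le_sub_one_of_pos (div_pos (by linarith) (by linarith))
    rw [Real.log_div (by linarith) (by linarith)] at h5
    have h6 : ((X : ℝ) - 1) / X - 1 = -(1 / (X : ℝ)) := by
      field_simp
      ring
    linarith
  have h4 : Real.log (Real.log ((X : ℝ) - 1) / Real.log X) ≤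
      Real.log ((X : ℝ) - 1) / Real.log X - 1 :=
    Real.log_le_sub_one_of_pos (div_pos h1 h2)
  rw [Real.log_div h1.ne' h2.ne'] at h4
  have h5 : 1 / ((X : ℝ) * Real.log X) ≤ 1 - Real.log ((X : ℝ) - 1) / Real.log X := by
    rw [one_sub_div h2.ne', ← div_div]
    exact div_le_div_of_nonneg_right h3 h2.le
  unfold wt
  linarith

private theorem sum_wt {a : ℕ} (ha : 3 ≤ a) (n : ℕ) :
    ∑ X ∈ Finset.Ico a (a + n), wt X ≤
      Real.log (Real.log ((a : ℝ) + n - 1)) - Real.log (Real.log ((a : ℝ) - 1)) := by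
  induction n with
  | zero => simp
  | succ n ih =>
    rw [← add_assoc, Finset.sum_Ico_succ_top (by omega)]
    have h1 := term_le (X := a + n) (by omega)
    push_cast at h1 ⊢
    have e : (a : ℝ) + (n + 1) - 1 = a + n := by ring
    rw [e]
    linarith

private theorem sc_mono {δ : ℝ} (hδ : 0 < δ) : Monotone (sc δ) := by
  intro m m' h
  unfold sc
  apply Nat.floor_le_floor
  apply Real.exp_le_exp.2
  apply Real.exp_le_exp.2
  have : (m : ℝ) ≤ m' := by exact_mod_cast h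
  nlinarith

private theorem block {δ : ℝ} (hδ : 0 < δ) {m : ℕ} (hm : 4 ≤ sc δ m) :
    ∑ X ∈ Finset.Ico (sc δ m) (sc δ (m + 1)), wt X ≤ δ + 1 := by
  have hmono := sc_mono hδ (Nat.le_succ m)
  obtain ⟨n, hn⟩ := Nat.exists_eq_add_of_le hmono
  have hn' : sc δ (m + 1) = sc δ m + n := hn
  rw [hn']
  refine (sum_wt (by omega) n).trans ?_
  have hx1 : ((sc δ (m + 1) : ℕ) : ℝ) ≤ Real.exp (Real.exp (δ * (m + 1 : ℕ))) :=
    Nat.floor_le (Real.exp_pos _).le
  have hx2 : Real.exp (Real.exp (δ * m)) < (sc δ m : ℝ) + 1 := Nat.lt_floor_add_one _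
  have hm4 : (4 : ℝ) ≤ sc δ m := by exact_mod_cast hm
  have e1 : (sc δ m : ℝ) + n = (sc δ (m + 1) : ℕ) := by
    rw [hn']
    push_cast
    ring
  rw [e1]
  have hle : (4 : ℝ) ≤ (sc δ (m + 1) : ℕ) := by
    rw [← e1]
    have : (0 : ℝ) ≤ n := Nat.cast_nonneg n
    linarith
  -- upper
  have hup : Real.log (Real.log ((sc δ (m + 1) : ℕ) - 1)) ≤ δ * (m + 1) := by
    have h1 : Real.log ((sc δ (m + 1) : ℕ) - 1) ≤ Real.exp (δ * (m + 1 : ℕ)) := by
      rw [← Real.log_exp (Real.exp (δ * (m + 1 : ℕ)))]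
      exact Real.log_le_log (by linarith) (by linarith)
    have h2 : 0 < Real.log ((sc δ (m + 1) : ℕ) - 1) := Real.log_pos (by linarith)
    have h3 := Real.log_le_log h2 h1
    rw [Real.log_exp] at h3
    push_cast at h3
    exact h3
  have hlow : δ * m - 1 ≤ Real.log (Real.log ((sc δ m : ℝ) - 1)) := by
    set x := Real.exp (Real.exp (δ * m)) with hx
    have hx4 : 4 ≤ x := hm4.trans (Nat.floor_le (Real.exp_pos _).le)
    have h1 : x ≤ ((sc δ m : ℝ) - 1) ^ 2 := by nlinarith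
    have h2 : Real.exp (δ * m) ≤ 2 * Real.log ((sc δ m : ℝ) - 1) := by
      have h3 := Real.log_le_log (by linarith) h1
      rw [hx, Real.log_exp, Real.log_pow] at h3
      push_cast at h3
      exact h3
    have h3 : Real.exp (δ * m - 1) ≤ Real.log ((sc δ m : ℝ) - 1) := by
      rw [Real.exp_sub]
      have he := Real.exp_one_gt_d9
      rw [div_le_iff₀ (Real.exp_pos 1)]
      have hpos : 0 < Real.log ((sc δ m : ℝ) - 1) := Real.log_pos (by linarith)
      nlinarith
    have h4 := Real.log_le_log (Real.exp_pos _) h3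
    rwa [Real.log_exp] at h4
  linarith

private theorem loglog_tendsto : Tendsto (fun Y : ℕ => Real.log (Real.log Y)) atTop atTop :=
  Real.tendsto_log_atTop.comp (Real.tendsto_log_atTop.comp tendsto_natCast_atTop_atTop)

private theorem exists_block {δ : ℝ} (hδ : 0 < δ) {m₀ M X : ℕ} (h0 : sc δ m₀ ≤ X) (hM : X < sc δ (M + 1)) :
    ∃ m, m₀ ≤ m ∧ m ≤ M ∧ sc δ m ≤ X ∧ X < sc δ (m + 1) := by
  classical
  have hex : ∃ m, X < sc δ (m + 1) := ⟨M, hM⟩
  obtain ⟨m, hm, hmin⟩ : ∃ m, X < sc δ (m + 1) ∧ ∀ l < m, ¬ X < sc δ (l + 1) :=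
    ⟨Nat.find hex, Nat.find_spec hex, fun l hl => Nat.find_min hex hl⟩
  have h1 : m ≤ M := by
    by_contra hcon
    exact hmin M (by omega) hM
  have h2 : m₀ ≤ m := by
    by_contra hcon
    have := sc_mono hδ (show m + 1 ≤ m₀ by omega)
    omega
  refine ⟨m, h2, h1, ?_, hm⟩
  rcases Nat.eq_zero_or_pos m with h3 | h3
  · have h4 : m₀ = 0 := by omega
    rw [h3, ← h4]
    exact h0
  · have h4 := hmin (m - 1) (by omega)
    rw [show m - 1 + 1 = m by omega] at h4
    omega

open Classical in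
theorem ll_of_dens {δ : ℝ} (hδ : 0 < δ) {B B' : Set ℕ}
    (h : ∀ᶠ m : ℕ in atTop, ∀ X : ℕ, sc δ m ≤ X → X < sc δ (m + 1) → X ∈ B → m ∈ B')
    (hd : Tendsto (fun M : ℕ => (((Finset.range M).filter (fun m => m ∈ B')).card : ℝ) / M)
      atTop (𝓝 0)) : LLNull B := by
  have hsc : Tendsto (sc δ) atTop atTop := by
    refine tendsto_nat_floor_atTop.comp (Real.tendsto_exp_atTop.comp (Real.tendsto_exp_atTop.comp ?_))
    exact Tendsto.const_mul_atTop hδ tendsto_natCast_atTop_atTop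
  obtain ⟨m₀, hm₀⟩ := eventually_atTop.1 (h.and (hsc.eventually_ge_atTop 4))
  obtain ⟨C₀, hC₀⟩ : ∃ C₀, C₀ = ∑ X ∈ Finset.range (sc δ m₀), wt X := ⟨_, rfl⟩
  have hC₀0 : 0 ≤ C₀ := by
    rw [hC₀]
    exact Finset.sum_nonneg fun X _ => wt_nonneg X
  obtain ⟨Mf, hMf⟩ : ∃ Mf : ℕ → ℕ, Mf = fun Y : ℕ => ⌊Real.log (Real.log ((Y : ℝ) + 1)) / δ⌋₊ := ⟨_, rfl⟩
  obtain ⟨cd, hcd⟩ : ∃ cd : ℕ → ℝ, cd = fun M => (((Finset.range M).filter (fun m => m ∈ B')).card : ℝ) :=
    ⟨_, rfl⟩
  -- main estimate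
  have main : ∀ Y : ℕ, llw B Y ≤ C₀ + (δ + 1) * cd (Mf Y + 1) := by
    intro Y
    have hY : Y < sc δ (Mf Y + 1) := by
      unfold sc
      rw [Nat.lt_iff_add_one_le, Nat.le_floor_iff (Real.exp_pos _).le]
      have h1 : Real.log (Real.log ((Y : ℝ) + 1)) / δ < (Mf Y : ℝ) + 1 := by
        rw [hMf]
        exact Nat.lt_floor_add_one _
      rw [div_lt_iff₀ hδ] at h1
      push_cast
      rcases Nat.eq_zero_or_pos Y with h0 | h0
      · rw [h0]
        push_cast
        rw [zero_add]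
        exact Real.one_le_exp (Real.exp_pos _).le
      · have hY1 : (1 : ℝ) ≤ Y := by exact_mod_cast h0
        have h2 : 0 < Real.log ((Y : ℝ) + 1) := Real.log_pos (by linarith)
        have h3 : Real.log ((Y : ℝ) + 1) ≤ Real.exp (δ * ((Mf Y : ℝ) + 1)) := by
          rw [← Real.log_le_iff_le_exp h2]
          linarith
        rwa [← Real.log_le_iff_le_exp (by linarith)]
    have hpt : ∀ X ∈ (Finset.Icc 2 Y).filter (fun X => X ∈ B), wt X ≤
        (if X < sc δ m₀ then wt X else 0) +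
          ∑ m ∈ (Finset.range (Mf Y + 1)).filter (fun m => m ∈ B'),
            (if m₀ ≤ m ∧ sc δ m ≤ X ∧ X < sc δ (m + 1) then wt X else 0) := by
      intro X hX
      obtain ⟨hX1, hX2⟩ := Finset.mem_filter.1 hX
      have hX3 := (Finset.mem_Icc.1 hX1).2
      have hnn : 0 ≤ ∑ m ∈ (Finset.range (Mf Y + 1)).filter (fun m => m ∈ B'),
            (if m₀ ≤ m ∧ sc δ m ≤ X ∧ X < sc δ (m + 1) then wt X else 0) := by
        refine Finset.sum_nonneg fun m _ => ?_
        split_ifs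
        · exact wt_nonneg X
        · exact le_rfl
      by_cases hc : X < sc δ m₀
      · rw [if_pos hc]
        linarith
      · push Not at hc
        obtain ⟨m, hm1, hm2, hm3, hm4⟩ := exists_block hδ hc (lt_of_le_of_lt hX3 hY)
        have hmB := (hm₀ m hm1).1 X hm3 hm4 hX2
        rw [if_neg (by omega), zero_add]
        have hmem : m ∈ (Finset.range (Mf Y + 1)).filter (fun m => m ∈ B') :=
          Finset.mem_filter.2 ⟨Finset.mem_range.2 (by omega), hmB⟩
        refine le_trans ?_ (Finset.single_le_sum (f := fun m =>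
          if m₀ ≤ m ∧ sc δ m ≤ X ∧ X < sc δ (m + 1) then wt X else 0) (fun m _ => ?_) hmem)
        · rw [if_pos ⟨hm1, hm3, hm4⟩]
        · split_ifs
          · exact wt_nonneg X
          · exact le_rfl
    have h1 : llw B Y = ∑ X ∈ (Finset.Icc 2 Y).filter (fun X => X ∈ B), wt X := rfl
    rw [h1]
    refine (Finset.sum_le_sum hpt).trans ?_
    rw [Finset.sum_add_distrib, Finset.sum_comm]
    refine add_le_add ?_ ?_
    · rw [hC₀, ← Finset.sum_filter]
      refine Finset.sum_le_sum_of_subset_of_nonneg ?_ fun X _ _ => wt_nonneg X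
      intro X hX
      exact Finset.mem_range.2 (Finset.mem_filter.1 hX).2
    · rw [hcd]
      have h2 : ∀ m ∈ (Finset.range (Mf Y + 1)).filter (fun m => m ∈ B'),
          ∑ X ∈ (Finset.Icc 2 Y).filter (fun X => X ∈ B),
            (if m₀ ≤ m ∧ sc δ m ≤ X ∧ X < sc δ (m + 1) then wt X else 0) ≤ δ + 1 := by
        intro m _
        by_cases hm : m₀ ≤ m
        · refine le_trans ?_ (block hδ (hm₀ m hm).2)
          rw [← Finset.sum_filter]
          refine Finset.sum_le_sum_of_subset_of_nonneg ?_ fun X _ _ => wt_nonneg X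
          intro X hX
          obtain ⟨-, -, h3, h4⟩ := Finset.mem_filter.1 hX
          exact Finset.mem_Ico.2 ⟨h3, h4⟩
        · rw [Finset.sum_eq_zero fun X _ => if_neg fun h => hm h.1]
          linarith
      refine (Finset.sum_le_sum h2).trans ?_
      rw [Finset.sum_const, nsmul_eq_mul, mul_comm]
  -- the limit
  have hMt : Tendsto (fun Y => Mf Y + 1) atTop atTop := by
    rw [hMf]
    refine (tendsto_add_atTop_nat 1).comp (tendsto_nat_floor_atTop.comp ?_)
    refine Tendsto.atTop_div_const hδ ?_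
    refine Real.tendsto_log_atTop.comp (Real.tendsto_log_atTop.comp ?_)
    exact tendsto_atTop_add_const_right _ _ tendsto_natCast_atTop_atTop
  have hq : Tendsto (fun Y => cd (Mf Y + 1) / ((Mf Y + 1 : ℕ) : ℝ)) atTop (𝓝 0) := by
    have := hd.comp hMt
    rw [hcd]
    exact this
  have hlim : Tendsto (fun Y : ℕ => C₀ / Real.log (Real.log Y) +
      (δ + 1) * (2 / δ + 1) * (cd (Mf Y + 1) / ((Mf Y + 1 : ℕ) : ℝ))) atTop (𝓝 0) := by
    have h1 := loglog_tendsto.const_div_atTop C₀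
    have h2 := hq.const_mul ((δ + 1) * (2 / δ + 1))
    have h3 := h1.add h2
    simpa using h3
  refine squeeze_zero' ?_ ?_ hlim
  · filter_upwards [loglog_tendsto.eventually_ge_atTop 0] with Y hY
    exact div_nonneg (llw_nonneg _ _) hY
  · filter_upwards [loglog_tendsto.eventually_ge_atTop 1, eventually_ge_atTop 3] with Y hY hY3
    have hY3' : (3 : ℝ) ≤ Y := by exact_mod_cast hY3
    have hL : 0 < Real.log (Real.log Y) := by linarith
    have hcd0 : 0 ≤ cd (Mf Y + 1) := by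
      rw [hcd]
      exact Nat.cast_nonneg _
    have h1 : ((Mf Y + 1 : ℕ) : ℝ) ≤ (2 / δ + 1) * Real.log (Real.log Y) := by
      have h2 : (Mf Y : ℝ) ≤ Real.log (Real.log ((Y : ℝ) + 1)) / δ := by
        rw [hMf]
        refine Nat.floor_le (div_nonneg ?_ hδ.le)
        refine Real.log_nonneg ?_
        rw [Real.le_log_iff_exp_le (by linarith)]
        have := Real.exp_one_lt_d9
        linarith
      have h3 : Real.log (Real.log ((Y : ℝ) + 1)) ≤ Real.log (Real.log Y) + 1 := by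
        have hlY : 0 < Real.log Y := Real.log_pos (by linarith)
        have h4 : Real.log ((Y : ℝ) + 1) ≤ 2 * Real.log Y := by
          have h5 : Real.log ((Y : ℝ) + 1) ≤ Real.log ((Y : ℝ) ^ 2) :=
            Real.log_le_log (by linarith) (by nlinarith)
          rw [Real.log_pow] at h5
          push_cast at h5
          exact h5
        have h6 : Real.log (Real.log ((Y : ℝ) + 1)) ≤ Real.log (2 * Real.log Y) :=
          Real.log_le_log (Real.log_pos (by linarith)) h4
        rw [Real.log_mul (by norm_num) hlY.ne'] at h6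
        have h7 := Real.log_two_lt_d9
        linarith
      have h4 : Real.log (Real.log ((Y : ℝ) + 1)) / δ ≤ 2 * Real.log (Real.log Y) / δ :=
        div_le_div_of_nonneg_right (by linarith) hδ.le
      have h5 : 2 * Real.log (Real.log Y) / δ = 2 / δ * Real.log (Real.log Y) := by ring
      push_cast
      nlinarith
    have hM0 : (0 : ℝ) < ((Mf Y + 1 : ℕ) : ℝ) := by positivity
    have h2 : cd (Mf Y + 1) ≤ (2 / δ + 1) * Real.log (Real.log Y) * (cd (Mf Y + 1) / ((Mf Y + 1 : ℕ) : ℝ)) := by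
      have h3 : cd (Mf Y + 1) = ((Mf Y + 1 : ℕ) : ℝ) * (cd (Mf Y + 1) / ((Mf Y + 1 : ℕ) : ℝ)) := by
        field_simp
      calc cd (Mf Y + 1) = ((Mf Y + 1 : ℕ) : ℝ) * (cd (Mf Y + 1) / ((Mf Y + 1 : ℕ) : ℝ)) := h3
        _ ≤ _ := mul_le_mul_of_nonneg_right h1 (div_nonneg hcd0 hM0.le)
    rw [div_le_iff₀ hL, add_mul, div_mul_cancel₀ _ hL.ne']
    refine (main Y).trans ?_
    have h3 := mul_le_mul_of_nonneg_left h2 (show 0 ≤ δ + 1 by linarith)
    have e : (δ + 1) * ((2 / δ + 1) * Real.log (Real.log Y) * (cd (Mf Y + 1) / ((Mf Y + 1 : ℕ) : ℝ))) =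
      (δ + 1) * (2 / δ + 1) * (cd (Mf Y + 1) / ((Mf Y + 1 : ℕ) : ℝ)) * Real.log (Real.log Y) := by ring
    linarith

end Pool.Agent.Work.MP_58cfe3_nt
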