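import Pool.Agent.Work.MP_58cfe3_nt.Z.Defs

/-!
# Block Z, module Scal (size S-M)

Change of scale: the logarithmic average at `X` is close to the one at `sc δ m` (`log log (sc δ m)` is about
`δ m`) if `sc δ m ≤ X < sc δ (m+1)`. Second statement: `log log (sc δ m) ≥ δ m/2` for large `m`. Third
statement: every large `X` belongs to one of these intervals with large `m`.

PROOF. (1) Let `Y = sc δ m ≤ X`, `H_X = ∑_{n ≤ X} 1/n`. `Elog f X - Elog f Y =
(∑_{Y < n ≤ X} f n/n)/H_X + (∑_{n ≤ Y} f n/n) (1/H_X - 1/H_Y)`, so its norm is `≤ 2 (H_X - H_Y)/H_X` (`Y ≥ 1`). And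
`H_X - H_Y = ∑_{Y < n ≤ X} 1/n ≤ log X - log Y` (`1/n ≤ log n - log (n-1)`), `H_X ≥ log X`, so the norm is
`≤ 2 (1 - log Y/log X)`. Now `X ≤ exp(exp(δ (m+1)))`, `log X ≤ e^δ e^(δ m)`, and
`Y ≥ exp(exp(δ m)) - 1 ≥ exp(exp(δ m))/e`, so `log Y ≥ exp(δ m) - 1`. So the norm is
`≤ 2 (1 - e^(-δ) + e^(-δ) e^(-δ m)) ≤ 2 (δ + e^(-δ m))`. Take `δ = min (c/4) 1` and `m₀` with
`e^(-δ m₀) ≤ c/4`.
(2) `log log (sc δ m) ≥ log (e^(δ m) - 1) ≥ log (e^(δ m/2)) = δ m/2` when `e^(δ m/2) (e^(δ m/2) - 1) ≥ 1`.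
(3) `sc δ` is monotone and tends to infinity; for `X ≥ sc δ M` the number `m = Nat.findGreatest (sc δ · ≤ X) ..`
(or `sSup`, or `Nat.find` of the first `m'` with `X < sc δ m'`, minus one) satisfies `M ≤ m`,
`sc δ m ≤ X < sc δ (m+1)`.
-/

set_option autoImplicit false

namespace Pool.Agent.Work.MP_58cfe3_nt

open Filter Topology

private theorem sc_floor {E : ℝ} (hE : 1 ≤ E) :
    E - 1 ≤ Real.log (⌊Real.exp E⌋₊ : ℝ) := by
  have h1 : Real.exp (E - 1) ≤ (⌊Real.exp E⌋₊ : ℝ) := by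
    have h2 : Real.exp E < (⌊Real.exp E⌋₊ : ℝ) + 1 := Nat.lt_floor_add_one _
    have h3 : Real.exp E = Real.exp (E - 1) * Real.exp 1 := by
      rw [← Real.exp_add]
      congr 1
      ring
    have h4 : 1 + 1 ≤ Real.exp 1 := Real.add_one_le_exp 1
    have h5 : 1 ≤ Real.exp (E - 1) := Real.one_le_exp (by linarith)
    nlinarith
  calc E - 1 = Real.log (Real.exp (E - 1)) := (Real.log_exp _).symm
    _ ≤ _ := Real.log_le_log (Real.exp_pos _) h1

private theorem sc_H (X : ℕ) :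
    (∑ n ∈ Finset.Icc 1 X, (1 / n : ℂ)) = ((∑ n ∈ Finset.Icc 1 X, (1 / n : ℝ) : ℝ) : ℂ) := by
  push_cast
  rfl

private theorem sc_Hdiff {Y X : ℕ} (hY : 1 ≤ Y) (hYX : Y ≤ X) :
    (∑ n ∈ Finset.Icc 1 X, (1 / n : ℝ)) - ∑ n ∈ Finset.Icc 1 Y, (1 / n : ℝ) ≤
      Real.log X - Real.log Y := by
  induction X, hYX using Nat.le_induction with
  | base => simp
  | succ X hX ih =>
    rw [Finset.sum_Icc_succ_top (by omega)]
    have hX1 : 1 ≤ X := hY.trans hX
    have hX0 : (0 : ℝ) < X := by exact_mod_cast hX1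
    have h1 : 1 / ((X + 1 : ℕ) : ℝ) ≤ Real.log ((X + 1 : ℕ) : ℝ) - Real.log X := by
      push_cast
      have h3 : Real.log ((X : ℝ) / (X + 1)) ≤ (X : ℝ) / (X + 1) - 1 :=
        Real.log_le_sub_one_of_pos (by positivity)
      rw [Real.log_div hX0.ne' (by positivity)] at h3
      have h4 : (X : ℝ) / (X + 1) - 1 = -(1 / ((X : ℝ) + 1)) := by
        field_simp
        ring
      rw [h4] at h3
      linarith
    linarith

private theorem sc_Hlog1 (X : ℕ) :
    Real.log ((X : ℝ) + 1) ≤ ∑ n ∈ Finset.Icc 1 X, (1 / n : ℝ) := by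
  induction X with
  | zero => simp
  | succ X ih =>
    rw [Finset.sum_Icc_succ_top (by omega)]
    have h0 : (0 : ℝ) < (X : ℝ) + 1 := by positivity
    have h1 : Real.log (((X : ℝ) + 1 + 1) / ((X : ℝ) + 1)) ≤
        ((X : ℝ) + 1 + 1) / ((X : ℝ) + 1) - 1 :=
      Real.log_le_sub_one_of_pos (by positivity)
    rw [Real.log_div (by positivity) (by positivity)] at h1
    have h2 : ((X : ℝ) + 1 + 1) / ((X : ℝ) + 1) - 1 = 1 / ((X : ℝ) + 1) := by
      field_simp
      ring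
    rw [h2] at h1
    push_cast
    linarith

private theorem sc_Hlog {X : ℕ} (hX : 1 ≤ X) :
    Real.log X ≤ ∑ n ∈ Finset.Icc 1 X, (1 / n : ℝ) := by
  have h0 : (0 : ℝ) < X := by exact_mod_cast hX
  exact (Real.log_le_log h0 (by linarith)).trans (sc_Hlog1 X)

private theorem sc_elog {Y X : ℕ} (hY : 1 ≤ Y) (hYX : Y ≤ X) (hlog : 0 < Real.log X)
    {f : ℤ → ℂ} (hf : ∀ n, ‖f n‖ ≤ 1) :
    ‖Elog f X - Elog f Y‖ ≤ 2 * ((Real.log X - Real.log Y) / Real.log X) := by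
  have hX : 1 ≤ X := hY.trans hYX
  set a : ℕ → ℝ := fun Z => ∑ n ∈ Finset.Icc 1 Z, (1 / n : ℝ) with ha
  set S : ℕ → ℂ := fun Z => ∑ n ∈ Finset.Icc 1 Z, f n / n with hS
  have hE : ∀ Z, Elog f Z = S Z / ((a Z : ℝ) : ℂ) := by
    intro Z
    unfold Elog
    rw [sc_H]
  have ha1 : ∀ Z, 1 ≤ Z → 1 ≤ a Z := by
    intro Z hZ
    have h1 : (1 / ((1 : ℕ) : ℝ)) ≤ ∑ n ∈ Finset.Icc 1 Z, (1 / n : ℝ) :=
      Finset.single_le_sum (f := fun n : ℕ => (1 / n : ℝ)) (fun n _ => by positivity)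
        (Finset.mem_Icc.2 ⟨le_rfl, hZ⟩)
    rw [Nat.cast_one, div_one] at h1
    exact h1
  have haX : 0 < a X := by linarith [ha1 X hX]
  have haY : 0 < a Y := by linarith [ha1 Y hY]
  have hterm : ∀ n : ℕ, ‖f n / (n : ℂ)‖ ≤ 1 / (n : ℝ) := by
    intro n
    rw [norm_div, Complex.norm_natCast]
    exact div_le_div_of_nonneg_right (hf n) (Nat.cast_nonneg _)
  have hSY : ‖S Y‖ ≤ a Y := (norm_sum_le _ _).trans (Finset.sum_le_sum fun n _ => hterm n)
  have hsplit : Finset.Icc 1 X = Finset.Icc 1 Y ∪ Finset.Ioc Y X := by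
    ext n
    simp only [Finset.mem_union, Finset.mem_Icc, Finset.mem_Ioc]
    omega
  have hdisj : Disjoint (Finset.Icc 1 Y) (Finset.Ioc Y X) := by
    rw [Finset.disjoint_left]
    intro n h1 h2
    have h3 := (Finset.mem_Icc.1 h1).2
    have h4 := (Finset.mem_Ioc.1 h2).1
    omega
  have haXY : a X = a Y + ∑ n ∈ Finset.Ioc Y X, (1 / n : ℝ) := by
    rw [ha]
    show ∑ n ∈ Finset.Icc 1 X, (1 / n : ℝ) = _
    rw [hsplit, Finset.sum_union hdisj]
  have hSXY : S X = S Y + ∑ n ∈ Finset.Ioc Y X, f n / n := by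
    rw [hS]
    show ∑ n ∈ Finset.Icc 1 X, f n / n = _
    rw [hsplit, Finset.sum_union hdisj]
  have hdS : ‖S X - S Y‖ ≤ a X - a Y := by
    rw [hSXY, haXY, add_sub_cancel_left, add_sub_cancel_left]
    exact (norm_sum_le _ _).trans (Finset.sum_le_sum fun n _ => hterm n)
  have hmono : 0 ≤ a X - a Y := (norm_nonneg _).trans hdS
  have hX0 : ((a X : ℝ) : ℂ) ≠ 0 := by exact_mod_cast haX.ne'
  have hY0 : ((a Y : ℝ) : ℂ) ≠ 0 := by exact_mod_cast haY.ne'
  have hid : Elog f X - Elog f Y = (S X - S Y) / ((a X : ℝ) : ℂ) -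
      S Y / ((a Y : ℝ) : ℂ) * (((a X - a Y : ℝ) : ℂ) / ((a X : ℝ) : ℂ)) := by
    rw [hE, hE]
    push_cast
    field_simp
    ring
  have h1 : ‖Elog f X - Elog f Y‖ ≤ 2 * ((a X - a Y) / a X) := by
    rw [hid]
    refine (norm_sub_le _ _).trans ?_
    rw [norm_mul, norm_div, norm_div, norm_div, Complex.norm_real, Complex.norm_real,
      Complex.norm_real, Real.norm_of_nonneg haX.le, Real.norm_of_nonneg haY.le,
      Real.norm_of_nonneg hmono]
    have h2 : ‖S X - S Y‖ / a X ≤ (a X - a Y) / a X := div_le_div_of_nonneg_right hdS haX.le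
    have h3 : ‖S Y‖ / a Y ≤ 1 := (div_le_one haY).2 hSY
    have h4 : 0 ≤ (a X - a Y) / a X := div_nonneg hmono haX.le
    have h5 : ‖S Y‖ / a Y * ((a X - a Y) / a X) ≤ 1 * ((a X - a Y) / a X) :=
      mul_le_mul_of_nonneg_right h3 h4
    linarith
  refine h1.trans ?_
  have h2 : a X - a Y ≤ Real.log X - Real.log Y := sc_Hdiff hY hYX
  have h3 : Real.log X ≤ a X := sc_Hlog hX
  have h4 : (a X - a Y) / a X ≤ (Real.log X - Real.log Y) / Real.log X := by
    calc (a X - a Y) / a X ≤ (a X - a Y) / Real.log X :=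
          div_le_div_of_nonneg_left hmono hlog h3
      _ ≤ (Real.log X - Real.log Y) / Real.log X := div_le_div_of_nonneg_right h2 hlog.le
  linarith

theorem elog_scale {c : ℝ} (hc : 0 < c) :
    ∃ δ : ℝ, 0 < δ ∧ ∀ᶠ m : ℕ in atTop, ∀ X : ℕ, sc δ m ≤ X → X < sc δ (m + 1) →
      ∀ f : ℤ → ℂ, (∀ n, ‖f n‖ ≤ 1) → ‖Elog f X - Elog f (sc δ m)‖ ≤ c := by
  set δ : ℝ := min (c / 8) 1 with hδ
  have hδ0 : 0 < δ := lt_min (by positivity) one_pos
  have hδc : δ ≤ c / 8 := min_le_left _ _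
  refine ⟨δ, hδ0, ?_⟩
  have hlim : Tendsto (fun m : ℕ => Real.exp (δ * m)) atTop atTop :=
    Real.tendsto_exp_atTop.comp
      (Tendsto.const_mul_atTop hδ0 tendsto_natCast_atTop_atTop)
  filter_upwards [hlim.eventually_ge_atTop 2, hlim.eventually_ge_atTop (8 / c)] with m h1 h2 X hX1
    hX2 f hf
  set E : ℝ := Real.exp (δ * m) with hE
  have hY : E - 1 ≤ Real.log (sc δ m) := sc_floor (by linarith)
  have hYpos : 0 < Real.log (sc δ m) := by linarith
  have hY1 : 1 ≤ sc δ m := by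
    by_contra h
    have h3 : sc δ m = 0 := by omega
    rw [h3] at hYpos
    simp at hYpos
  have hX1' : 1 ≤ X := hY1.trans hX1
  have hY0 : (0 : ℝ) < sc δ m := by exact_mod_cast hY1
  have hX0 : (0 : ℝ) < X := by exact_mod_cast hX1'
  have hlogYX : Real.log (sc δ m) ≤ Real.log X := by
    apply Real.log_le_log hY0
    exact_mod_cast hX1
  have hlogX : 0 < Real.log X := by linarith
  have hlogX2 : Real.log X ≤ Real.exp δ * E := by
    have h3 : (X : ℝ) ≤ Real.exp (Real.exp (δ * ((m + 1 : ℕ) : ℝ))) := by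
      have h4 : (X : ℝ) ≤ (sc δ (m + 1) : ℝ) := by exact_mod_cast hX2.le
      exact h4.trans (Nat.floor_le (Real.exp_pos _).le)
    have h4 : Real.log X ≤ Real.exp (δ * ((m + 1 : ℕ) : ℝ)) := by
      rw [← Real.log_exp (Real.exp (δ * ((m + 1 : ℕ) : ℝ)))]
      exact Real.log_le_log hX0 h3
    refine h4.trans (le_of_eq ?_)
    rw [hE, ← Real.exp_add]
    congr 1
    push_cast
    ring
  refine (sc_elog hY1 hX1 hlogX hf).trans ?_
  have hE0 : 0 < E := Real.exp_pos _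
  have hD : 0 < Real.exp δ * E := by positivity
  have h3 : (Real.log X - Real.log (sc δ m)) / Real.log X ≤ δ + 1 / E := by
    have h4 : (Real.log X - Real.log (sc δ m)) / Real.log X =
        1 - Real.log (sc δ m) / Real.log X := by
      field_simp
    rw [h4]
    have h5 : (E - 1) / (Real.exp δ * E) ≤ Real.log (sc δ m) / Real.log X := by
      calc (E - 1) / (Real.exp δ * E) ≤ Real.log (sc δ m) / (Real.exp δ * E) :=
            div_le_div_of_nonneg_right hY hD.le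
        _ ≤ Real.log (sc δ m) / Real.log X :=
            div_le_div_of_nonneg_left hYpos.le hlogX hlogX2
    have h6 : (E - 1) / (Real.exp δ * E) = Real.exp (-δ) - Real.exp (-δ) * (1 / E) := by
      rw [Real.exp_neg]
      field_simp
    have h7 : 1 - δ ≤ Real.exp (-δ) := by
      have := Real.add_one_le_exp (-δ)
      linarith
    have h8 : Real.exp (-δ) ≤ 1 := Real.exp_le_one_iff.2 (by linarith)
    have h9 : Real.exp (-δ) * (1 / E) ≤ 1 * (1 / E) :=
      mul_le_mul_of_nonneg_right h8 (by positivity)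
    linarith
  have h4 : 1 / E ≤ c / 8 := by
    rw [div_le_iff₀ hE0]
    rw [div_le_iff₀ hc] at h2
    linarith
  linarith

theorem sc_loglog {δ : ℝ} (hδ : 0 < δ) :
    ∀ᶠ m : ℕ in atTop, δ / 2 * m ≤ Real.log (Real.log (sc δ m)) := by
  have hlim : Tendsto (fun m : ℕ => Real.exp (δ / 2 * m)) atTop atTop :=
    Real.tendsto_exp_atTop.comp
      (Tendsto.const_mul_atTop (by positivity) tendsto_natCast_atTop_atTop)
  filter_upwards [hlim.eventually_ge_atTop 2] with m h1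
  set x : ℝ := Real.exp (δ / 2 * m) with hx
  have hE : Real.exp (δ * m) = x ^ 2 := by
    rw [hx, ← Real.exp_nat_mul]
    congr 1
    push_cast
    ring
  have h2 : Real.exp (δ * m) - 1 ≤ Real.log (sc δ m) := sc_floor (by rw [hE]; nlinarith)
  have h3 : x ≤ Real.log (sc δ m) := by
    rw [hE] at h2
    nlinarith
  calc δ / 2 * m = Real.log x := by rw [hx, Real.log_exp]
    _ ≤ Real.log (Real.log (sc δ m)) := Real.log_le_log (by linarith) h3

theorem sc_tendsto {δ : ℝ} (hδ : 0 < δ) : Tendsto (sc δ) atTop atTop := by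
  have h1 : Tendsto (fun m : ℕ => Real.exp (Real.exp (δ * m))) atTop atTop :=
    Real.tendsto_exp_atTop.comp (Real.tendsto_exp_atTop.comp
      (Tendsto.const_mul_atTop hδ tendsto_natCast_atTop_atTop))
  exact tendsto_nat_floor_atTop.comp h1

theorem sc_exists {δ : ℝ} (hδ : 0 < δ) (M : ℕ) :
    ∀ᶠ X : ℕ in atTop, ∃ m : ℕ, M ≤ m ∧ sc δ m ≤ X ∧ X < sc δ (m + 1) := by
  filter_upwards [eventually_ge_atTop (sc δ M)] with X hX
  have hex : ∃ n : ℕ, X < sc δ (M + n) := by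
    obtain ⟨N, hN⟩ := ((sc_tendsto hδ).eventually_gt_atTop X).exists_forall_of_atTop
    exact ⟨N, hN (M + N) (by omega)⟩
  classical
  have h1 := Nat.find_spec hex
  have h2 : Nat.find hex ≠ 0 := by
    intro h0
    rw [h0, Nat.add_zero] at h1
    omega
  obtain ⟨k, hk⟩ := Nat.exists_eq_succ_of_ne_zero h2
  have h3 : ¬ X < sc δ (M + k) := Nat.find_min hex (by omega)
  refine ⟨M + k, by omega, by omega, ?_⟩
  rw [hk] at h1
  exact h1

end Pool.Agent.Work.MP_58cfe3_nt
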