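import Pool.Agent.Work.MP_58cfe3_nt.Z.Defs

/-!
# Block Z, module FFei (size S)

The product `FF` (see `SDefs`) with the local values `uu F β` is `exp(i β·DT)`.

PROOF. `FF (vert e) T (uu F β) n = ∏_{p ∈ T} ∏_A (if p ∣ n + vert e A then ei (sg A * dot β (F p)) else 1)`;
every factor is `ei (if p ∣ n + vert e A then sg A * dot β (F p) else 0)` (`ei 0 = 1`); a product of
`ei`'s is the `ei` of the sum (`Complex.exp_sum`, casts), and
`∑_{p ∈ T} ∑_A (if .. then sg A * dot β (F p) else 0) = dot β (DT F e T n)` by exchanging the sums over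
`l` and over `p, A` (`Finset.sum_comm`, `Finset.mul_sum`, `mul_ite`).
-/

set_option autoImplicit false

namespace Pool.Agent.Work.MP_58cfe3_nt

open Filter Topology

private theorem f_ei_add (x y : ℝ) : ei (x + y) = ei x * ei y := by
  unfold ei; rw [← Complex.exp_add]; congr 1; push_cast; ring

private theorem f_ei_zero : ei 0 = 1 := by unfold ei; simp

private theorem f_ei_sum {ι : Type} (s : Finset ι) (y : ι → ℝ) :
    ∏ i ∈ s, ei (y i) = ei (∑ i ∈ s, y i) := by
  classical
  induction s using Finset.induction_on with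
  | empty => simp [f_ei_zero]
  | insert a s ha ih => rw [Finset.prod_insert ha, Finset.sum_insert ha, ih, f_ei_add]

theorem ff_ei {d : ℕ} (F : ℕ → Fin d → ℝ) {r : ℕ} (e : Fin r → ℤ) (β : Fin d → ℝ)
    (T : Finset ℕ) (n : ℤ) :
    FF (vert e) T (uu F β) n = ei (dot β (DT F e T n)) := by
  classical
  have h1 : ∀ p : ℕ, ∀ A : Finset (Fin r), (if (p : ℤ) ∣ n + vert e A then uu F β p A else 1) =
      ei (if (p : ℤ) ∣ n + vert e A then sg A * dot β (F p) else 0) := by
    intro p A
    split_ifs
    · rfl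
    · rw [f_ei_zero]
  have h2 : ∀ p : ℕ, ∀ A : Finset (Fin r),
      (if (p : ℤ) ∣ n + vert e A then sg A * dot β (F p) else 0) =
        ∑ l, β l * (if (p : ℤ) ∣ n + vert e A then sg A * F p l else 0) := by
    intro p A
    unfold dot
    split_ifs
    · rw [Finset.mul_sum]
      exact Finset.sum_congr rfl fun l _ => by ring
    · simp
  have h3 : dot β (DT F e T n) = ∑ p ∈ T, ∑ A : Finset (Fin r),
      (if (p : ℤ) ∣ n + vert e A then sg A * dot β (F p) else 0) := by
    calc dot β (DT F e T n) = ∑ l, ∑ p ∈ T, ∑ A : Finset (Fin r),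
          β l * (if (p : ℤ) ∣ n + vert e A then sg A * F p l else 0) := by
          unfold dot DT
          simp only [Finset.mul_sum]
      _ = ∑ p ∈ T, ∑ l, ∑ A : Finset (Fin r),
          β l * (if (p : ℤ) ∣ n + vert e A then sg A * F p l else 0) := Finset.sum_comm
      _ = ∑ p ∈ T, ∑ A : Finset (Fin r), ∑ l,
          β l * (if (p : ℤ) ∣ n + vert e A then sg A * F p l else 0) :=
          Finset.sum_congr rfl fun p _ => Finset.sum_comm
      _ = _ := Finset.sum_congr rfl fun p _ => Finset.sum_congr rfl fun A _ => (h2 p A).symm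
  rw [h3, ← f_ei_sum]
  unfold FF
  refine Finset.prod_congr rfl fun p _ => ?_
  rw [← f_ei_sum]
  exact Finset.prod_congr rfl fun A _ => h1 p A

end Pool.Agent.Work.MP_58cfe3_nt
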