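import Pool.Agent.Work.MP_58cfe3_nt.Z.OrdLog
import Pool.Agent.Work.MP_58cfe3_nt.SExc

/-!
# Block Z, module GoodLog (size S-M)

Two bounded functions which are close at the `Good` integers (see `SDefs`) have nearly the same
logarithmic averages.

PROOF. Put `η' = min η 1 / 10`. Let `w₀` be given by `exc_count v (η := η')`, and for `w ≥ w₀` let
`A`, `x₀` be its other outputs. Let `f₀ n = 1` if `¬ Good v w A n` and `0` otherwise (classical `if`). For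
`x ≥ x₀` the sum `∑_{n ≤ x} f₀ n` is `ecount v w A x ≤ η' x`. For `X` large (`X^η' ≥ x₀` and `elog_ord` with
`η'`, `M = 0`) we get `‖Elog f₀ X‖ ≤ 5 η'`. Now let `f, f'` be as in the statement. For `1 ≤ n ≤ X`
`‖f n - f' n‖ ≤ ε₁ + 2 f₀ n` (good: `≤ ε₁`; not good: `≤ 2`), so dividing by `n`, summing and dividing by
`H = ∑ 1/n > 0`: `‖Elog f X - Elog f' X‖ ≤ ε₁ + 2 ‖Elog f₀ X‖ ≤ ε₁ + 10 η' ≤ ε₁ + η`. (`Elog f₀ X` is the
quotient of the real number `∑ f₀ n/n ≥ 0` by `H`, so its norm is this quotient.)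
-/

set_option autoImplicit false

namespace Pool.Agent.Work.MP_58cfe3_nt

open Filter Topology

private theorem gl_H (X : ℕ) :
    (∑ n ∈ Finset.Icc 1 X, (1 / n : ℂ)) = ((∑ n ∈ Finset.Icc 1 X, (1 / n : ℝ) : ℝ) : ℂ) := by
  push_cast
  rfl

private theorem gl_Hpos {X : ℕ} (hX : 1 ≤ X) : 0 < ∑ n ∈ Finset.Icc 1 X, (1 / n : ℝ) := by
  refine Finset.sum_pos (fun n hn => ?_) ⟨1, Finset.mem_Icc.2 ⟨le_rfl, hX⟩⟩
  have h1 := (Finset.mem_Icc.1 hn).1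
  have h2 : (0 : ℝ) < n := by exact_mod_cast h1
  positivity

theorem good_log {ι : Type} [Fintype ι] (v : ι → ℤ) {η : ℝ} (hη : 0 < η) :
    ∃ w₀ : ℕ, ∀ w : ℕ, w₀ ≤ w → ∃ A : ℕ, ∀ᶠ X : ℕ in atTop, ∀ f f' : ℤ → ℂ,
      (∀ n, ‖f n‖ ≤ 1) → (∀ n, ‖f' n‖ ≤ 1) → ∀ ε₁ : ℝ, 0 ≤ ε₁ →
      (∀ n : ℕ, n ∈ Finset.Icc 1 X → Good v w A n → ‖f n - f' n‖ ≤ ε₁) →
        ‖Elog f X - Elog f' X‖ ≤ ε₁ + η := by
  classical
  set η' : ℝ := min η 1 / 10 with hη'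
  have hη'0 : 0 < η' := by
    rw [hη']
    have : 0 < min η 1 := lt_min hη one_pos
    positivity
  have hη'1 : 10 * η' ≤ η := by
    rw [hη']
    have : min η 1 ≤ η := min_le_left _ _
    linarith
  obtain ⟨w₀, hw₀⟩ := exc_count v hη'0
  refine ⟨w₀, fun w hw => ?_⟩
  obtain ⟨A, -, x₀, hx₀⟩ := hw₀ w hw
  refine ⟨A, ?_⟩
  let g₀ : ℤ → ℝ := fun n => if Good v w A n then 0 else 1
  let f₀ : ℤ → ℂ := fun n => (g₀ n : ℂ)
  have hg₀ : ∀ n, 0 ≤ g₀ n := by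
    intro n
    show 0 ≤ if Good v w A n then (0 : ℝ) else 1
    split_ifs <;> norm_num
  have hg₁ : ∀ n, g₀ n ≤ 1 := by
    intro n
    show (if Good v w A n then (0 : ℝ) else 1) ≤ 1
    split_ifs <;> norm_num
  have hf₀ : ∀ n, ‖f₀ n‖ ≤ 1 := by
    intro n
    show ‖(g₀ n : ℂ)‖ ≤ 1
    rw [Complex.norm_real, Real.norm_of_nonneg (hg₀ n)]
    exact hg₁ n
  have hcnt : ∀ x : ℕ, ∑ n ∈ Finset.Icc 1 x, g₀ (n : ℕ) = (ecount v w A x : ℝ) := by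
    intro x
    unfold ecount
    rw [Finset.card_filter]
    push_cast
    refine Finset.sum_congr rfl fun n _ => ?_
    show (if Good v w A (n : ℤ) then (0 : ℝ) else 1) = if ¬ Good v w A (n : ℤ) then 1 else 0
    by_cases h : Good v w A (n : ℤ)
    · rw [if_pos h, if_neg (not_not.2 h)]
    · rw [if_neg h, if_pos h]
  have hpow : ∀ᶠ X : ℕ in atTop, (x₀ : ℝ) ≤ (X : ℝ) ^ η' :=
    ((tendsto_rpow_atTop hη'0).comp tendsto_natCast_atTop_atTop).eventually_ge_atTop _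
  filter_upwards [elog_ord hη'0, hpow, eventually_ge_atTop 1] with X h1 h2 h3 f f' hf hf' ε₁ hε₁
    hgood
  have h4 : ‖Elog f₀ X - 0‖ ≤ 5 * η' := by
    refine h1 f₀ 0 hf₀ (by norm_num) fun x hx _ => ?_
    have h5 : x₀ ≤ x := by exact_mod_cast h2.trans hx
    have h6 : ∑ n ∈ Finset.Icc 1 x, f₀ (n : ℕ) = ((ecount v w A x : ℝ) : ℂ) := by
      rw [← hcnt x]
      push_cast
      rfl
    rw [h6, mul_zero, sub_zero, Complex.norm_real, Real.norm_of_nonneg (by positivity)]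
    exact hx₀ x h5
  rw [sub_zero] at h4
  set H : ℝ := ∑ n ∈ Finset.Icc 1 X, (1 / n : ℝ) with hH
  have hH0 : 0 < H := gl_Hpos h3
  have hE0 : Elog f₀ X = ((∑ n ∈ Finset.Icc 1 X, g₀ (n : ℕ) / n) / H : ℝ) := by
    unfold Elog
    rw [gl_H, ← hH]
    push_cast
    rfl
  have hE1 : ‖Elog f₀ X‖ = (∑ n ∈ Finset.Icc 1 X, g₀ (n : ℕ) / n) / H := by
    rw [hE0, Complex.norm_real, Real.norm_of_nonneg]
    refine div_nonneg (Finset.sum_nonneg fun n _ => ?_) hH0.le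
    exact div_nonneg (hg₀ _) (Nat.cast_nonneg _)
  have hdiff : Elog f X - Elog f' X =
      (∑ n ∈ Finset.Icc 1 X, (f (n : ℕ) - f' (n : ℕ)) / n) / ((H : ℝ) : ℂ) := by
    unfold Elog
    rw [gl_H, ← sub_div, ← Finset.sum_sub_distrib]
    congr 1
    refine Finset.sum_congr rfl fun n _ => ?_
    rw [sub_div]
  have hb : ∀ n ∈ Finset.Icc 1 X, ‖(f (n : ℕ) - f' (n : ℕ)) / (n : ℂ)‖ ≤
      ε₁ * (1 / (n : ℝ)) + 2 * (g₀ (n : ℕ) / (n : ℝ)) := by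
    intro n hn
    have hn1 := (Finset.mem_Icc.1 hn).1
    have hn0 : (0 : ℝ) < n := by exact_mod_cast hn1
    rw [norm_div, Complex.norm_natCast]
    have h5 : ‖f (n : ℕ) - f' (n : ℕ)‖ ≤ ε₁ + 2 * g₀ (n : ℕ) := by
      by_cases h : Good v w A (n : ℤ)
      · have h6 := hgood n hn h
        have h7 := hg₀ (n : ℕ)
        linarith
      · have h6 : g₀ (n : ℕ) = 1 := if_neg h
        rw [h6]
        have h7 := norm_sub_le (f (n : ℕ)) (f' (n : ℕ))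
        have h8 := hf (n : ℕ)
        have h9 := hf' (n : ℕ)
        linarith
    have h6 : ε₁ * (1 / (n : ℝ)) + 2 * (g₀ (n : ℕ) / (n : ℝ)) = (ε₁ + 2 * g₀ (n : ℕ)) / n := by
      ring
    rw [h6]
    exact div_le_div_of_nonneg_right h5 hn0.le
  have hsum : ‖∑ n ∈ Finset.Icc 1 X, (f (n : ℕ) - f' (n : ℕ)) / (n : ℂ)‖ ≤
      ε₁ * H + 2 * ∑ n ∈ Finset.Icc 1 X, g₀ (n : ℕ) / n := by
    refine (norm_sum_le _ _).trans ((Finset.sum_le_sum hb).trans (le_of_eq ?_))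
    rw [Finset.sum_add_distrib, ← Finset.mul_sum, ← Finset.mul_sum]
  rw [hdiff, norm_div, Complex.norm_real, Real.norm_of_nonneg hH0.le, div_le_iff₀ hH0]
  rw [hE1, div_le_iff₀ hH0] at h4
  refine hsum.trans ?_
  have h5 : 10 * η' * H ≤ η * H := mul_le_mul_of_nonneg_right hη'1 hH0.le
  nlinarith

end Pool.Agent.Work.MP_58cfe3_nt
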