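import Pool.Agent.Work.MP_58cfe3_nt.Z.OrdLog
import Pool.Agent.Work.MP_58cfe3_nt.SKub

/-!
# Block Z, module KubLog (size S-M)

The Kubilius model for logarithmic averages.

PROOF. Put `η' = min η 1 / 5`. Let `θ₁, w₁` be given by `kub hv (η := η')` and `x₀` by its `∃ x₀` with
`M = 1` (so `cls x 1 r = Finset.Icc 1 x`, `Nat.Coprime p 1`, `(x : ℂ)/1 = x`; take `r = 0`). Take
`θ = η' θ₁` (`0 < θ ≤ 1`) and `w₀ = max w₁ (Fintype.card ι)`. Let `X` be so large that `X^η' ≥ x₀` and that `elog_ord`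
(with `η'`) applies. For `x` with `X^η' ≤ x ≤ X` and `p ∈ T` we have
`p ≤ X^θ = (X^η')^θ₁ ≤ x^θ₁` (`Real.rpow_mul`, `Real.rpow_le_rpow`), so `kub` gives
`‖∑_{n ≤ x} FF v T u n - x ∏‖ ≤ η' x`. Apply `elog_ord` with `f = FF v T u` (norm `≤ 1`: a product of
numbers of norm `≤ 1`, `norm_prod_le_one` of `Basic`) and `M = ∏_{p ∈ T} (1 - (∑ (1 - u p i))/p)`, which
has norm `≤ 1` since for `p ≥ k := Fintype.card ι`, `p > 0`, the factor is `(1 - k/p) + (∑_i u p i)/p` with norm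
`≤ (1 - k/p) + k/p = 1`. The result is `≤ 5 η' ≤ η`.
-/

set_option autoImplicit false

namespace Pool.Agent.Work.MP_58cfe3_nt

open Filter Topology

theorem kub_log {ι : Type} [Fintype ι] {v : ι → ℤ} (hv : Function.Injective v) {η : ℝ}
    (hη : 0 < η) :
    ∃ θ : ℝ, 0 < θ ∧ θ ≤ 1 ∧ ∃ w₀ : ℕ, ∀ᶠ X : ℕ in atTop, ∀ T : Finset ℕ,
      (∀ p ∈ T, p.Prime ∧ w₀ < p ∧ (p : ℝ) ≤ (X : ℝ) ^ θ) →
      ∀ u : ℕ → ι → ℂ, (∀ p i, ‖u p i‖ ≤ 1) →
        ‖Elog (FF v T u) X - ∏ p ∈ T, (1 - (∑ i, (1 - u p i)) / (p : ℂ))‖ ≤ η := by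
  set η' : ℝ := min η 1 / 5 with hη'
  have hη'0 : 0 < η' := by
    have : 0 < min η 1 := lt_min hη one_pos
    positivity
  have hη'1 : η' ≤ 1 := by
    have := min_le_right η 1
    rw [hη']
    linarith
  have hη'2 : 5 * η' ≤ η := by
    have := min_le_left η 1
    rw [hη']
    linarith
  obtain ⟨θ₁, hθ0, hθ1, w₁, hkub⟩ := kub hv hη'0
  obtain ⟨x₀, hx₀⟩ := hkub 1 one_pos
  refine ⟨η' * θ₁, by positivity, ?_, max w₁ (Fintype.card ι), ?_⟩
  · calc η' * θ₁ ≤ 1 * 1 := mul_le_mul hη'1 hθ1 hθ0.le zero_le_one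
      _ = 1 := one_mul 1
  have hpow : Tendsto (fun x : ℕ => (x : ℝ) ^ η') atTop atTop :=
    (tendsto_rpow_atTop hη'0).comp tendsto_natCast_atTop_atTop
  filter_upwards [elog_ord hη'0, hpow.eventually_ge_atTop (x₀ : ℝ), eventually_ge_atTop 1] with X h1
    h2 hX1
  intro T hT u hu
  have hX0 : (0 : ℝ) ≤ X := Nat.cast_nonneg X
  refine (h1 (FF v T u) (∏ p ∈ T, (1 - (∑ i, (1 - u p i)) / (p : ℂ))) ?_ ?_ ?_).trans hη'2
  · intro n
    unfold FF
    rw [norm_prod]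
    refine Finset.prod_le_one (fun p _ => norm_nonneg _) (fun p _ => ?_)
    rw [norm_prod]
    refine Finset.prod_le_one (fun i _ => norm_nonneg _) (fun i _ => ?_)
    split_ifs
    · exact hu p i
    · simp
  · rw [norm_prod]
    refine Finset.prod_le_one (fun p _ => norm_nonneg _) (fun p hp => ?_)
    obtain ⟨hpp, hw, -⟩ := hT p hp
    have hp0 : (0 : ℝ) < p := by exact_mod_cast hpp.pos
    have hpc : (p : ℂ) ≠ 0 := by exact_mod_cast hpp.ne_zero
    have hκ : (Fintype.card ι : ℝ) ≤ p := by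
      have : Fintype.card ι ≤ p := (le_max_right w₁ (Fintype.card ι)).trans hw.le
      exact_mod_cast this
    have e1 : (1 : ℂ) - (∑ i, (1 - u p i)) / (p : ℂ) =
        (((1 - (Fintype.card ι : ℝ) / p : ℝ)) : ℂ) + (∑ i, u p i) / (p : ℂ) := by
      rw [Finset.sum_sub_distrib, Finset.sum_const, Finset.card_univ, nsmul_eq_mul, mul_one]
      push_cast
      ring
    rw [e1]
    refine (norm_add_le _ _).trans ?_
    have h3 : ‖(((1 - (Fintype.card ι : ℝ) / p : ℝ)) : ℂ)‖ = 1 - (Fintype.card ι : ℝ) / p := by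
      rw [Complex.norm_real, Real.norm_eq_abs, abs_of_nonneg]
      rw [sub_nonneg, div_le_one hp0]
      exact hκ
    have h4 : ‖(∑ i, u p i) / (p : ℂ)‖ ≤ (Fintype.card ι : ℝ) / p := by
      rw [norm_div, Complex.norm_natCast]
      refine div_le_div_of_nonneg_right ?_ hp0.le
      refine (norm_sum_le _ _).trans ?_
      refine (Finset.sum_le_card_nsmul _ _ 1 fun i _ => hu p i).trans (le_of_eq ?_)
      simp
    linarith
  · intro x hx hxX
    have hx0 : x₀ ≤ x := by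
      have : (x₀ : ℝ) ≤ x := h2.trans hx
      exact_mod_cast this
    have hT' : ∀ p ∈ T, p.Prime ∧ w₁ < p ∧ (p : ℝ) ≤ (x : ℝ) ^ θ₁ ∧ Nat.Coprime p 1 := by
      intro p hp
      obtain ⟨hpp, hw, hle⟩ := hT p hp
      refine ⟨hpp, (le_max_left _ _).trans_lt hw, ?_, Nat.coprime_one_right p⟩
      refine hle.trans ?_
      rw [Real.rpow_mul hX0]
      exact Real.rpow_le_rpow (by positivity) hx hθ0.le
    have h5 := hx₀ x hx0 T hT' u hu 0
    have e2 : cls x 1 0 = Finset.Icc 1 x := by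
      unfold cls
      rw [Finset.filter_true_of_mem]
      intro n _
      simp
    rw [e2] at h5
    simp only [Nat.cast_one, div_one] at h5
    exact h5

end Pool.Agent.Work.MP_58cfe3_nt
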