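import Pool.Agent.Work.MP_58cfe3_nt.Z.Defs

/-!
# Block Z, module Model (size S-M)

The Euler product of the model is at most `exp(-∑_{p ∈ T} (1 - cos β·F(p))/p)`.

PROOF. Put `x = dot β (F p)`. For `r ≥ 1` exactly half of the `2^r` subsets `A` of `Fin r` are even
(`2^(r-1)` of them: e.g. `Finset.sum_powerset_neg_one_pow_card`-type lemmas, or the involution
`A ↦ symmDiff A {0}`), so
`∑_A (1 - ei (sg A * x)) = 2^(r-1) ((1 - e^{ix}) + (1 - e^{-ix})) = 2^r (1 - cos x)`, a real number.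
Hence the factor is the real number `1 - 2^r (1 - cos x)/p`, which lies in `[0, 1]` because
`0 ≤ 1 - cos x ≤ 2` and `p ≥ 2^(r+1)`; it is at most `exp(-2^r (1 - cos x)/p) ≤ exp(-(1 - cos x)/p)`
(`Real.add_one_le_exp`, `2^r ≥ 1`). Multiply over `p ∈ T` (`Finset.prod_le_prod`, `Real.exp_sum`,
`norm_prod`).
-/

set_option autoImplicit false

namespace Pool.Agent.Work.MP_58cfe3_nt

open Filter Topology

private theorem m_ei (x : ℝ) : ei x = Real.cos x + Real.sin x * Complex.I := by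
  unfold ei; rw [Complex.exp_mul_I]; push_cast; rfl

private theorem m_sgn {r : ℕ} (hr : 1 ≤ r) : ∑ A : Finset (Fin r), sg A = 0 := by
  classical
  have h1 : ∀ A : Finset (Fin r), sg A = (((-1 : ℤ) ^ A.card : ℤ) : ℝ) := by
    intro A
    unfold sg
    split_ifs with h
    · rw [h.neg_one_pow]; simp
    · rw [(Nat.not_even_iff_odd.1 h).neg_one_pow]; simp
  rw [Finset.sum_congr rfl fun A _ => h1 A, ← Int.cast_sum]
  have h2 := Finset.sum_powerset_neg_one_pow_card (x := (Finset.univ : Finset (Fin r)))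
  rw [Finset.powerset_univ] at h2
  rw [h2, if_neg]
  · simp
  · intro h0
    have h3 := congrArg Finset.card h0
    simp at h3
    omega

private theorem m_sum {r : ℕ} (hr : 1 ≤ r) (x : ℝ) :
    ∑ A : Finset (Fin r), (1 - ei (sg A * x)) = ((2 ^ r * (1 - Real.cos x) : ℝ) : ℂ) := by
  have h1 : ∀ A : Finset (Fin r), (1 - ei (sg A * x)) =
      ((1 - Real.cos x : ℝ) : ℂ) - (sg A : ℂ) * (Real.sin x * Complex.I) := by
    intro A
    rw [m_ei]
    unfold sg
    split_ifs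
    · push_cast; ring_nf
    · push_cast
      rw [show (-1 : ℂ) * (x : ℂ) = -x by ring, Complex.cos_neg, Complex.sin_neg]
      ring
  have h2 : ∑ A : Finset (Fin r), ((sg A : ℝ) : ℂ) = 0 := by
    rw [← Complex.ofReal_sum, m_sgn hr, Complex.ofReal_zero]
  rw [Finset.sum_congr rfl fun A _ => h1 A, Finset.sum_sub_distrib, ← Finset.sum_mul, h2,
    Finset.sum_const, Finset.card_univ, Fintype.card_finset, Fintype.card_fin, nsmul_eq_mul]
  push_cast
  ring

theorem model_le {d : ℕ} (F : ℕ → Fin d → ℝ) {r : ℕ} (hr : 1 ≤ r) (β : Fin d → ℝ)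
    {T : Finset ℕ} (hT : ∀ p ∈ T, 2 ^ (r + 1) ≤ p) :
    ‖∏ p ∈ T, (1 - (∑ A : Finset (Fin r), (1 - uu F β p A)) / (p : ℂ))‖ ≤
      Real.exp (-∑ p ∈ T, (1 - Real.cos (dot β (F p))) / p) := by
  rw [norm_prod, ← Finset.sum_neg_distrib, Real.exp_sum]
  refine Finset.prod_le_prod (fun _ _ => norm_nonneg _) fun p hp => ?_
  have hp1 : (2 : ℝ) ^ (r + 1) ≤ p := by exact_mod_cast hT p hp
  have h2r : (1 : ℝ) ≤ 2 ^ r := one_le_pow₀ (by norm_num)
  have hp0 : (0 : ℝ) < p := lt_of_lt_of_le (by positivity) hp1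
  unfold uu
  rw [m_sum hr]
  set y := Real.cos (dot β (F p)) with hy
  have hy1 : y ≤ 1 := Real.cos_le_one _
  have hy2 : -1 ≤ y := Real.neg_one_le_cos _
  have e1 : (1 : ℂ) - ((2 ^ r * (1 - y) : ℝ) : ℂ) / (p : ℂ) =
      ((1 - 2 ^ r * (1 - y) / p : ℝ) : ℂ) := by push_cast; ring
  rw [e1, Complex.norm_real, Real.norm_eq_abs]
  have h3 : 2 ^ r * (1 - y) / (p : ℝ) ≤ 1 := by
    rw [div_le_one hp0]
    have : (2 : ℝ) ^ r * (1 - y) ≤ 2 ^ r * 2 := mul_le_mul_of_nonneg_left (by linarith) (by positivity)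
    rw [pow_succ] at hp1
    linarith
  rw [abs_of_nonneg (by linarith)]
  have h4 : (1 - y) / (p : ℝ) ≤ 2 ^ r * (1 - y) / p := by
    rw [div_le_div_iff_of_pos_right hp0]
    nlinarith
  have h5 := Real.add_one_le_exp (-((1 - y) / (p : ℝ)))
  linarith

end Pool.Agent.Work.MP_58cfe3_nt
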