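import Pool.Agent.Work.MP_58cfe3_nt.Z.Defs

/-!
# Block Z, module Pack (size M)

Packing: for a finite set `P` of `ρ`-separated points of `ℝ^d` (sup norm), the sum of
`exp(-c (|t - t'|/ρ)^σ)` over `t' ∈ P` is bounded by a constant which depends on `d, c, σ` only.

PROOF. (1) There is `C₁ ≥ 1` with `exp(-c x^σ) ≤ C₁ (1 + x)^(-2d)` for all `x ≥ 0` (the function
`(1+x)^(2d) exp(-c x^σ)` is continuous on `[0, ∞)` and tends to `0`; or elementary: `exp(y) ≥ y^k/k!` with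
`k σ ≥ 2 d`).
(2) Fix `t ∈ P`. To `t' ∈ P` attach `k(t') ∈ ℤ^d`, `k_l = ⌊2 (t'_l - t_l)/ρ⌋`. The map is injective on `P`:
if `k(t') = k(t'')` then `|t'_l - t''_l| < ρ/2` for all `l`, so `dist t' t'' ≤ ρ/2 < ρ`, hence `t' = t''`.
(3) With `x = dist t t'/ρ` we have `|k_l| ≤ 2 x + 1`, so `1 + |k_l| ≤ 2 (1 + x)` for all `l`, and
`(1 + x)^(-2d) ≤ ∏_l (2/(1 + |k_l|))^2 = 4^d ∏_l (1 + |k_l|)^(-2)`.
(4) So the sum is at most `C₁ 4^d ∑_{k ∈ k(P)} ∏_l (1 + |k_l|)^(-2)`. The finite set `k(P)` lies in a box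
`∏_l [-N, N]` (`Fintype.piFinset fun _ => Finset.Icc (-N) N`), and the sum over the box is
`(∑_{j=-N}^{N} (1 + |j|)^(-2))^d ≤ 4^d` (`Finset.prod_univ_sum`; `∑_{j ≥ 0} (1+j)^(-2) ≤ 2`). The case `d = 0` is fine:
`P` has at most one point (or treat it in the same way, the empty product is `1`).
-/

set_option autoImplicit false

namespace Pool.Agent.Work.MP_58cfe3_nt

open Filter Topology

private theorem exp_bound (d : ℕ) {c σ : ℝ} (hc : 0 < c) (hσ : 0 < σ) :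
    ∃ C₁ : ℝ, 0 ≤ C₁ ∧ ∀ x : ℝ, 0 ≤ x → Real.exp (-(c * x ^ σ)) * (1 + x) ^ (2 * d) ≤ C₁ := by
  obtain ⟨k, hk⟩ : ∃ k : ℕ, ((2 * d : ℕ) : ℝ) / σ ≤ k := exists_nat_ge _
  have hk' : ((2 * d : ℕ) : ℝ) ≤ σ * k := by
    rw [div_le_iff₀ hσ] at hk
    linarith
  refine ⟨2 ^ (2 * d) * (1 + (k.factorial : ℝ) / c ^ k), by positivity, fun x hx => ?_⟩
  have hy : 0 ≤ c * x ^ σ := by positivity
  rcases le_or_gt x 1 with h1 | h1
  · have h2 : Real.exp (-(c * x ^ σ)) ≤ 1 := Real.exp_le_one_iff.2 (by linarith)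
    have h3 : (1 + x) ^ (2 * d) ≤ 2 ^ (2 * d) := pow_le_pow_left₀ (by linarith) (by linarith) _
    have h4 : (0 : ℝ) ≤ (k.factorial : ℝ) / c ^ k := by positivity
    calc Real.exp (-(c * x ^ σ)) * (1 + x) ^ (2 * d) ≤ 1 * 2 ^ (2 * d) :=
          mul_le_mul h2 h3 (by positivity) (by norm_num)
      _ = 2 ^ (2 * d) * 1 := by ring
      _ ≤ _ := mul_le_mul_of_nonneg_left (by linarith) (by positivity)
  · have h2 : (c * x ^ σ) ^ k / k.factorial ≤ Real.exp (c * x ^ σ) :=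
      Real.pow_div_factorial_le_exp _ hy k
    have h3 : (x ^ σ) ^ k = x ^ (σ * k) := by
      rw [← Real.rpow_natCast, ← Real.rpow_mul hx]
    have h4 : x ^ (2 * d) ≤ (x ^ σ) ^ k := by
      rw [h3, ← Real.rpow_natCast]
      exact Real.rpow_le_rpow_of_exponent_le h1.le hk'
    have h5 : (1 + x) ^ (2 * d) ≤ 2 ^ (2 * d) * x ^ (2 * d) := by
      rw [← mul_pow]
      exact pow_le_pow_left₀ (by linarith) (by linarith) _
    have h6 : (0 : ℝ) < k.factorial := by exact_mod_cast k.factorial_pos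
    have h7 : (x ^ σ) ^ k ≤ (k.factorial : ℝ) / c ^ k * Real.exp (c * x ^ σ) := by
      rw [mul_pow, div_le_iff₀ h6] at h2
      rw [div_mul_eq_mul_div, le_div_iff₀ (by positivity)]
      linarith
    rw [Real.exp_neg, inv_mul_eq_div, div_le_iff₀ (Real.exp_pos _)]
    calc (1 + x) ^ (2 * d) ≤ 2 ^ (2 * d) * x ^ (2 * d) := h5
      _ ≤ 2 ^ (2 * d) * ((k.factorial : ℝ) / c ^ k * Real.exp (c * x ^ σ)) :=
          mul_le_mul_of_nonneg_left (h4.trans h7) (by positivity)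
      _ ≤ 2 ^ (2 * d) * (1 + (k.factorial : ℝ) / c ^ k) * Real.exp (c * x ^ σ) := by
          have h8 := Real.exp_pos (c * x ^ σ)
          have h9 : (0 : ℝ) < 2 ^ (2 * d) := by positivity
          nlinarith [mul_pos h9 h8]

private theorem box_sum (N : ℕ) :
    ∑ j ∈ Finset.Icc (-(N : ℤ)) N, (2 / (1 + |(j : ℝ)|)) ^ 2 ≤ 16 := by
  have key : ∑ j ∈ Finset.Icc (-(N : ℤ)) N, (2 / (1 + |(j : ℝ)|)) ^ 2 ≤ 16 - 8 / ((N : ℝ) + 1) := by
    induction N with
    | zero =>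
      simp
      norm_num
    | succ N ih =>
      have h1 : Finset.Icc (-((N + 1 : ℕ) : ℤ)) ((N + 1 : ℕ) : ℤ) =
          insert (-((N + 1 : ℕ) : ℤ)) (insert ((N + 1 : ℕ) : ℤ) (Finset.Icc (-(N : ℤ)) N)) := by
        ext j
        simp only [Finset.mem_insert, Finset.mem_Icc]
        omega
      rw [h1, Finset.sum_insert, Finset.sum_insert]
      · have h2 : |(((-((N + 1 : ℕ) : ℤ)) : ℤ) : ℝ)| = (N : ℝ) + 1 := by
          push_cast
          rw [abs_of_nonpos (by linarith [Nat.cast_nonneg (α := ℝ) N])]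
          ring
        have h3 : |((((N + 1 : ℕ) : ℤ)) : ℝ)| = (N : ℝ) + 1 := by
          push_cast
          rw [abs_of_nonneg (by linarith [Nat.cast_nonneg (α := ℝ) N])]
        rw [h2, h3]
        have h4 : (0 : ℝ) ≤ N := Nat.cast_nonneg N
        have h5 : (2 / (1 + ((N : ℝ) + 1))) ^ 2 + (2 / (1 + ((N : ℝ) + 1))) ^ 2 ≤
            8 / ((N : ℝ) + 1) - 8 / ((N : ℝ) + 1 + 1) := by
          rw [div_sub_div _ _ (by positivity) (by positivity), ← two_mul, div_pow,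
            mul_div_assoc', div_le_div_iff₀ (by positivity) (by positivity)]
          nlinarith
        push_cast
        linarith
      · simp only [Finset.mem_Icc]
        omega
      · simp only [Finset.mem_insert, Finset.mem_Icc]
        omega
  have h6 : (0 : ℝ) ≤ 8 / ((N : ℝ) + 1) := by positivity
  linarith

theorem pack_sum (d : ℕ) {c σ : ℝ} (hc : 0 < c) (hσ : 0 < σ) :
    ∃ C : ℝ, ∀ ρ : ℝ, 0 < ρ → ∀ P : Finset (Fin d → ℝ), Sepd P ρ →
      ∀ t ∈ P, ∑ t' ∈ P, Real.exp (-(c * (dist t t' / ρ) ^ σ)) ≤ C := by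
  classical
  obtain ⟨C₁, hC₁, hexp⟩ := exp_bound d hc hσ
  refine ⟨C₁ * 16 ^ d, fun ρ hρ P hP t ht => ?_⟩
  obtain ⟨κ, hκ⟩ : ∃ κ : (Fin d → ℝ) → Fin d → ℤ, ∀ t' l, κ t' l = ⌊2 * (t' l - t l) / ρ⌋ :=
    ⟨fun t' l => ⌊2 * (t' l - t l) / ρ⌋, fun _ _ => rfl⟩
  have hinj : ∀ t' ∈ P, ∀ t'' ∈ P, κ t' = κ t'' → t' = t'' := by
    intro t' ht' t'' ht'' h
    by_contra hne
    have h1 := hP t' ht' t'' ht'' hne
    have h2 : dist t' t'' ≤ ρ / 2 := by
      rw [dist_pi_le_iff (by positivity)]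
      intro l
      have h3 := congrFun h l
      rw [hκ, hκ] at h3
      have h4 := Int.abs_sub_lt_one_of_floor_eq_floor h3
      have h5 : t' l - t'' l = (2 * (t' l - t l) / ρ - 2 * (t'' l - t l) / ρ) * (ρ / 2) := by
        field_simp
        ring
      rw [Real.dist_eq, h5, abs_mul, abs_of_pos (show 0 < ρ / 2 by positivity)]
      nlinarith
    linarith
  obtain ⟨N, hN⟩ : ∃ N : ℕ, ∀ t' ∈ P, ∀ l, (κ t' l).natAbs ≤ N := by
    refine ⟨∑ t' ∈ P, ∑ l, (κ t' l).natAbs, fun t' ht' l => ?_⟩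
    calc (κ t' l).natAbs ≤ ∑ l, (κ t' l).natAbs :=
          Finset.single_le_sum (f := fun l => (κ t' l).natAbs) (fun _ _ => Nat.zero_le _)
            (Finset.mem_univ l)
      _ ≤ _ := Finset.single_le_sum (f := fun t' => ∑ l, (κ t' l).natAbs)
            (fun _ _ => Nat.zero_le _) ht'
  have hterm : ∀ t' ∈ P, Real.exp (-(c * (dist t t' / ρ) ^ σ)) ≤
      C₁ * ∏ l, (2 / (1 + |((κ t' l : ℤ) : ℝ)|)) ^ 2 := by
    intro t' ht'
    obtain ⟨x, hx⟩ : ∃ x, x = dist t t' / ρ := ⟨_, rfl⟩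
    have hx0 : 0 ≤ x := by
      rw [hx]
      positivity
    rw [← hx]
    have h1 := hexp x hx0
    have h2 : Real.exp (-(c * x ^ σ)) ≤ C₁ / (1 + x) ^ (2 * d) := by
      rw [le_div_iff₀ (by positivity)]
      exact h1
    have h3 : C₁ / (1 + x) ^ (2 * d) = C₁ * ∏ _l : Fin d, (1 / (1 + x)) ^ 2 := by
      rw [Finset.prod_const, Finset.card_univ, Fintype.card_fin, ← pow_mul, one_div, inv_pow,
        div_eq_mul_inv]
    rw [h3] at h2
    refine h2.trans (mul_le_mul_of_nonneg_left ?_ hC₁)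
    refine Finset.prod_le_prod (fun l _ => by positivity) fun l _ => ?_
    refine pow_le_pow_left₀ (by positivity) ?_ 2
    have h4 : |2 * (t' l - t l) / ρ| ≤ 2 * x := by
      have h5 : |t' l - t l| ≤ dist t t' := by
        rw [abs_sub_comm, ← Real.dist_eq]
        exact dist_le_pi_dist t t' l
      rw [abs_div, abs_mul, abs_of_pos hρ, abs_of_pos (show (0 : ℝ) < 2 by norm_num), hx,
        mul_div_assoc]
      refine mul_le_mul_of_nonneg_left ?_ (by norm_num)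
      exact (div_le_div_iff_of_pos_right hρ).2 h5
    have h6 : |((κ t' l : ℤ) : ℝ)| ≤ 2 * x + 1 := by
      rw [hκ]
      have h7 := Int.floor_le (2 * (t' l - t l) / ρ)
      have h8 := Int.lt_floor_add_one (2 * (t' l - t l) / ρ)
      have h9 := abs_le.1 h4
      rw [abs_le]
      constructor <;> linarith
    have h7 : 0 ≤ |((κ t' l : ℤ) : ℝ)| := abs_nonneg _
    rw [div_le_div_iff₀ (by positivity) (by positivity)]
    linarith
  calc ∑ t' ∈ P, Real.exp (-(c * (dist t t' / ρ) ^ σ))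
      ≤ ∑ t' ∈ P, C₁ * ∏ l, (2 / (1 + |((κ t' l : ℤ) : ℝ)|)) ^ 2 := Finset.sum_le_sum hterm
    _ = C₁ * ∑ t' ∈ P, ∏ l, (2 / (1 + |((κ t' l : ℤ) : ℝ)|)) ^ 2 := by rw [Finset.mul_sum]
    _ = C₁ * ∑ k ∈ P.image κ, ∏ l, (2 / (1 + |((k l : ℤ) : ℝ)|)) ^ 2 := by
        rw [Finset.sum_image fun t' ht' t'' ht'' h => hinj t' ht' t'' ht'' h]
    _ ≤ C₁ * ∑ k ∈ Fintype.piFinset fun _ : Fin d => Finset.Icc (-(N : ℤ)) N,
          ∏ l, (2 / (1 + |((k l : ℤ) : ℝ)|)) ^ 2 := by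
        refine mul_le_mul_of_nonneg_left (Finset.sum_le_sum_of_subset_of_nonneg ?_ ?_) hC₁
        · intro k hk
          rw [Finset.mem_image] at hk
          obtain ⟨t', ht', rfl⟩ := hk
          rw [Fintype.mem_piFinset]
          intro l
          have := hN t' ht' l
          rw [Finset.mem_Icc]
          omega
        · intro k _ _
          exact Finset.prod_nonneg fun l _ => by positivity
    _ = C₁ * ∏ _l : Fin d, ∑ j ∈ Finset.Icc (-(N : ℤ)) N, (2 / (1 + |(j : ℝ)|)) ^ 2 := by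
        rw [Finset.prod_univ_sum]
    _ ≤ C₁ * 16 ^ d := by
        refine mul_le_mul_of_nonneg_left ?_ hC₁
        calc ∏ _l : Fin d, ∑ j ∈ Finset.Icc (-(N : ℤ)) N, (2 / (1 + |(j : ℝ)|)) ^ 2
            ≤ ∏ _l : Fin d, (16 : ℝ) :=
              Finset.prod_le_prod (fun l _ => Finset.sum_nonneg fun j _ => by positivity)
                fun l _ => box_sum N
          _ = 16 ^ d := by rw [Finset.prod_const, Finset.card_univ, Fintype.card_fin]

end Pool.Agent.Work.MP_58cfe3_nt
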