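import Pool.Agent.Work.MP_58cfe3_nt.Z.Defs

/-!
# Block Z, module Part (size M)

At a `Good` integer `n ≤ X` the alternating sum `DD F e n` is the part `DT` of the primes
`w < p ≤ X^θ`, plus an integer multiple `J FX` of ONE vector `FX` (which depends on `X` only) with bounded
`J`, plus a bounded vector.

PROOF. Write `v_A = vert e A`, `m_A = n + v_A`. `Good (vert e) w A₀ n` says: `m_A > 0`, no `p^A₀` with
`p ≤ w` divides `m_A`, no `p^2` with `p > w` divides `m_A`. So for every `l`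
`Fa F m_A l = ∑_{p ≤ w, p ∣ m_A} v_p(m_A) F p l + ∑_{p > w, p ∣ m_A} F p l` (the second kind has
`v_p = 1`), and `v_p ≤ A₀` in the first sum. The primes `p > w` dividing `m_A` (`m_A ≤ X + B`) are either
in `TT w X θ` (`p ≤ X^θ`, and then `p ≤ X` since `θ ≤ 1`, `X ≥ 1`) or in `LL X B θ` (`p > X^θ`,
`p ≤ X + B`); for `X ≥ X₀` with `X₀^θ > w` the primes of `LL X B θ` are `> w`. Hence
`DD F e n l = DT F e (TT w X θ) n l + S₁ + S₂`, where
`S₁ = ∑_A sg A ∑_{p ≤ w, p ∣ m_A} v_p(m_A) F p l`, `|S₁| ≤ 2^r A₀ ∑_{p ≤ w} |F p l| ≤ 2^r A₀ F₀`, `F₀ = ∑_l ∑_{p ≤ w} |F p l|`, and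
`S₂ = ∑_A sg A ∑_{p ∈ LL, p ∣ m_A} F p l`.
Number of `p ∈ LL X B θ` with `p ∣ m_A`: their product divides `m_A ≤ X + B ≤ X^2` (for `X ≥ B + 2`) and
each is `> X^θ`, so if there are `k` of them, `X^(θ k) ≤ X^2`, `k ≤ 2/θ`.
Reference vector: if `LL X B θ` is empty take `FX = 0` (any); otherwise fix any `q ∈ LL X B θ` and put
`FX = F q`. By `SlowVar F` with `θ/2`: for `p, p' ∈ LL X B θ`, `p' ≤ p`: `p^(θ/2) ≤ (X + B)^(θ/2) ≤
(X^2)^(θ/2) = X^θ < p'`, so `|F p l - F p' l| ≤ C`, where `C` (may be taken `≥ 0`) is the constant of `θ/2`. Therefore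
`S₂ = J FX l + S₃` with `J = ∑_A sgZ A * #{p ∈ LL : p ∣ m_A}` (an integer; `sgZ A = ±1`), `|J| ≤ 2^r (2/θ)`, and
`|S₃| = |∑_A sg A ∑_{p ∈ LL, p ∣ m_A} (F p l - FX l)| ≤ 2^r (2/θ) C`.
Take `J₀ = 2^r (2/θ)`, `E₀ = 2^r A₀ F₀ + 2^r (2/θ) C`, `E = S₁ + S₃`.
-/

set_option autoImplicit false

namespace Pool.Agent.Work.MP_58cfe3_nt

open Filter Topology

/-- the primes of the set `S` dividing `m` -/
private noncomputable def ptD (S : Finset ℕ) (m : ℤ) : Finset ℕ := S.filter fun p => (p : ℤ) ∣ m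

private theorem ptPF {m : ℤ} (hm : 0 < m) {p : ℕ} :
    p ∈ m.toNat.primeFactors ↔ p.Prime ∧ (p : ℤ) ∣ m := by
  have hm' : (m.toNat : ℤ) = m := Int.toNat_of_nonneg hm.le
  have h0 : m.toNat ≠ 0 := by omega
  rw [Nat.mem_primeFactors]
  constructor
  · rintro ⟨h1, h2, -⟩
    refine ⟨h1, ?_⟩
    rw [← hm']
    exact_mod_cast h2
  · rintro ⟨h1, h2⟩
    refine ⟨h1, ?_, h0⟩
    rw [← hm'] at h2
    exact_mod_cast h2

private theorem ptFa {d : ℕ} (F : ℕ → Fin d → ℝ) {w X B : ℕ} {θ : ℝ} (h1 : θ ≤ 1) (hX : 1 ≤ X)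
    (hw : (w : ℝ) < (X : ℝ) ^ θ) {m : ℤ} (hm : 0 < m) (hmX : m ≤ X + B)
    (h2 : ∀ p : ℕ, p.Prime → w < p → ¬ (p : ℤ) ^ 2 ∣ m) (l : Fin d) :
    Fa F m l = ∑ p ∈ m.toNat.primeFactors.filter (fun p => p ≤ w),
        (m.toNat.factorization p : ℝ) * F p l +
      (∑ p ∈ ptD (TT w X θ) m, F p l + ∑ p ∈ ptD (LL X B θ) m, F p l) := by
  have hm' : (m.toNat : ℤ) = m := Int.toNat_of_nonneg hm.le
  have h0 : m.toNat ≠ 0 := by omega
  have hX1 : (1 : ℝ) ≤ X := by exact_mod_cast hX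
  have hXθ : (X : ℝ) ^ θ ≤ X := by
    calc (X : ℝ) ^ θ ≤ (X : ℝ) ^ (1 : ℝ) := Real.rpow_le_rpow_of_exponent_le hX1 h1
      _ = X := Real.rpow_one _
  have hdis : Disjoint (ptD (TT w X θ) m) (ptD (LL X B θ) m) := by
    rw [Finset.disjoint_left]
    intro p hp hp'
    have a := (Finset.mem_filter.1 (Finset.mem_filter.1 hp).1).2.2.2
    have b := (Finset.mem_filter.1 (Finset.mem_filter.1 hp').1).2.2
    linarith
  have hset : m.toNat.primeFactors.filter (fun p => ¬ p ≤ w) =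
      ptD (TT w X θ) m ∪ ptD (LL X B θ) m := by
    ext p
    rw [Finset.mem_filter, ptPF hm, Finset.mem_union, ptD, ptD, Finset.mem_filter,
      Finset.mem_filter, TT, LL, Finset.mem_filter, Finset.mem_filter, Finset.mem_Icc,
      Finset.mem_Icc]
    constructor
    · rintro ⟨⟨hp, hd⟩, hpw⟩
      have hle : (p : ℤ) ≤ m := Int.le_of_dvd hm hd
      have hp1 := hp.one_lt
      by_cases hc : (p : ℝ) ≤ (X : ℝ) ^ θ
      · left
        have : (p : ℝ) ≤ X := hc.trans hXθ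
        have : p ≤ X := by exact_mod_cast this
        exact ⟨⟨⟨by omega, this⟩, hp, by omega, hc⟩, hd⟩
      · right
        exact ⟨⟨⟨by omega, by omega⟩, hp, not_le.1 hc⟩, hd⟩
    · rintro (⟨⟨-, hp, hw', -⟩, hd⟩ | ⟨⟨-, hp, hc⟩, hd⟩)
      · exact ⟨⟨hp, hd⟩, by omega⟩
      · refine ⟨⟨hp, hd⟩, ?_⟩
        have : (w : ℝ) < p := hw.trans hc
        have : w < p := by exact_mod_cast this
        omega
  have hone : ∀ p ∈ m.toNat.primeFactors.filter (fun p => ¬ p ≤ w),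
      (m.toNat.factorization p : ℝ) * F p l = F p l := by
    intro p hp
    obtain ⟨hp1, hp2⟩ := Finset.mem_filter.1 hp
    obtain ⟨hpp, hpd⟩ := (ptPF hm).1 hp1
    have e1 : m.toNat.factorization p = 1 := by
      have a1 : 0 < m.toNat.factorization p := by
        refine hpp.factorization_pos_of_dvd h0 ?_
        have : (p : ℤ) ∣ (m.toNat : ℤ) := by rw [hm']; exact hpd
        exact_mod_cast this
      have a2 : ¬ 2 ≤ m.toNat.factorization p := by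
        intro h
        refine h2 p hpp (by omega) ?_
        have : p ^ 2 ∣ m.toNat := (hpp.pow_dvd_iff_le_factorization h0).2 h
        rw [← hm']
        exact_mod_cast this
      omega
    rw [e1, Nat.cast_one, one_mul]
  rw [Fa, ← Finset.sum_filter_add_sum_filter_not m.toNat.primeFactors (fun p => p ≤ w)]
  congr 1
  rw [Finset.sum_congr rfl hone, hset, Finset.sum_union hdis]

private theorem ptK {X B : ℕ} {θ : ℝ} (h0 : 0 < θ) (hX : B + 2 ≤ X) {m : ℤ} (hm : 0 < m)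
    (hmX : m ≤ X + B) : ((ptD (LL X B θ) m).card : ℝ) ≤ 2 / θ := by
  have hm' : (m.toNat : ℤ) = m := Int.toNat_of_nonneg hm.le
  have hX1 : (1 : ℝ) < X := by
    have : 1 < X := by omega
    exact_mod_cast this
  have hX0 : (0 : ℝ) < X := by linarith
  have hdvd : ∏ p ∈ ptD (LL X B θ) m, p ∣ m.toNat := by
    refine Finset.prod_primes_dvd _ (fun p hp => ?_) fun p hp => ?_
    · exact (Finset.mem_filter.1 (Finset.mem_filter.1 hp).1).2.1.prime
    · have : (p : ℤ) ∣ (m.toNat : ℤ) := by rw [hm']; exact (Finset.mem_filter.1 hp).2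
      exact_mod_cast this
  have hle : ∏ p ∈ ptD (LL X B θ) m, p ≤ m.toNat := Nat.le_of_dvd (by omega) hdvd
  have hM : (m.toNat : ℝ) ≤ (X : ℝ) ^ 2 := by
    have h3 : m.toNat ≤ X + B := by omega
    have h4 : X + B ≤ X ^ 2 := by nlinarith
    exact_mod_cast h3.trans h4
  have hprod : ((X : ℝ) ^ θ) ^ (ptD (LL X B θ) m).card ≤ ((∏ p ∈ ptD (LL X B θ) m, p : ℕ) : ℝ) := by
    rw [Nat.cast_prod, ← Finset.prod_const]
    refine Finset.prod_le_prod (fun p _ => by positivity) fun p hp => ?_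
    exact (Finset.mem_filter.1 (Finset.mem_filter.1 hp).1).2.2.le
  have h5 : (X : ℝ) ^ (θ * ((ptD (LL X B θ) m).card : ℝ)) ≤ (X : ℝ) ^ (2 : ℝ) := by
    rw [Real.rpow_mul hX0.le, Real.rpow_natCast]
    refine hprod.trans ?_
    have : ((∏ p ∈ ptD (LL X B θ) m, p : ℕ) : ℝ) ≤ (m.toNat : ℝ) := by exact_mod_cast hle
    refine this.trans (hM.trans (le_of_eq ?_))
    rw [← Real.rpow_natCast]
    norm_num
  have h6 := (Real.rpow_le_rpow_left_iff hX1).1 h5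
  rw [le_div_iff₀ h0]
  linarith

private theorem ptC {d : ℕ} {F : ℕ → Fin d → ℝ} {X B : ℕ} {θ C : ℝ} (h0 : 0 < θ) (hX : B + 2 ≤ X)
    (hC : ∀ p q : ℕ, p.Prime → q.Prime → (p : ℝ) ^ (θ / 2) ≤ q → q ≤ p → ∀ l, |F p l - F q l| ≤ C)
    {p q : ℕ} (hp : p ∈ LL X B θ) (hq : q ∈ LL X B θ) (l : Fin d) : |F p l - F q l| ≤ C := by
  have key : ∀ p q : ℕ, p ∈ LL X B θ → q ∈ LL X B θ → q ≤ p → |F p l - F q l| ≤ C := by
    intro p q hp hq hqp
    obtain ⟨hp1, hp2, hp3⟩ := Finset.mem_filter.1 hp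
    obtain ⟨hq1, hq2, hq3⟩ := Finset.mem_filter.1 hq
    refine hC p q hp2 hq2 ?_ hqp l
    have h3 : p ≤ X + B := (Finset.mem_Icc.1 hp1).2
    have h4 : X + B ≤ X ^ 2 := by nlinarith
    have h5 : (p : ℝ) ≤ (X : ℝ) ^ 2 := by exact_mod_cast h3.trans h4
    have h6 : (p : ℝ) ^ (θ / 2) ≤ ((X : ℝ) ^ 2) ^ (θ / 2) :=
      Real.rpow_le_rpow (Nat.cast_nonneg _) h5 (by linarith)
    have h7 : ((X : ℝ) ^ 2) ^ (θ / 2) = (X : ℝ) ^ θ := by
      rw [← Real.rpow_natCast, ← Real.rpow_mul (Nat.cast_nonneg _)]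
      congr 1
      push_cast
      ring
    linarith
  rcases le_total q p with h | h
  · exact key p q hp hq h
  · rw [abs_sub_comm]
    exact key q p hq hp h

private theorem ptSg {r : ℕ} (A : Finset (Fin r)) (x : ℝ) : |sg A * x| = |x| := by
  rw [abs_mul, sg]
  split_ifs <;> simp

theorem good_decomp {d : ℕ} {F : ℕ → Fin d → ℝ} (hF : SlowVar F) {r : ℕ} (e : Fin r → ℤ)
    (w A₀ : ℕ) {θ : ℝ} (h0 : 0 < θ) (h1 : θ ≤ 1) :
    ∃ J₀ E₀ : ℝ, 0 ≤ J₀ ∧ 0 ≤ E₀ ∧ ∀ᶠ X : ℕ in atTop, ∃ FX : Fin d → ℝ,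
      ∀ n : ℕ, n ∈ Finset.Icc 1 X → Good (vert e) w A₀ n →
        ∃ (J : ℤ) (E : Fin d → ℝ), |(J : ℝ)| ≤ J₀ ∧ (∀ l, |E l| ≤ E₀) ∧
          ∀ l, DD F e n l = DT F e (TT w X θ) n l + J * FX l + E l := by
  classical
  obtain ⟨C0, hC0⟩ := hF (θ / 2) (by linarith)
  obtain ⟨C, hCdef⟩ : ∃ C : ℝ, C = |C0| := ⟨_, rfl⟩
  have hCnn : 0 ≤ C := by rw [hCdef]; exact abs_nonneg _
  have hC : ∀ p q : ℕ, p.Prime → q.Prime → (p : ℝ) ^ (θ / 2) ≤ q → q ≤ p → ∀ l,
      |F p l - F q l| ≤ C := fun p q hp hq h h' l =>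
    (hC0 p q hp hq h h' l).trans (by rw [hCdef]; exact le_abs_self _)
  obtain ⟨B, hB⟩ : ∃ B : ℕ, ∀ A : Finset (Fin r), vert e A ≤ B := by
    refine ⟨∑ A : Finset (Fin r), (vert e A).natAbs, fun A => ?_⟩
    have a1 : (vert e A).natAbs ≤ ∑ A : Finset (Fin r), (vert e A).natAbs :=
      Finset.single_le_sum (f := fun A => (vert e A).natAbs) (fun _ _ => Nat.zero_le _)
        (Finset.mem_univ A)
    have a2 : vert e A ≤ ((vert e A).natAbs : ℤ) := Int.le_natAbs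
    exact a2.trans (by exact_mod_cast a1)
  obtain ⟨F₀, hF₀⟩ : ∃ F₀ : ℝ, F₀ = ∑ l, ∑ p ∈ (Finset.Icc 1 w).filter Nat.Prime, |F p l| :=
    ⟨_, rfl⟩
  have hF₀nn : 0 ≤ F₀ := by
    rw [hF₀]
    exact Finset.sum_nonneg fun l _ => Finset.sum_nonneg fun p _ => abs_nonneg _
  have hθ2 : 0 ≤ 2 / θ := by positivity
  refine ⟨2 ^ r * (2 / θ), 2 ^ r * (A₀ * F₀ + 2 / θ * C), by positivity, by positivity, ?_⟩
  have hev : ∀ᶠ X : ℕ in atTop, (w : ℝ) < (X : ℝ) ^ θ :=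
    ((tendsto_rpow_atTop h0).comp tendsto_natCast_atTop_atTop).eventually_gt_atTop (w : ℝ)
  filter_upwards [hev, eventually_ge_atTop (B + 2)] with X hXw hXB
  obtain ⟨FX, hFX⟩ : ∃ FX : Fin d → ℝ, ∀ p ∈ LL X B θ, ∀ l, |F p l - FX l| ≤ C := by
    by_cases hne : (LL X B θ).Nonempty
    · obtain ⟨q, hq⟩ := hne
      exact ⟨F q, fun p hp l => ptC h0 hXB hC hp hq l⟩
    · exact ⟨0, fun p hp => absurd ⟨p, hp⟩ hne⟩
  refine ⟨FX, ?_⟩
  intro n hn hgood
  have hn2 : n ≤ X := (Finset.mem_Icc.1 hn).2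
  have hpos : ∀ A, 0 < (n : ℤ) + vert e A := fun A => (hgood A).1
  have hmX : ∀ A, (n : ℤ) + vert e A ≤ X + B := by
    intro A
    have := hB A
    omega
  obtain ⟨s1, hs1⟩ : ∃ s1 : Finset (Fin r) → Fin d → ℝ, ∀ A l, s1 A l =
      ∑ p ∈ ((n : ℤ) + vert e A).toNat.primeFactors.filter (fun p => p ≤ w),
        (((n : ℤ) + vert e A).toNat.factorization p : ℝ) * F p l := ⟨_, fun _ _ => rfl⟩
  obtain ⟨s3, hs3⟩ : ∃ s3 : Finset (Fin r) → Fin d → ℝ, ∀ A l, s3 A l =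
      ∑ p ∈ ptD (LL X B θ) ((n : ℤ) + vert e A), (F p l - FX l) := ⟨_, fun _ _ => rfl⟩
  have hfa : ∀ A l, Fa F ((n : ℤ) + vert e A) l = s1 A l +
      (∑ p ∈ ptD (TT w X θ) ((n : ℤ) + vert e A), F p l +
        (((ptD (LL X B θ) ((n : ℤ) + vert e A)).card : ℝ) * FX l + s3 A l)) := by
    intro A l
    rw [ptFa F h1 (by omega) hXw (hpos A) (hmX A) (hgood A).2.2 l, ← hs1]
    congr 2
    rw [hs3, Finset.sum_sub_distrib, Finset.sum_const, nsmul_eq_mul]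
    ring
  have hs1b : ∀ A l, |s1 A l| ≤ A₀ * F₀ := by
    intro A l
    have hm' : ((((n : ℤ) + vert e A).toNat : ℕ) : ℤ) = (n : ℤ) + vert e A :=
      Int.toNat_of_nonneg (hpos A).le
    have hm0 : ((n : ℤ) + vert e A).toNat ≠ 0 := by
      have := hpos A
      omega
    rw [hs1]
    refine (Finset.abs_sum_le_sum_abs _ _).trans ?_
    have b1 : ∀ p ∈ ((n : ℤ) + vert e A).toNat.primeFactors.filter (fun p => p ≤ w),
        |(((n : ℤ) + vert e A).toNat.factorization p : ℝ) * F p l| ≤ A₀ * |F p l| := by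
      intro p hp
      obtain ⟨hp1, hp2⟩ := Finset.mem_filter.1 hp
      obtain ⟨hpp, hpd⟩ := (ptPF (hpos A)).1 hp1
      rw [abs_mul, Nat.abs_cast]
      refine mul_le_mul_of_nonneg_right ?_ (abs_nonneg _)
      have c1 : ¬ A₀ ≤ ((n : ℤ) + vert e A).toNat.factorization p := by
        intro h
        refine (hgood A).2.1 p hpp hp2 ?_
        have : p ^ A₀ ∣ ((n : ℤ) + vert e A).toNat :=
          (hpp.pow_dvd_iff_le_factorization hm0).2 h
        rw [← hm']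
        exact_mod_cast this
      exact_mod_cast (not_le.1 c1).le
    refine (Finset.sum_le_sum b1).trans ?_
    rw [← Finset.mul_sum]
    refine mul_le_mul_of_nonneg_left ?_ (Nat.cast_nonneg _)
    have b2 : ((n : ℤ) + vert e A).toNat.primeFactors.filter (fun p => p ≤ w) ⊆
        (Finset.Icc 1 w).filter Nat.Prime := by
      intro p hp
      obtain ⟨hp1, hp2⟩ := Finset.mem_filter.1 hp
      have hpp := ((ptPF (hpos A)).1 hp1).1
      exact Finset.mem_filter.2 ⟨Finset.mem_Icc.2 ⟨hpp.one_lt.le, hp2⟩, hpp⟩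
    refine (Finset.sum_le_sum_of_subset_of_nonneg b2 fun _ _ _ => abs_nonneg _).trans ?_
    rw [hF₀]
    exact Finset.single_le_sum (f := fun l => ∑ p ∈ (Finset.Icc 1 w).filter Nat.Prime, |F p l|)
      (fun l _ => Finset.sum_nonneg fun p _ => abs_nonneg _) (Finset.mem_univ l)
  have hkA : ∀ A, ((ptD (LL X B θ) ((n : ℤ) + vert e A)).card : ℝ) ≤ 2 / θ := fun A =>
    ptK h0 hXB (hpos A) (hmX A)
  have hs3b : ∀ A l, |s3 A l| ≤ 2 / θ * C := by
    intro A l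
    rw [hs3]
    refine (Finset.abs_sum_le_sum_abs _ _).trans ?_
    refine (Finset.sum_le_sum fun p hp => hFX p (Finset.mem_filter.1 hp).1 l).trans ?_
    rw [Finset.sum_const, nsmul_eq_mul]
    exact mul_le_mul_of_nonneg_right (hkA A) hCnn
  have hcard : ((Finset.univ : Finset (Finset (Fin r))).card : ℝ) = 2 ^ r := by
    rw [Finset.card_univ, Fintype.card_finset, Fintype.card_fin]
    push_cast
    rfl
  have hJr : ((∑ A : Finset (Fin r), (if Even A.card then 1 else -1) *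
      ((ptD (LL X B θ) ((n : ℤ) + vert e A)).card : ℤ) : ℤ) : ℝ) =
      ∑ A : Finset (Fin r), sg A * ((ptD (LL X B θ) ((n : ℤ) + vert e A)).card : ℝ) := by
    rw [Int.cast_sum]
    refine Finset.sum_congr rfl fun A _ => ?_
    rw [sg]
    split_ifs <;> push_cast <;> ring
  refine ⟨∑ A : Finset (Fin r), (if Even A.card then 1 else -1) *
      ((ptD (LL X B θ) ((n : ℤ) + vert e A)).card : ℤ),
    fun l => ∑ A : Finset (Fin r), sg A * (s1 A l + s3 A l), ?_, ?_, ?_⟩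
  · rw [hJr]
    refine (Finset.abs_sum_le_sum_abs _ _).trans ?_
    calc ∑ A : Finset (Fin r), |sg A * ((ptD (LL X B θ) ((n : ℤ) + vert e A)).card : ℝ)|
        ≤ ∑ _A : Finset (Fin r), 2 / θ := Finset.sum_le_sum fun A _ => by
          rw [ptSg, Nat.abs_cast]
          exact hkA A
      _ = 2 ^ r * (2 / θ) := by rw [Finset.sum_const, nsmul_eq_mul, hcard]
  · intro l
    refine (Finset.abs_sum_le_sum_abs _ _).trans ?_
    calc ∑ A : Finset (Fin r), |sg A * (s1 A l + s3 A l)|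
        ≤ ∑ _A : Finset (Fin r), (A₀ * F₀ + 2 / θ * C) := Finset.sum_le_sum fun A _ => by
          rw [ptSg]
          exact (abs_add_le _ _).trans (add_le_add (hs1b A l) (hs3b A l))
      _ = 2 ^ r * (A₀ * F₀ + 2 / θ * C) := by rw [Finset.sum_const, nsmul_eq_mul, hcard]
  · intro l
    have hDT : DT F e (TT w X θ) n l = ∑ A : Finset (Fin r), sg A *
        ∑ p ∈ ptD (TT w X θ) ((n : ℤ) + vert e A), F p l := by
      rw [DT, Finset.sum_comm]
      refine Finset.sum_congr rfl fun A _ => ?_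
      rw [ptD, Finset.mul_sum, Finset.sum_filter]
    rw [hJr, hDT, DD, Finset.sum_mul, ← Finset.sum_add_distrib, ← Finset.sum_add_distrib]
    refine Finset.sum_congr rfl fun A _ => ?_
    rw [hfa A l]
    ring

end Pool.Agent.Work.MP_58cfe3_nt
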