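import Pool.Agent.Work.MP_58cfe3_nt.Z.Defs
import Pool.Agent.Work.MP_58cfe3_nt.Mer

/-!
# Block Z, module TLow (size S)

Restricting a sum over all primes `p ≤ X` to the primes `w < p ≤ X^θ` costs a bounded amount.

PROOF. The primes `p ≤ X` which are not in `TT w X θ` satisfy `p ≤ w` or `X^θ < p ≤ X`. For the first
kind `∑ a p/p ≤ ∑_{p ≤ w} 2 = 2 (w + 1)` (every term is `≤ 2`, `1/p ≤ 1`), for the second kind
`∑ a p/p ≤ 2 ∑ 1/p ≤ 2 (log (1/θ) + 1)` for large `X`, by `mert_win`. So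
`C = 2 (w + 1) + 2 (log (1/θ) + 1)` does it: split the sum over `(Finset.Icc 1 X).filter Nat.Prime` by
`Finset.sum_filter_add_sum_filter_not` / `Finset.sum_le_sum_of_subset_of_nonneg`.
-/

set_option autoImplicit false

namespace Pool.Agent.Work.MP_58cfe3_nt

open Filter Topology

theorem tt_low (w : ℕ) {θ : ℝ} (h0 : 0 < θ) (h1 : θ ≤ 1) :
    ∃ C : ℝ, ∀ᶠ X : ℕ in atTop, ∀ a : ℕ → ℝ, (∀ p, 0 ≤ a p) → (∀ p, a p ≤ 2) →
      ∑ p ∈ (Finset.Icc 1 X).filter Nat.Prime, a p / p - C ≤ ∑ p ∈ TT w X θ, a p / p := by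
  classical
  refine ⟨2 * w + 2 * (Real.log (1 / θ) + 1), ?_⟩
  filter_upwards [mert_win h0 h1] with X hX a ha0 ha2
  set S₁ := (Finset.Icc 1 w)
  set S₂ := (Finset.Icc 1 X).filter (fun p : ℕ => p.Prime ∧ (X : ℝ) ^ θ < p)
  have hsub : (Finset.Icc 1 X).filter Nat.Prime ⊆ TT w X θ ∪ (S₁ ∪ S₂) := by
    intro p hp
    rw [Finset.mem_filter] at hp
    by_cases hw : w < p
    · by_cases hx : (p : ℝ) ≤ (X : ℝ) ^ θ
      · refine Finset.mem_union_left _ ?_
        rw [TT, Finset.mem_filter]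
        exact ⟨hp.1, hp.2, hw, hx⟩
      · refine Finset.mem_union_right _ (Finset.mem_union_right _ ?_)
        rw [Finset.mem_filter]
        exact ⟨hp.1, hp.2, not_le.1 hx⟩
    · refine Finset.mem_union_right _ (Finset.mem_union_left _ ?_)
      rw [Finset.mem_Icc]
      exact ⟨hp.2.one_lt.le, not_lt.1 hw⟩
  have hn : ∀ p : ℕ, 0 ≤ a p / p := fun p => div_nonneg (ha0 p) (Nat.cast_nonneg p)
  have hun : ∀ A B : Finset ℕ, ∑ p ∈ A ∪ B, a p / p ≤ ∑ p ∈ A, a p / p + ∑ p ∈ B, a p / p := by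
    intro A B
    rw [← Finset.sum_union_inter]
    linarith [Finset.sum_nonneg (s := A ∩ B) fun p _ => hn p]
  have h2 := le_trans (Finset.sum_le_sum_of_subset_of_nonneg hsub fun p _ _ => hn p)
    (le_trans (hun _ _) (add_le_add_right (hun _ _) _))
  have h3 : ∑ p ∈ S₁, a p / p ≤ 2 * w := by
    have : ∀ p ∈ S₁, a p / p ≤ 2 := by
      intro p hp
      have hp1 : (1 : ℝ) ≤ p := by exact_mod_cast (Finset.mem_Icc.1 hp).1
      exact le_trans (div_le_self (ha0 p) hp1) (ha2 p)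
    refine le_trans (Finset.sum_le_card_nsmul _ _ _ this) (le_of_eq ?_)
    simp [S₁]
    ring
  have h4 : ∑ p ∈ S₂, a p / p ≤ 2 * (Real.log (1 / θ) + 1) := by
    refine le_trans ?_ (mul_le_mul_of_nonneg_left hX (by norm_num))
    rw [Finset.mul_sum]
    refine Finset.sum_le_sum fun p _ => ?_
    rw [mul_one_div]
    exact div_le_div_of_nonneg_right (ha2 p) (Nat.cast_nonneg p)
  linarith

end Pool.Agent.Work.MP_58cfe3_nt
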