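import Pool.Agent.Work.MP_58cfe3_nt.Z.Defs
import Pool.Agent.Work.MP_58cfe3_nt.Z.FFei
import Pool.Agent.Work.MP_58cfe3_nt.Z.Model
import Pool.Agent.Work.MP_58cfe3_nt.Z.TLow
import Pool.Agent.Work.MP_58cfe3_nt.Z.KubLog
import Pool.Agent.Work.MP_58cfe3_nt.Z.GoodLog
import Pool.Agent.Work.MP_58cfe3_nt.Z.Part
import Pool.Agent.Work.MP_58cfe3_nt.Z.Bessel
import Pool.Agent.Work.MP_58cfe3_nt.Z.Pack
import Pool.Agent.Work.MP_58cfe3_nt.Z.Cell

/-!
# Block Z, module Sep (size M-L): the main estimate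

At every large scale `X` there are at most `K` points `t` of the box `[-T₀, T₀]^d`, at mutual distance
`(log log X)^(-κ/2)`, with `|E^log G(n) exp(i t·DD(n))| ≥ c`; `K` does not depend on `X` nor on the
bounded function `G`.

PROOF. We may assume `c ≤ 1` (replace `c` by `min c 1`). Put `ι = Finset (Fin r)`, `v = vert e`.
PARAMETERS, in this order.
* `kub_log he (η := c^2/16)` gives `θ, w₁`; `good_log (vert e) (η := c/8)` gives `w₂`; put
  `w = max (max w₁ w₂) (2^(r+1))`; `good_log` gives `A₀` for this `w`.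
* `good_decomp hF e w A₀ (θ)` gives `J₀, E₀ ≥ 0`; `tt_low w (θ)` gives `C₁`; `Spread F κ` gives `c₀, σ, C, b`;
  `pack_sum d (c₀) (σ)` gives `C₂` (replace it by `max C₂ 0`).
* `ρ₁ = min b (c/(16 (d + 1) (E₀ + 1)))`, `ρ₂ = c/(16 (J₀ + 1))`; `cell_pigeon d T₀ (ρ₁) (ρ₂)` gives `N`.
* `C₃ = exp(C + C₁) C₂`, `K₁ = ⌈16 C₃/c^2⌉₊`, `K = N K₁`.
Let `X` be large (all eventually statements hold, `X ≥ 3` so that `m := log log X > 0`). Suppose
`P.card > K`. `cell_pigeon` (with `FX` the vector given by `good_decomp` at `X`, `k = K₁`) gives `P' ⊆ P` with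
`k := P'.card > K₁ ≥ 16 C₃/c^2` (so `P'` is not empty). Fix `t₀ ∈ P'`, let `T = TT w X θ`, `D_T n = DT F e T n`,
`D n = DD F e n`, and
`G' n = G n * ei (dot t₀ (D n)) * ei (-(dot t₀ (D_T n)))`, `‖G' n‖ ≤ 1`.
STEP 1. For `t ∈ P'` put `f n = G n * ei (dot t (D n))`, `f' n = G' n * ei (dot t (D_T n))`. For a `Good`
`n ∈ [1, X]`: `D n - D_T n = J FX + E` (coordinatewise), so
`‖f n - f' n‖ ≤ ‖ei (dot t (D n)) - ei (dot t₀ (D n)) ei (dot (t - t₀) (D_T n))‖`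
`= ‖ei (dot (t - t₀) (D n - D_T n)) - 1‖ = ‖ei (J y + z) - 1‖`, `y = dot (t - t₀) FX`, `z = dot (t - t₀) E`,
`|z| ≤ d ρ₁ E₀ ≤ c/16`, `y = 2 π j + x`, `|x| ≤ ρ₂`, and `J j ∈ ℤ`, so `ei (J y) = ei (J x)`,
`|J x| ≤ J₀ ρ₂ ≤ c/16`. As `‖ei s - 1‖ ≤ |s|`, `‖f n - f' n‖ ≤ c/8`. By `good_log` (`ε₁ = c/8`)
`‖Elog f X - Elog f' X‖ ≤ c/4`, so `‖Elog f' X‖ ≥ c - c/4 ≥ c/2`.
STEP 2. `bessel P' (u t n = ei (dot t (D_T n))) (G := G')`: `(k c/2)^2 ≤ ∑_{t,t' ∈ P'} ‖Elog (u t * star (u t')) X‖`.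
Here `u t n * star (u t' n) = ei (dot (t - t') (D_T n)) = FF v T (uu F (t - t')) n` (`ff_ei`), so by `kub_log`
(its hypotheses on `T` hold: `w ≥ w₁`, `‖uu ..‖ = 1`) and `model_le` (primes of `T` are `> w ≥ 2^(r+1)`)
`‖Elog (u t * star (u t')) X‖ ≤ exp(-∑_{p ∈ T} (1 - cos (dot (t-t') (F p)))/p) + c^2/16`
`≤ exp(C₁ - ∑_{p ≤ X} ..) + c^2/16` (`tt_low` with `a p = 1 - cos (dot (t - t') (F p)) ∈ [0, 2]`)
`≤ exp(C₁ + C - c₀ (‖t - t'‖ m^(κ/2))^σ) + c^2/16` (`Spread`, `‖t - t'‖ ≤ ρ₁ ≤ b`, since all coordinates are).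
With `ρ = m^(-(κ/2))`: `‖t - t'‖ m^(κ/2) = dist t t'/ρ`, `P'` is `ρ`-separated, so by `pack_sum` the sum over `t'`
of the first terms is `≤ exp(C₁ + C) C₂ = C₃`.
Altogether `k^2 c^2/4 ≤ k C₃ + k^2 c^2/16`, so `k (3 c^2/16) ≤ C₃`, `k ≤ 16 C₃/(3 c^2)`, a contradiction to
`k > 16 C₃/c^2 ≥ 0` (`C₃ ≥ 0`; `k > 0`).
-/

set_option autoImplicit false

namespace Pool.Agent.Work.MP_58cfe3_nt

open Filter Topology

private theorem s_norm_ei (x : ℝ) : ‖ei x‖ = 1 := by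
  unfold ei; exact Complex.norm_exp_ofReal_mul_I x

private theorem s_ei_add (x y : ℝ) : ei (x + y) = ei x * ei y := by
  unfold ei; rw [← Complex.exp_add]; congr 1; push_cast; ring

private theorem s_ei_star (x : ℝ) : star (ei x) = ei (-x) := by
  unfold ei
  rw [Complex.star_def, ← Complex.exp_conj]
  simp

private theorem s_ei_int (j : ℤ) : ei (2 * Real.pi * j) = 1 := by
  unfold ei
  rw [Complex.exp_eq_one_iff]
  exact ⟨j, by push_cast; ring⟩

private theorem s_ei_sub_one (x : ℝ) : ‖ei x - 1‖ ≤ |x| := by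
  unfold ei
  rw [mul_comm]
  exact Real.norm_exp_I_mul_ofReal_sub_one_le

private theorem s_dot_sub {d : ℕ} (s t v : Fin d → ℝ) : dot (s - t) v = dot s v - dot t v := by
  unfold dot
  rw [← Finset.sum_sub_distrib]
  exact Finset.sum_congr rfl fun l _ => by simp only [Pi.sub_apply]; ring

/-- step 1: the pointwise estimate at a good integer -/
private theorem s_point {d : ℕ} {t t₀ D DTn FX E : Fin d → ℝ} {J : ℤ} {J₀ E₀ ρ₁ ρ₂ c : ℝ}
    (hJ : |(J : ℝ)| ≤ J₀) (hE : ∀ l, |E l| ≤ E₀) (hD : ∀ l, D l = DTn l + J * FX l + E l)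
    (h1 : ∀ l, |t l - t₀ l| ≤ ρ₁) (h2 : ∃ j : ℤ, |dot t FX - dot t₀ FX - 2 * Real.pi * j| ≤ ρ₂)
    (hρ₁ : 0 ≤ ρ₁) (hb : J₀ * ρ₂ + d * (ρ₁ * E₀) ≤ c / 8) {z : ℂ} (hz : ‖z‖ ≤ 1) :
    ‖z * ei (dot t D) - (z * ei (dot t₀ D) * ei (-(dot t₀ DTn))) * ei (dot t DTn)‖ ≤ c / 8 := by
  obtain ⟨j, hj⟩ := h2
  have e1 : dot t D - dot t₀ D - (dot t DTn - dot t₀ DTn) =
      J * (dot t FX - dot t₀ FX - 2 * Real.pi * j) + dot (t - t₀) E + 2 * Real.pi * ((J * j : ℤ) : ℝ) := by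
    have : ∀ s : Fin d → ℝ, dot s D = dot s DTn + J * dot s FX + dot s E := by
      intro s
      unfold dot
      rw [Finset.mul_sum, ← Finset.sum_add_distrib, ← Finset.sum_add_distrib]
      exact Finset.sum_congr rfl fun l _ => by rw [hD l]; ring
    rw [this t, this t₀, s_dot_sub]
    push_cast
    ring
  set y := J * (dot t FX - dot t₀ FX - 2 * Real.pi * j) + dot (t - t₀) E with hy
  have hyb : |y| ≤ c / 8 := by
    have a1 : |(J : ℝ) * (dot t FX - dot t₀ FX - 2 * Real.pi * j)| ≤ J₀ * ρ₂ := by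
      rw [abs_mul]
      exact mul_le_mul hJ hj (abs_nonneg _) (le_trans (abs_nonneg _) hJ)
    have a2 : |dot (t - t₀) E| ≤ d * (ρ₁ * E₀) := by
      unfold dot
      refine le_trans (Finset.abs_sum_le_sum_abs _ _) ?_
      refine le_trans (Finset.sum_le_sum (g := fun _ => ρ₁ * E₀) fun l _ => ?_) (by simp)
      rw [abs_mul]
      exact mul_le_mul (by simpa using h1 l) (hE l) (abs_nonneg _) hρ₁
    rw [hy]
    exact le_trans (abs_add_le _ _) (le_trans (add_le_add a1 a2) hb)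
  have e2 : z * ei (dot t D) = (z * ei (dot t₀ D) * ei (-(dot t₀ DTn)) * ei (dot t DTn)) * ei y := by
    have : dot t D = dot t₀ D + -(dot t₀ DTn) + dot t DTn + (y + 2 * Real.pi * ((J * j : ℤ) : ℝ)) := by
      rw [← e1]; ring
    rw [this, s_ei_add, s_ei_add, s_ei_add, s_ei_add, s_ei_int]
    ring
  rw [e2, show (z * ei (dot t₀ D) * ei (-(dot t₀ DTn)) * ei (dot t DTn)) * ei y -
    (z * ei (dot t₀ D) * ei (-(dot t₀ DTn))) * ei (dot t DTn) =
    (z * ei (dot t₀ D) * ei (-(dot t₀ DTn)) * ei (dot t DTn)) * (ei y - 1) by ring, norm_mul,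
    norm_mul, norm_mul, norm_mul, s_norm_ei, s_norm_ei, s_norm_ei, mul_one, mul_one, mul_one]
  calc ‖z‖ * ‖ei y - 1‖ ≤ 1 * |y| := mul_le_mul hz (s_ei_sub_one y) (norm_nonneg _) zero_le_one
    _ ≤ c / 8 := by rw [one_mul]; exact hyb

/-- step 2, final inequality -/
private theorem s_final {k c C₃ : ℝ} (hk : 0 < k) (hc : 0 < c)
    (h : (k * (c / 2)) ^ 2 ≤ k * C₃ + k ^ 2 * (c ^ 2 / 16)) (hC : 0 ≤ C₃)
    (hk2 : 16 * C₃ / c ^ 2 < k) : False := by
  have hc2 : 0 < c ^ 2 := by positivity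
  rw [div_lt_iff₀ hc2] at hk2
  have h1 : k * (k * c ^ 2 * (3 / 16)) ≤ k * C₃ := by nlinarith
  have h2 : k * c ^ 2 * (3 / 16) ≤ C₃ := le_of_mul_le_mul_left h1 hk
  nlinarith

theorem sep_bound {d : ℕ} {F : ℕ → Fin d → ℝ} (hF : SlowVar F) {κ : ℝ} (hs : Spread F κ)
    {r : ℕ} (hr : 1 ≤ r) {e : Fin r → ℤ} (he : Function.Injective (vert e)) (T₀ : ℝ) {c : ℝ}
    (hc : 0 < c) :
    ∃ K : ℕ, ∀ᶠ X : ℕ in atTop, ∀ G : ℤ → ℂ, (∀ n, ‖G n‖ ≤ 1) → ∀ P : Finset (Fin d → ℝ),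
      (∀ t ∈ P, ∀ l, |t l| ≤ T₀) → Sepd P (Real.log (Real.log X) ^ (-(κ / 2))) →
      (∀ t ∈ P, c ≤ ‖Elog (fun n => G n * ei (dot t (DD F e n))) X‖) → P.card ≤ K := by
  have hη : 0 < c ^ 2 / 16 := by positivity
  obtain ⟨θ, hθ0, hθ1, w₁, hkub⟩ := kub_log he hη
  obtain ⟨w₂, hgood⟩ := good_log (vert e) (η := c / 8) (by positivity)
  set w := max (max w₁ w₂) (2 ^ (r + 1)) with hw
  obtain ⟨A₀, hgood⟩ := hgood w (le_trans (le_max_right _ _) (le_max_left _ _))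
  obtain ⟨J₀, E₀, hJ0, hE0, hdec⟩ := good_decomp hF e w A₀ hθ0 hθ1
  obtain ⟨C₁, htt⟩ := tt_low w hθ0 hθ1
  obtain ⟨c₀, σ, C, b, hc0, hσ, hb, hspr⟩ := hs
  obtain ⟨C₂, hpack⟩ := pack_sum d hc0 hσ
  set C₂' := max C₂ 0 with hC2'
  set ρ₁ := min b (c / (16 * (d + 1) * (E₀ + 1))) with hρ₁
  set ρ₂ := c / (16 * (J₀ + 1)) with hρ₂
  have hρ₁0 : 0 < ρ₁ := lt_min hb (by positivity)
  have hρ₂0 : 0 < ρ₂ := by positivity
  obtain ⟨N, hcell⟩ := cell_pigeon d T₀ hρ₁0 hρ₂0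
  set C₃ := Real.exp (C + C₁) * C₂' with hC3
  have hC30 : 0 ≤ C₃ := by positivity
  have hbd : J₀ * ρ₂ + d * (ρ₁ * E₀) ≤ c / 8 := by
    have a1 : J₀ * ρ₂ ≤ c / 16 := by
      rw [hρ₂, mul_div_assoc', div_le_div_iff₀ (by positivity) (by norm_num)]
      nlinarith
    have a2 : (d : ℝ) * (ρ₁ * E₀) ≤ c / 16 := by
      have a3 : ρ₁ ≤ c / (16 * (d + 1) * (E₀ + 1)) := min_le_right _ _
      have a4 : (d : ℝ) * (ρ₁ * E₀) ≤ (d + 1) * ((c / (16 * (d + 1) * (E₀ + 1))) * (E₀ + 1)) := by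
        have hd : (0 : ℝ) ≤ d := Nat.cast_nonneg d
        refine mul_le_mul (by linarith) ?_ (by positivity) (by positivity)
        exact mul_le_mul a3 (by linarith) hE0 (by positivity)
      refine le_trans a4 (le_of_eq ?_)
      have hd1 : (d : ℝ) + 1 ≠ 0 := by positivity
      have hE1 : E₀ + 1 ≠ 0 := by positivity
      field_simp
    linarith
  refine ⟨N * ⌈16 * C₃ / c ^ 2⌉₊, ?_⟩
  have hX3 : ∀ᶠ X : ℕ in atTop, 0 < Real.log (Real.log X) := by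
    have h1 : Tendsto (fun X : ℕ => Real.log (Real.log (X : ℝ))) atTop atTop :=
      Real.tendsto_log_atTop.comp (Real.tendsto_log_atTop.comp tendsto_natCast_atTop_atTop)
    exact h1.eventually_gt_atTop 0
  filter_upwards [hkub, hgood, hdec, htt, hspr, hX3] with X hkub hgood hdec htt hspr hX3 G hG P hPT
    hPs hPc
  by_contra hcard
  rw [not_le] at hcard
  obtain ⟨FX, hFX⟩ := hdec
  obtain ⟨P', hP'P, hP'k, hP'⟩ := hcell FX P hPT _ hcard
  have hk0 : 0 < P'.card := lt_of_le_of_lt (Nat.zero_le _) hP'k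
  obtain ⟨t₀, ht₀⟩ := Finset.card_pos.1 hk0
  set T := TT w X θ with hT
  have hTp : ∀ p ∈ T, p.Prime ∧ w < p ∧ (p : ℝ) ≤ (X : ℝ) ^ θ := by
    intro p hp
    rw [hT, TT, Finset.mem_filter] at hp
    exact hp.2
  set G' : ℤ → ℂ := fun n => G n * ei (dot t₀ (DD F e n)) * ei (-(dot t₀ (DT F e T n))) with hG'
  have hG'b : ∀ n, ‖G' n‖ ≤ 1 := by
    intro n
    rw [hG', norm_mul, norm_mul, s_norm_ei, s_norm_ei, mul_one, mul_one]
    exact hG n
  -- step 1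
  have hstep1 : ∀ t ∈ P', c / 2 ≤ ‖Elog (fun n => G' n * ei (dot t (DT F e T n))) X‖ := by
    intro t ht
    have h1 := hgood (fun n => G n * ei (dot t (DD F e n))) (fun n => G' n * ei (dot t (DT F e T n)))
      (fun n => by rw [norm_mul, s_norm_ei, mul_one]; exact hG n)
      (fun n => by rw [norm_mul, s_norm_ei, mul_one]; exact hG'b n) (c / 8) (by positivity) ?_
    · have h2 := hPc t (hP'P ht)
      have h3 := norm_sub_norm_le (Elog (fun n => G n * ei (dot t (DD F e n))) X)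
        (Elog (fun n => G' n * ei (dot t (DT F e T n))) X)
      linarith
    · intro n hn hgd
      obtain ⟨J, E, hJ, hE, hD⟩ := hFX n hn hgd
      exact s_point hJ hE hD (hP' t ht t₀ ht₀).1 (hP' t ht t₀ ht₀).2 hρ₁0.le hbd (hG _)
  -- step 2
  have hpair : ∀ t ∈ P', ∀ t' ∈ P', ‖Elog (fun n => ei (dot t (DT F e T n)) *
      star (ei (dot t' (DT F e T n)))) X‖ ≤
        Real.exp (C + C₁) * Real.exp (-(c₀ * (dist t t' / Real.log (Real.log X) ^ (-(κ / 2))) ^ σ)) +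
          c ^ 2 / 16 := by
    intro t ht t' ht'
    have h1 : (fun n => ei (dot t (DT F e T n)) * star (ei (dot t' (DT F e T n)))) =
        FF (vert e) T (uu F (t - t')) := by
      funext n
      rw [ff_ei, s_ei_star, ← s_ei_add, s_dot_sub]
      congr 1
    rw [h1]
    have h2 := hkub T (fun p hp => ⟨(hTp p hp).1, lt_of_le_of_lt
      (le_trans (le_max_left _ _) (le_max_left _ _)) (hTp p hp).2.1, (hTp p hp).2.2⟩)
      (uu F (t - t')) (fun p A => by unfold uu; rw [s_norm_ei])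
    have h3 := model_le F hr (t - t') (T := T) (fun p hp => le_trans (le_max_right _ _)
      (hTp p hp).2.1.le)
    have h4 := htt (fun p => 1 - Real.cos (dot (t - t') (F p)))
      (fun p => by linarith [Real.cos_le_one (dot (t - t') (F p))])
      (fun p => by linarith [Real.neg_one_le_cos (dot (t - t') (F p))])
    have hnorm : ‖t - t'‖ ≤ b := by
      rw [pi_norm_le_iff_of_nonneg hb.le]
      intro l
      rw [Pi.sub_apply, Real.norm_eq_abs]
      exact le_trans ((hP' t ht t' ht').1 l) (min_le_left _ _)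
    have h5 := hspr (t - t') hnorm
    have h6 : ‖t - t'‖ * Real.log (Real.log X) ^ (κ / 2) =
        dist t t' / Real.log (Real.log X) ^ (-(κ / 2)) := by
      rw [Real.rpow_neg hX3.le, div_inv_eq_mul, dist_eq_norm]
    rw [h6] at h5
    have h7 : ‖Elog (FF (vert e) T (uu F (t - t'))) X‖ ≤
        Real.exp (-∑ p ∈ T, (1 - Real.cos (dot (t - t') (F p))) / p) + c ^ 2 / 16 := by
      have h8 := norm_sub_norm_le (Elog (FF (vert e) T (uu F (t - t'))) X)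
        (∏ p ∈ T, (1 - (∑ A : Finset (Fin r), (1 - uu F (t - t') p A)) / (p : ℂ)))
      linarith
    refine le_trans h7 (add_le_add ?_ le_rfl)
    rw [← Real.exp_add]
    apply Real.exp_le_exp.2
    linarith
  have hbes := bessel P' (fun t n => ei (dot t (DT F e T n))) hG'b X
  have hlow : (P'.card : ℝ) * (c / 2) ≤ ∑ t ∈ P', ‖Elog (fun n => G' n * ei (dot t (DT F e T n))) X‖ := by
    rw [← nsmul_eq_mul]
    exact Finset.card_nsmul_le_sum _ _ _ hstep1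
  have hρ : 0 < Real.log (Real.log X) ^ (-(κ / 2)) := Real.rpow_pos_of_pos hX3 _
  have hP's : Sepd P' (Real.log (Real.log X) ^ (-(κ / 2))) :=
    fun t ht t' ht' hne => hPs t (hP'P ht) t' (hP'P ht') hne
  have hup : ∑ t ∈ P', ∑ t' ∈ P', ‖Elog (fun n => ei (dot t (DT F e T n)) *
      star (ei (dot t' (DT F e T n)))) X‖ ≤ P'.card * C₃ + (P'.card : ℝ) ^ 2 * (c ^ 2 / 16) := by
    have h1 : ∀ t ∈ P', ∑ t' ∈ P', ‖Elog (fun n => ei (dot t (DT F e T n)) *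
        star (ei (dot t' (DT F e T n)))) X‖ ≤ C₃ + P'.card * (c ^ 2 / 16) := by
      intro t ht
      refine le_trans (Finset.sum_le_sum (hpair t ht)) ?_
      rw [Finset.sum_add_distrib, ← Finset.mul_sum, Finset.sum_const, nsmul_eq_mul]
      refine add_le_add ?_ le_rfl
      exact mul_le_mul_of_nonneg_left (le_trans (hpack _ hρ P' hP's t ht) (le_max_left _ _))
        (Real.exp_pos _).le
    refine le_trans (Finset.sum_le_sum h1) ?_
    rw [Finset.sum_const, nsmul_eq_mul]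
    apply le_of_eq
    ring
  have hk0' : (0 : ℝ) < P'.card := by exact_mod_cast hk0
  refine s_final hk0' hc (le_trans (pow_le_pow_left₀ (by positivity) hlow 2) (le_trans hbes hup))
    hC30 ?_
  exact lt_of_le_of_lt (Nat.le_ceil _) (by exact_mod_cast hP'k)

end Pool.Agent.Work.MP_58cfe3_nt
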