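import Pool.Agent.Work.MP_58cfe3_nt.Z.Tw
import Pool.Agent.Work.MP_58cfe3_nt.Z.Sep
import Pool.Agent.Work.MP_58cfe3_nt.Z.Scal
import Pool.Agent.Work.MP_58cfe3_nt.Z.LLm
import Pool.Agent.Work.MP_58cfe3_nt.Z.HAll
import Pool.Agent.Work.MP_58cfe3_nt.Z.HDens

/-!
# Block Z, module Exc (size M)

The exceptional parameters for one cube, one bound `c` and one box.

PROOF. Put `q t X = ‖Elog (cube (defo g F t) e) X‖ = ‖Elog (fun n => cube g e n * ei (dot t (DD F e n))) X‖`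
(`cube_defo`; `‖cube ..‖ ≤ 1` by `norm_cube_le` of `Basic` since `‖g n‖ ≤ 1`, and `‖ei x‖ = 1`).
`elog_scale` with `c/2` gives `δ`. Put `A m = {t | (∀ l, |t l| ≤ T₀) ∧ c/2 ≤ q t (sc δ m)}`.
CLAIM: `Thin A K C (κ/2)` with `C = (δ/2)^(-(κ/2)) > 0` and `K` from `sep_bound .. T₀ (c/2)`. Indeed let `m` be large
and `P ⊆ A m` with `Sepd P (C m^(-(κ/2)))`. By `sc_loglog`, `log log (sc δ m) ≥ (δ/2) m > 0`, so
`(log log (sc δ m))^(-(κ/2)) ≤ ((δ/2) m)^(-(κ/2)) = C m^(-(κ/2))` (`Real.rpow_le_rpow_of_nonpos` and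
`Real.mul_rpow`), hence `P` is also `(log log (sc δ m))^(-(κ/2))`-separated, and `sep_bound` at `X = sc δ m`
(large, by `sc_tendsto`), with `G = cube g e`, gives `P.card ≤ K`.
FIRST statement: if `|t l| ≤ T₀` and `c ≤ q t X` for infinitely many `X`, then for each `M` there is such an
`X` in some `[sc δ m, sc δ (m+1))`, `m ≥ M` (`sc_exists`), and `q t (sc δ m) ≥ c - c/2` by `elog_scale` (applied to
`f = cube (defo g F t) e`, which is bounded by `1`); so `t ∈ A m` for infinitely many `m`. `dim_limsup` gives the bound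
`1/(κ/2) = 2/κ`.
SECOND statement: if `|t l| ≤ T₀` and `B' = {m | t ∈ A m}` has density zero, then `B = {X | c ≤ q t X}` is `LLNull`
by `ll_of_dens` (its first hypothesis is the implication just shown: `X ∈ B`, `sc δ m ≤ X < sc δ (m+1)`, `m` large
imply `t ∈ A m`). So the set is contained in the set of `dim_dens`.
(`dimH_mono`.)
-/

set_option autoImplicit false

namespace Pool.Agent.Work.MP_58cfe3_nt

open Filter Topology

private theorem x_norm_ei (x : ℝ) : ‖ei x‖ = 1 := by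
  unfold ei; exact Complex.norm_exp_ofReal_mul_I x

/-- the sets of parameters which are bad at the scale `sc δ m` -/
private def xA (g : ℤ → ℂ) {d : ℕ} (F : ℕ → Fin d → ℝ) {r : ℕ} (e : Fin r → ℤ) (T₀ c δ : ℝ)
    (m : ℕ) : Set (Fin d → ℝ) :=
  {t | (∀ l, |t l| ≤ T₀) ∧ c / 2 ≤ ‖Elog (cube (defo g F t) e) (sc δ m)‖}

private theorem x_cube_le {g : ℤ → ℂ} (hg : ∀ n, ‖g n‖ ≤ 1) {d : ℕ} (F : ℕ → Fin d → ℝ)
    (t : Fin d → ℝ) {r : ℕ} (e : Fin r → ℤ) (n : ℤ) : ‖cube (defo g F t) e n‖ ≤ 1 := by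
  rw [cube_defo, norm_mul, x_norm_ei, mul_one]
  exact norm_cube_le hg e n

private theorem x_thin {g : ℤ → ℂ} (hg : ∀ n, ‖g n‖ ≤ 1) {d : ℕ} {F : ℕ → Fin d → ℝ}
    (hF : SlowVar F) {κ : ℝ} (hκ : 0 < κ) (hs : Spread F κ) {r : ℕ} (hr : 1 ≤ r)
    {e : Fin r → ℤ} (he : Function.Injective (vert e)) (T₀ : ℝ) {c : ℝ} (hc : 0 < c) {δ : ℝ}
    (hδ : 0 < δ) : ∃ K : ℕ, Thin (xA g F e T₀ c δ) K ((δ / 2) ^ (-(κ / 2))) (κ / 2) := by
  obtain ⟨K, hK⟩ := sep_bound hF hs hr he T₀ (c := c / 2) (by positivity)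
  refine ⟨K, ?_⟩
  filter_upwards [(sc_tendsto hδ).eventually hK, sc_loglog hδ, eventually_ge_atTop 1] with m hm hl
    hm1 P hP hPs
  refine hm (cube g e) (norm_cube_le hg e) P (fun t ht => (hP t ht).1) ?_ (fun t ht => ?_)
  · intro t ht t' ht' hne
    refine le_trans ?_ (hPs t ht t' ht' hne)
    have hm0 : (0 : ℝ) < m := by exact_mod_cast hm1
    rw [← Real.mul_rpow (by positivity) hm0.le]
    exact Real.rpow_le_rpow_of_nonpos (by positivity) hl (by linarith)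
  · have h := (hP t ht).2
    have h1 : (fun n => cube g e n * ei (dot t (DD F e n))) = cube (defo g F t) e := by
      funext n; rw [cube_defo]
    rw [h1]
    exact h

private theorem x_step {g : ℤ → ℂ} (hg : ∀ n, ‖g n‖ ≤ 1) {d : ℕ} (F : ℕ → Fin d → ℝ)
    {r : ℕ} (e : Fin r → ℤ) (T₀ : ℝ) {c : ℝ} {δ : ℝ} {m X : ℕ}
    (h : ∀ f : ℤ → ℂ, (∀ n, ‖f n‖ ≤ 1) → ‖Elog f X - Elog f (sc δ m)‖ ≤ c / 2) {t : Fin d → ℝ}
    (ht : ∀ l, |t l| ≤ T₀) (hX : c ≤ ‖Elog (cube (defo g F t) e) X‖) :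
    t ∈ xA g F e T₀ c δ m := by
  refine ⟨ht, ?_⟩
  have h1 := h (cube (defo g F t) e) (x_cube_le hg F t e)
  have h2 := norm_sub_norm_le (Elog (cube (defo g F t) e) X) (Elog (cube (defo g F t) e) (sc δ m))
  linarith

theorem exc_all {g : ℤ → ℂ} (hg : ∀ n, ‖g n‖ ≤ 1) {d : ℕ} {F : ℕ → Fin d → ℝ} (hF : SlowVar F)
    {κ : ℝ} (hκ : 0 < κ) (hs : Spread F κ) {r : ℕ} (hr : 1 ≤ r) {e : Fin r → ℤ}
    (he : Function.Injective (vert e)) (T₀ : ℝ) {c : ℝ} (hc : 0 < c) :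
    dimH {t : Fin d → ℝ | (∀ l, |t l| ≤ T₀) ∧
      ∃ᶠ X : ℕ in atTop, c ≤ ‖Elog (cube (defo g F t) e) X‖} ≤ ENNReal.ofReal (2 / κ) := by
  obtain ⟨δ, hδ, hsc⟩ := elog_scale (c := c / 2) (by positivity)
  obtain ⟨K, hK⟩ := x_thin hg hF hκ hs hr he T₀ hc hδ
  have h1 := dim_limsup (Real.rpow_pos_of_pos (by positivity) _) (by positivity) hK
  rw [show 1 / (κ / 2) = 2 / κ by rw [one_div_div]] at h1
  refine le_trans (dimH_mono ?_) h1
  rintro t ⟨ht, hfr⟩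
  obtain ⟨M₀, hM₀⟩ := eventually_atTop.1 hsc
  show ∃ᶠ m : ℕ in atTop, t ∈ xA g F e T₀ c δ m
  rw [frequently_atTop]
  intro M
  obtain ⟨X, hX1, m, hm, hm1, hm2⟩ := (hfr.and_eventually (sc_exists hδ (max M M₀))).exists
  exact ⟨m, le_trans (le_max_left _ _) hm,
    x_step hg F e T₀ (hM₀ m (le_trans (le_max_right _ _) hm) X hm1 hm2) ht hX1⟩

theorem exc_ll {g : ℤ → ℂ} (hg : ∀ n, ‖g n‖ ≤ 1) {d : ℕ} {F : ℕ → Fin d → ℝ} (hF : SlowVar F)
    {κ : ℝ} (hκ : 0 < κ) (hs : Spread F κ) {r : ℕ} (hr : 1 ≤ r) {e : Fin r → ℤ}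
    (he : Function.Injective (vert e)) (T₀ : ℝ) {c : ℝ} (hc : 0 < c) :
    dimH {t : Fin d → ℝ | (∀ l, |t l| ≤ T₀) ∧
      ¬ LLNull {X : ℕ | c ≤ ‖Elog (cube (defo g F t) e) X‖}} = 0 := by
  obtain ⟨δ, hδ, hsc⟩ := elog_scale (c := c / 2) (by positivity)
  obtain ⟨K, hK⟩ := x_thin hg hF hκ hs hr he T₀ hc hδ
  have h1 := dim_dens (Real.rpow_pos_of_pos (by positivity) _) (by positivity) hK
  refine nonpos_iff_eq_zero.1 (le_trans (dimH_mono ?_) h1.le)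
  rintro t ⟨ht, hll⟩ hten
  apply hll
  refine ll_of_dens hδ (B' := {m | t ∈ xA g F e T₀ c δ m}) ?_ hten
  filter_upwards [hsc] with m hm X hX1 hX2 hXB
  exact x_step hg F e T₀ (hm X hX1 hX2) ht hXB

end Pool.Agent.Work.MP_58cfe3_nt
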