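import Pool.Agent.Work.MP_58cfe3_nt.Z.Defs

/-!
# Block Z, module HRe (size S)

(1) A subset of `ℝ^d` of Hausdorff dimension `< d` is Lebesgue null. (2) Transfer from `Fin 1 → ℝ` to `ℝ`.

PROOF. (1) `hausdorffMeasure_of_dimH_lt` (`μH[d] E = 0`) and `MeasureTheory.hausdorffMeasure_pi_real :
μH[card ι] = volume` on `ι → ℝ`.
(2) The map `ψ : ℝ → (Fin 1 → ℝ)`, `ψ t = fun _ => t`, is an isometry, and `ψ '' {t | Q (ψ t)} ⊆ {t | Q t}`;
`Isometry.dimH_image` and `dimH_mono`.
(3) `(log p)^(i t) = exp(i t log log p)` for a prime `p` (`0 < log p`, `Complex.cpow_def_of_ne_zero`, `Complex.ofReal_log`), so the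
two twists agree: in `twist` only the values of `ε` at primes matter (`n.toNat.primeFactors`), `dot t v = t 0 * v 0` on
`Fin 1` (`Fin.sum_univ_one`/`Finset.univ_unique`).
-/

set_option autoImplicit false

namespace Pool.Agent.Work.MP_58cfe3_nt

open Filter Topology MeasureTheory

theorem null_of_dim {d : ℕ} {E : Set (Fin d → ℝ)} (h : dimH E < d) : volume E = 0 := by
  have h1 : dimH E < ((d : NNReal) : ENNReal) := by simpa using h
  have h2 := hausdorffMeasure_of_dimH_lt h1
  have h3 : (μH[(Fintype.card (Fin d) : ℝ)] : Measure (Fin d → ℝ)) = volume :=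
    MeasureTheory.hausdorffMeasure_pi_real
  rw [← h3, Fintype.card_fin]
  simpa using h2

theorem dim_real {Q : (Fin 1 → ℝ) → Prop} :
    dimH {t : ℝ | Q fun _ => t} ≤ dimH {t : Fin 1 → ℝ | Q t} := by
  have hi : Isometry (fun (t : ℝ) (_ : Fin 1) => t) := by
    refine Isometry.of_dist_eq fun s t => ?_
    rw [dist_pi_def]
    simp
  rw [← hi.dimH_image]
  refine dimH_mono ?_
  rintro _ ⟨t, ht, rfl⟩
  exact ht

theorem null_of_dim_real {E : Set ℝ} (h : dimH E < 1) : volume E = 0 := by
  have h1 : dimH E < ((1 : NNReal) : ENNReal) := by simpa using h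
  have h2 := hausdorffMeasure_of_dimH_lt h1
  have h3 : (μH[(1 : ℝ)] : Measure ℝ) = volume := MeasureTheory.hausdorffMeasure_real
  rw [← h3]
  simpa using h2

theorem defo_loglog (g : ℤ → ℂ) (t : ℝ) :
    (twist g Set.univ fun p => (Real.log p : ℂ) ^ ((t : ℂ) * Complex.I)) =
      defo g (fun (p : ℕ) (_ : Fin 1) => Real.log (Real.log p)) fun _ => t := by
  funext n
  unfold defo twist
  congr 1
  refine Finset.prod_congr rfl fun p hp => ?_
  have hpp : p.Prime := Nat.prime_of_mem_primeFactors hp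
  have hlog : 0 < Real.log p := Real.log_pos (by exact_mod_cast hpp.one_lt)
  have hne : ((Real.log p : ℝ) : ℂ) ≠ 0 := by exact_mod_cast hlog.ne'
  have h1 : ((Real.log p : ℝ) : ℂ) ^ ((t : ℂ) * Complex.I) =
      ei (dot (fun _ : Fin 1 => t) fun _ => Real.log (Real.log p)) := by
    rw [Complex.cpow_def_of_ne_zero hne, ← Complex.ofReal_log hlog.le]
    unfold ei dot
    rw [Fin.sum_univ_one]
    congr 1
    push_cast
    ring
  simp only [h1]

end Pool.Agent.Work.MP_58cfe3_nt
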