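import Pool.Agent.Work.MP_58cfe3_nt.Z.Defs
import Pool.Agent.Work.MP_58cfe3_nt.LDiag

/-!
# Block Z, module LLun (size S-M)

Countably many sets of scales of loglog density zero: there is ONE set `S` of scales of loglog density one
which eventually avoids each of them.

PROOF. (1) `LLNull` is monotone (`llw` is monotone in the set, nonnegative terms, `log log Y > 0` for large
`Y`; squeeze) and stable under the union of two sets (`llw (B ∪ B') Y ≤ llw B Y + llw B' Y`); the empty set
is `LLNull`.
(2) If the index type `ι` is empty take `S = univ`. Otherwise let `s : ℕ → ι` be surjective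
(`exists_surjective_nat`), `B'_k = ⋃_{j ≤ k} B (s j)`: a monotone sequence of `LLNull` sets. `ll_diag` gives
`κ : ℕ → ℕ`, `κ → ∞`, with `{X | X ∈ B'_(κ X)}` of loglog density zero. Put `S = {X | X ∉ B'_(κ X)}`. For `i = s j`: for
all large `X`, `κ X ≥ j`, so if moreover `X ∈ S`, then `X ∉ B'_(κ X) ⊇ B i`.
-/

set_option autoImplicit false

namespace Pool.Agent.Work.MP_58cfe3_nt

open Filter Topology

private theorem lu_mono {B C : Set ℕ} (h : B ⊆ C) (Y : ℕ) : llw B Y ≤ llw C Y := by
  classical
  unfold llw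
  refine Finset.sum_le_sum_of_subset_of_nonneg ?_ fun X hX _ => ?_
  · intro X hX
    rw [Finset.mem_filter] at hX ⊢
    exact ⟨hX.1, h hX.2⟩
  · have h1 := (Finset.mem_Icc.1 (Finset.mem_filter.1 hX).1).1
    have h2 : (0 : ℝ) ≤ Real.log X := Real.log_natCast_nonneg X
    positivity

private theorem lu_nonneg (B : Set ℕ) (Y : ℕ) : 0 ≤ llw B Y := by
  classical
  unfold llw
  refine Finset.sum_nonneg fun X _ => ?_
  have h2 : (0 : ℝ) ≤ Real.log X := Real.log_natCast_nonneg X
  positivity

private theorem lu_loglog : Tendsto (fun Y : ℕ => Real.log (Real.log Y)) atTop atTop :=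
  Real.tendsto_log_atTop.comp (Real.tendsto_log_atTop.comp tendsto_natCast_atTop_atTop)

private theorem lu_union (B C : Set ℕ) (Y : ℕ) : llw (B ∪ C) Y ≤ llw B Y + llw C Y := by
  classical
  unfold llw
  rw [Finset.sum_filter, Finset.sum_filter, Finset.sum_filter, ← Finset.sum_add_distrib]
  refine Finset.sum_le_sum fun X _ => ?_
  have h0 : 0 ≤ 1 / ((X : ℝ) * Real.log X) := by
    have : (0 : ℝ) ≤ Real.log X := Real.log_natCast_nonneg X
    positivity
  by_cases h1 : X ∈ B
  · by_cases h2 : X ∈ C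
    · rw [if_pos (Set.mem_union_left C h1), if_pos h1, if_pos h2]
      linarith
    · rw [if_pos (Set.mem_union_left C h1), if_pos h1, if_neg h2, add_zero]
  · by_cases h2 : X ∈ C
    · rw [if_pos (Set.mem_union_right B h2), if_neg h1, if_pos h2, zero_add]
    · have h3 : X ∉ B ∪ C := by
        rintro (h | h)
        · exact h1 h
        · exact h2 h
      rw [if_neg h3, if_neg h1, if_neg h2, add_zero]

private theorem lu_null_mono {B B' : Set ℕ} (h : B ⊆ B') (hB : LLNull B') : LLNull B := by
  unfold LLNull at hB ⊢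
  refine squeeze_zero' ?_ ?_ hB
  · filter_upwards [lu_loglog.eventually_gt_atTop 0] with Y hY
    exact div_nonneg (lu_nonneg _ _) hY.le
  · filter_upwards [lu_loglog.eventually_gt_atTop 0] with Y hY
    exact div_le_div_of_nonneg_right (lu_mono h Y) hY.le

private theorem lu_null_union {B C : Set ℕ} (hB : LLNull B) (hC : LLNull C) :
    LLNull (B ∪ C) := by
  unfold LLNull at hB hC ⊢
  have h1 := hB.add hC
  rw [add_zero] at h1
  refine squeeze_zero' ?_ ?_ h1
  · filter_upwards [lu_loglog.eventually_gt_atTop 0] with Y hY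
    exact div_nonneg (lu_nonneg _ _) hY.le
  · filter_upwards [lu_loglog.eventually_gt_atTop 0] with Y hY
    rw [← add_div]
    exact div_le_div_of_nonneg_right (lu_union B C Y) hY.le

private theorem lu_null_empty : LLNull (∅ : Set ℕ) := by
  unfold LLNull
  have h : ∀ Y : ℕ, llw ∅ Y / Real.log (Real.log Y) = 0 := by
    intro Y
    unfold llw
    simp
  simp only [h]
  exact tendsto_const_nhds

theorem ll_set {ι : Type} [Countable ι] {B : ι → Set ℕ} (h : ∀ i, LLNull (B i)) :
    ∃ S : Set ℕ, LLNull Sᶜ ∧ ∀ i, ∀ᶠ X in atTop ⊓ 𝓟 S, X ∉ B i := by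
  classical
  rcases isEmpty_or_nonempty ι with hι | hι
  · refine ⟨Set.univ, ?_, fun i => isEmptyElim i⟩
    rw [Set.compl_univ]
    exact lu_null_empty
  · obtain ⟨s, hs⟩ := exists_surjective_nat ι
    let B' : ℕ → Set ℕ := fun k => {X | ∃ j ≤ k, X ∈ B (s j)}
    have hm : Monotone B' := by
      rintro k k' hk X ⟨j, hj, hX⟩
      exact ⟨j, hj.trans hk, hX⟩
    have hnull : ∀ k, LLNull (B' k) := by
      intro k
      induction k with
      | zero =>
        refine lu_null_mono ?_ (h (s 0))
        rintro X ⟨j, hj, hX⟩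
        obtain rfl : j = 0 := by omega
        exact hX
      | succ k ih =>
        refine lu_null_mono ?_ (lu_null_union ih (h (s (k + 1))))
        rintro X ⟨j, hj, hX⟩
        rcases Nat.lt_or_ge k j with h1 | h1
        · obtain rfl : j = k + 1 := by omega
          exact Or.inr hX
        · exact Or.inl ⟨j, h1, hX⟩
    obtain ⟨κ, hκ, hn⟩ := ll_diag hm hnull
    refine ⟨{X | X ∉ B' (κ X)}, ?_, fun i => ?_⟩
    · have : ({X | X ∉ B' (κ X)} : Set ℕ)ᶜ = {X | X ∈ B' (κ X)} := by
        ext X
        simp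
      rw [this]
      exact hn
    · obtain ⟨j, rfl⟩ := hs i
      have i1 : (atTop ⊓ 𝓟 {X : ℕ | X ∉ B' (κ X)} : Filter ℕ) ≤ atTop := inf_le_left
      have i2 : (atTop ⊓ 𝓟 {X : ℕ | X ∉ B' (κ X)} : Filter ℕ) ≤ 𝓟 {X : ℕ | X ∉ B' (κ X)} :=
        inf_le_right
      filter_upwards [i1 (hκ.eventually_ge_atTop j), i2 (Filter.mem_principal_self _)]
        with X h1 h2 h3
      exact h2 ⟨j, h1, h3⟩

theorem ll_mono {B B' : Set ℕ} (h : B ⊆ B') (hB : LLNull B') : LLNull B := by
  exact lu_null_mono h hB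

end Pool.Agent.Work.MP_58cfe3_nt
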