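import Pool.Agent.Work.MP_58cfe3_nt.Z.Defs
import Pool.Agent.Work.MP_58cfe3_nt.RMul

/-!
# Block Z, module UDown (size S)

Fewer companions. Second statement: the deformation of a 1-bounded multiplicative function is 1-bounded
multiplicative.

PROOF. (1) Given `f : Fin r → ℤ → ℂ`, shifts `h, h'`, take `f' = Fin.snoc f (one)` (or `Fin.cons`), where
`one n = if 0 < n then 1 else 0` is 1-bounded multiplicative, and the shift `k = max (h + 1) 0 ≥ 0`, `k ≠ h`, for it. For
all `n ≥ 1`, `one (n + k) = 1`, so the two products agree at all `n ∈ [1, X]` and `Elog` is the same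
(`Elog` only uses `n ∈ Finset.Icc 1 X`).
(2) `twist_mulBdd` with `‖ei x‖ = 1`.
(3) `Universal g r` is `UniversalAt atTop g r` (definitional unfolding, `Iff.rfl`), likewise for `Cubes`.
-/

set_option autoImplicit false

namespace Pool.Agent.Work.MP_58cfe3_nt

open Filter Topology

private theorem u_one : MulBdd (fun n : ℤ => if 0 < n then (1 : ℂ) else 0) where
  nonpos n hn := by simp [not_lt.2 hn]
  bdd n := by split_ifs <;> simp
  mul m n hm hn _ := by simp [hm, hn, mul_pos hm hn]

theorem univ_down {l : Filter ℕ} {g : ℤ → ℂ} {r : ℕ} (h : UniversalAt l g (r + 1)) :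
    UniversalAt l g r := by
  intro f hf s s' hs
  set k : ℤ := max (s + 1) 0 with hk
  have hks : k ≠ s := by
    intro h0
    have : s + 1 ≤ k := le_max_left _ _
    omega
  have hk0 : 0 ≤ k := le_max_right _ _
  have h1 := h (Fin.cons (fun n : ℤ => if 0 < n then (1 : ℂ) else 0) f)
    (by
      intro i
      refine Fin.cases ?_ (fun j => ?_) i
      · simpa using u_one
      · simpa using hf j) s (Fin.cons k s')
    (by
      intro i
      refine Fin.cases ?_ (fun j => ?_) i
      · simpa using hks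
      · simpa using hs j)
  refine h1.congr fun X => ?_
  unfold Elog
  congr 1
  refine Finset.sum_congr rfl fun n hn => ?_
  have hn1 : 1 ≤ n := (Finset.mem_Icc.1 hn).1
  have hpos : 0 < (n : ℤ) + k := by omega
  congr 1
  show g (n + s) * ∏ i : Fin (r + 1), (Fin.cons (fun n : ℤ => if 0 < n then (1 : ℂ) else 0) f :
    Fin (r + 1) → ℤ → ℂ) i ((n : ℤ) + (Fin.cons k s' : Fin (r + 1) → ℤ) i) =
    g (n + s) * ∏ i, f i (n + s' i)
  rw [Fin.prod_univ_succ]
  simp [hpos]

theorem defo_mulBdd {g : ℤ → ℂ} (hg : MulBdd g) {d : ℕ} (F : ℕ → Fin d → ℝ) (t : Fin d → ℝ) :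
    MulBdd (defo g F t) := by
  unfold defo
  refine twist_mulBdd hg _ fun p => ?_
  unfold ei
  rw [Complex.norm_exp_ofReal_mul_I]

end Pool.Agent.Work.MP_58cfe3_nt
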