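import Pool.Agent.Work.MP_58cfe3_nt.Z.Exc
import Pool.Agent.Work.MP_58cfe3_nt.Z.LLun
import Pool.Agent.Work.MP_58cfe3_nt.Z.UDown
import Pool.Agent.Work.MP_58cfe3_nt.Z.ExA
import Pool.Agent.Work.MP_58cfe3_nt.Z.ExB
import Pool.Agent.Work.MP_58cfe3_nt.Z.HRe
import Pool.Agent.Work.MP_58cfe3_nt.WCrit
import Pool.Agent.Work.MP_58cfe3_nt.Crit

/-!
# Block Z, module Fin: assembly
-/

set_option autoImplicit false

namespace Pool.Agent.Work.MP_58cfe3_nt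

open Filter Topology MeasureTheory

private theorem z_small {l : Filter ℕ} {q : ℕ → ℂ}
    (h : ∀ j : ℕ, ∀ᶠ X in l, ¬ (1 / ((j : ℝ) + 1) ≤ ‖q X‖)) : Tendsto q l (𝓝 0) := by
  rw [tendsto_zero_iff_norm_tendsto_zero]
  refine Metric.tendsto_nhds.2 fun ε hε => ?_
  obtain ⟨j, hj⟩ := exists_nat_one_div_lt hε
  filter_upwards [h j] with X hX
  rw [Real.dist_0_eq_abs, abs_of_nonneg (norm_nonneg _)]
  exact lt_trans (not_le.1 hX) hj

private theorem z_box {d : ℕ} (t : Fin d → ℝ) : ∃ T : ℕ, ∀ l, |t l| ≤ (T : ℝ) := by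
  obtain ⟨T, hT⟩ := exists_nat_ge ‖t‖
  exact ⟨T, fun l => le_trans (by simpa using norm_le_pi_norm t l) hT⟩

theorem metric_all {g : ℤ → ℂ} (hg : MulBdd g) {d : ℕ} {F : ℕ → Fin d → ℝ} (hF : SlowVar F)
    {κ : ℝ} (hκ : 0 < κ) (hs : Spread F κ) :
    dimH {t : Fin d → ℝ | ¬ ∀ r : ℕ, Universal (defo g F t) r} ≤ ENNReal.ofReal (2 / κ) := by
  classical
  let I := Σ r : ℕ, {e : Fin (r + 1) → ℤ // Function.Injective (vert e)} × ℕ × ℕ
  let E : I → Set (Fin d → ℝ) := fun i => {t : Fin d → ℝ | (∀ l, |t l| ≤ (i.2.2.2 : ℝ)) ∧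
      ∃ᶠ X : ℕ in atTop, 1 / ((i.2.2.1 : ℝ) + 1) ≤ ‖Elog (cube (defo g F t) i.2.1.1) X‖}
  have hsub : {t : Fin d → ℝ | ¬ ∀ r : ℕ, Universal (defo g F t) r} ⊆ ⋃ i, E i := by
    intro t ht
    by_contra hcon
    apply ht
    intro r
    have hcub : Cubes (defo g F t) (r + 1) := by
      intro e he
      apply z_small
      intro j
      obtain ⟨T, hT⟩ := z_box t
      by_contra hfr
      exact hcon (Set.mem_iUnion.2 ⟨⟨r, ⟨e, he⟩, j, T⟩, hT, fun h => hfr h⟩)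
    exact univ_down (criterion (defo_mulBdd hg F t) hcub)
  refine le_trans (dimH_mono hsub) ?_
  rw [dimH_iUnion]
  refine iSup_le fun i => ?_
  exact exc_all hg.bdd hF hκ hs (Nat.succ_le_succ (Nat.zero_le _)) i.2.1.2 _
    (by positivity)

theorem metric_ll {g : ℤ → ℂ} (hg : MulBdd g) {d : ℕ} {F : ℕ → Fin d → ℝ} (hF : SlowVar F)
    {κ : ℝ} (hκ : 0 < κ) (hs : Spread F κ) :
    dimH {t : Fin d → ℝ | ¬ ∃ S : Set ℕ, LLNull Sᶜ ∧
      ∀ r : ℕ, UniversalAt (atTop ⊓ 𝓟 S) (defo g F t) r} = 0 := by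
  classical
  let I := Σ r : ℕ, {e : Fin (r + 1) → ℤ // Function.Injective (vert e)} × ℕ × ℕ
  let E : I → Set (Fin d → ℝ) := fun i => {t : Fin d → ℝ | (∀ l, |t l| ≤ (i.2.2.2 : ℝ)) ∧
      ¬ LLNull {X : ℕ | 1 / ((i.2.2.1 : ℝ) + 1) ≤ ‖Elog (cube (defo g F t) i.2.1.1) X‖}}
  have hsub : {t : Fin d → ℝ | ¬ ∃ S : Set ℕ, LLNull Sᶜ ∧
      ∀ r : ℕ, UniversalAt (atTop ⊓ 𝓟 S) (defo g F t) r} ⊆ ⋃ i, E i := by
    intro t ht
    by_contra hcon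
    apply ht
    obtain ⟨T, hT⟩ := z_box t
    have hll : ∀ i : (Σ r : ℕ, {e : Fin (r + 1) → ℤ // Function.Injective (vert e)} × ℕ),
        LLNull {X : ℕ | 1 / ((i.2.2 : ℝ) + 1) ≤ ‖Elog (cube (defo g F t) i.2.1.1) X‖} := by
      intro i
      by_contra hfr
      exact hcon (Set.mem_iUnion.2 ⟨⟨i.1, i.2.1, i.2.2, T⟩, hT, hfr⟩)
    obtain ⟨S, hS, hS'⟩ := ll_set hll
    refine ⟨S, hS, fun r => ?_⟩
    have hcub : CubesAt (atTop ⊓ 𝓟 S) (defo g F t) (r + 1) := by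
      intro e he
      apply z_small
      intro j
      exact hS' ⟨r, ⟨e, he⟩, j⟩
    exact univ_down (criterion_at inf_le_left (defo_mulBdd hg F t) hcub)
  refine nonpos_iff_eq_zero.1 (le_trans (dimH_mono hsub) ?_)
  rw [dimH_iUnion]
  refine iSup_le fun i => ?_
  exact le_of_eq (exc_ll hg.bdd hF hκ hs (Nat.succ_le_succ (Nat.zero_le _)) i.2.1.2 _
    (by positivity))

end Pool.Agent.Work.MP_58cfe3_nt
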