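import Pool.Agent.Work.MP_58cfe3_nt.Z.Defs

/-!
# Block Z, module HBase (size M)

Hausdorff dimension of a limsup set: if (for large `i`) every `ρ i`-separated finite subset of `B i` has
at most `N` elements and `∑ ρ i ^ s < ∞`, then `dimH (limsup B) ≤ s`.

PROOF. Let `i` be large (the hypotheses hold for all indices `≥ i₀`). Among the finite subsets `P` of `B i`
with `Sepd P (ρ i)` choose one of maximal cardinality (cardinalities are `≤ N`; `Nat.findGreatest`, or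
`Nat.sSup_mem`, or strong induction), say `P_i`. Every `x ∈ B i` is at distance `≤ ρ i` (even `< ρ i`) from a point of
`P_i` (otherwise `insert x P_i` would be larger). So `B i ⊆ ⋃_{t ∈ P_i} closedBall t (ρ i)`; enumerate `P_i` by
`Fin N` (if `P_i` is empty then `B i` is empty; repeat points, or use the empty set for the surplus
indices): `B i ⊆ ⋃_{j : Fin N} U i j` with `Metric.ediam (U i j) ≤ ENNReal.ofReal (2 ρ i)`.
Now apply `MeasureTheory.Measure.hausdorffMeasure_le_liminf_tsum` (dimension `s`) with the cover of the set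
`L = {t | ∃ᶠ i, t ∈ B i}` number `n`: the family `(i, j) ∈ ℕ × Fin N ↦ if n ≤ i then U i j else ∅` (every `t ∈ L` is in some
`B i`, `i ≥ n`); the diameters are `≤ r n := sup_{i ≥ n} ofReal (2 ρ i) → 0`, and the sum of
`diam^s` is `≤ N ∑_{i ≥ n} (2 ρ i)^s → 0` (tail of a convergent series, `tendsto_sum_nat_add` /
`NNReal`/`ENNReal` version). So `μH[s] L = 0 ≠ ∞`, and `dimH L ≤ s`
(`dimH_le_of_hausdorffMeasure_ne_top`). For `s = 0`: the hypothesis `Summable fun i => (ρ i)^0 = 1` is false.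
(In Lean the empty set contributes `diam^s = 0^s`, which is `0` for `s > 0`.)
-/

set_option autoImplicit false

namespace Pool.Agent.Work.MP_58cfe3_nt

open Filter Topology

private theorem exists_net {d : ℕ} {B : Set (Fin d → ℝ)} {N : ℕ} {ρ : ℝ} (hρ : 0 < ρ)
    (h : ∀ P : Finset (Fin d → ℝ), (∀ t ∈ P, t ∈ B) → Sepd P ρ → P.card ≤ N) :
    ∃ P : Finset (Fin d → ℝ), P.card ≤ N ∧ ∀ x ∈ B, ∃ t ∈ P, dist x t ≤ ρ := by
  classical
  have hne : ∃ k, ∃ P : Finset (Fin d → ℝ), (∀ t ∈ P, t ∈ B) ∧ Sepd P ρ ∧ N - P.card = k :=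
    ⟨_, ∅, fun t ht => absurd ht (Finset.notMem_empty t),
      fun t ht => absurd ht (Finset.notMem_empty t), rfl⟩
  obtain ⟨P, hPB, hPS, hPk⟩ := Nat.find_spec hne
  refine ⟨P, h P hPB hPS, fun x hx => ?_⟩
  by_contra hcon
  push Not at hcon
  have hxP : x ∉ P := by
    intro hxP
    have := hcon x hxP
    rw [dist_self] at this
    linarith
  have hB' : ∀ t ∈ insert x P, t ∈ B := by
    intro t ht
    rcases Finset.mem_insert.1 ht with rfl | ht
    · exact hx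
    · exact hPB t ht
  have hS' : Sepd (insert x P) ρ := by
    intro t ht t' ht' hne'
    rcases Finset.mem_insert.1 ht with h1 | h1
    · rcases Finset.mem_insert.1 ht' with h2 | h2
      · exact absurd (h1.trans h2.symm) hne'
      · rw [h1]
        exact (hcon t' h2).le
    · rcases Finset.mem_insert.1 ht' with h2 | h2
      · rw [dist_comm, h2]
        exact (hcon t h1).le
      · exact hPS t h1 t' h2 hne'
  have h1 := h _ hB' hS'
  rw [Finset.card_insert_of_notMem hxP] at h1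
  have h2 : N - (insert x P).card < Nat.find hne := by
    rw [← hPk, Finset.card_insert_of_notMem hxP]
    omega
  exact Nat.find_min hne h2 ⟨insert x P, hB', hS', rfl⟩

private theorem dim_base' {d : ℕ} {B : ℕ → Set (Fin d → ℝ)} {N : ℕ} {ρ : ℕ → ℝ}
    (hρ : ∀ i : ℕ, 0 < ρ i) (hρ0 : Tendsto ρ atTop (𝓝 0))
    (h : ∀ i : ℕ, ∀ P : Finset (Fin d → ℝ), (∀ t ∈ P, t ∈ B i) → Sepd P (ρ i) →
      P.card ≤ N)
    {s : NNReal} (hs : 0 < s) (hsum : Summable fun i => ρ i ^ (s : ℝ)) :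
    dimH {t | ∃ᶠ i : ℕ in atTop, t ∈ B i} ≤ s := by
  choose P hPN hPB using fun i => exists_net (hρ i) (h i)
  have hs' : (0 : ℝ) < s := hs
  have hlim : Tendsto (fun i => ENNReal.ofReal (2 * ρ i)) atTop (𝓝 0) := by
    have h1 : Tendsto (fun i => 2 * ρ i) atTop (𝓝 (2 * 0)) := hρ0.const_mul 2
    have h2 := ENNReal.tendsto_ofReal h1
    rwa [mul_zero, ENNReal.ofReal_zero] at h2
  have hr : Tendsto (fun n => ⨆ i, ENNReal.ofReal (2 * ρ (i + n))) atTop (𝓝 0) := by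
    rw [ENNReal.tendsto_nhds_zero] at hlim ⊢
    intro ε hε
    obtain ⟨i₁, hi₁⟩ := Filter.eventually_atTop.1 (hlim ε hε)
    exact Filter.eventually_atTop.2 ⟨i₁, fun n hn => iSup_le fun i => hi₁ (i + n) (by omega)⟩
  have hdiam : ∀ (i : ℕ) (t : Fin d → ℝ),
      Metric.ediam (Metric.closedBall t (ρ i)) ≤ ENNReal.ofReal (2 * ρ i) := by
    intro i t
    refine Metric.ediam_le_of_forall_dist_le fun x hx y hy => ?_
    rw [Metric.mem_closedBall] at hx hy
    have := dist_triangle_right x y t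
    linarith
  have hpow : ∀ i, ENNReal.ofReal (2 * ρ i) ^ (s : ℝ) = ENNReal.ofReal ((2 * ρ i) ^ (s : ℝ)) :=
    fun i => ENNReal.ofReal_rpow_of_pos (mul_pos two_pos (hρ i))
  have htail : Tendsto (fun n => ∑' k, ENNReal.ofReal (2 * ρ (k + n)) ^ (s : ℝ)) atTop (𝓝 0) := by
    refine ENNReal.tendsto_sum_nat_add (fun i => ENNReal.ofReal (2 * ρ i) ^ (s : ℝ)) ?_
    simp only [hpow]
    refine Summable.tsum_ofReal_ne_top ?_
    have h1 : (fun i => (2 * ρ i) ^ (s : ℝ)) = fun i => 2 ^ (s : ℝ) * ρ i ^ (s : ℝ) := by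
      funext i
      rw [Real.mul_rpow two_pos.le (hρ i).le]
    rw [h1]
    exact hsum.mul_left _
  have htail' : Tendsto (fun n => (N : ENNReal) * ∑' k, ENNReal.ofReal (2 * ρ (k + n)) ^ (s : ℝ))
      atTop (𝓝 0) := by
    have h1 := ENNReal.Tendsto.const_mul (a := (N : ENNReal)) htail
      (Or.inr (ENNReal.natCast_ne_top N))
    rwa [mul_zero] at h1
  have key := MeasureTheory.Measure.hausdorffMeasure_le_liminf_tsum (X := Fin d → ℝ)
    (ι := fun n : ℕ => Σ i : ℕ, ↥(P (i + n))) (s : ℝ)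
    {t | ∃ᶠ i : ℕ in atTop, t ∈ B i} (l := atTop)
    (fun n => ⨆ i, ENNReal.ofReal (2 * ρ (i + n))) hr
    (fun n p => Metric.closedBall (p.2 : Fin d → ℝ) (ρ (p.1 + n)))
    (Filter.Eventually.of_forall fun n p => (hdiam _ _).trans
      (le_iSup (fun i => ENNReal.ofReal (2 * ρ (i + n))) p.1))
    (Filter.Eventually.of_forall fun n x hx => by
      rw [Set.mem_setOf_eq, Filter.frequently_atTop] at hx
      obtain ⟨i, hi, hxi⟩ := hx n
      obtain ⟨k, rfl⟩ : ∃ k, i = k + n := ⟨i - n, by omega⟩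
      obtain ⟨t, ht, hxt⟩ := hPB (k + n) x hxi
      exact Set.mem_iUnion.2 ⟨⟨k, ⟨t, ht⟩⟩, hxt⟩)
  have hbound : ∀ n : ℕ, ∑' p : Σ i : ℕ, ↥(P (i + n)),
      Metric.ediam (Metric.closedBall (p.2 : Fin d → ℝ) (ρ (p.1 + n))) ^ (s : ℝ) ≤
        (N : ENNReal) * ∑' k, ENNReal.ofReal (2 * ρ (k + n)) ^ (s : ℝ) := by
    intro n
    rw [ENNReal.tsum_sigma', ← ENNReal.tsum_mul_left]
    refine ENNReal.tsum_le_tsum fun i => ?_
    rw [tsum_fintype]
    calc ∑ b : ↥(P (i + n)), Metric.ediam (Metric.closedBall (b : Fin d → ℝ) (ρ (i + n))) ^ (s : ℝ)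
        ≤ ∑ _b : ↥(P (i + n)), ENNReal.ofReal (2 * ρ (i + n)) ^ (s : ℝ) :=
          Finset.sum_le_sum fun b _ => ENNReal.rpow_le_rpow (hdiam _ _) hs'.le
      _ = ((P (i + n)).card : ENNReal) * ENNReal.ofReal (2 * ρ (i + n)) ^ (s : ℝ) := by
          rw [Finset.sum_const, Finset.card_univ, Fintype.card_coe, nsmul_eq_mul]
      _ ≤ _ := by
          refine mul_le_mul_left (Nat.cast_le.2 (hPN (i + n))) _
  have hzero : MeasureTheory.Measure.hausdorffMeasure (s : ℝ)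
      {t | ∃ᶠ i : ℕ in atTop, t ∈ B i} ≤ 0 := by
    refine key.trans ?_
    rw [← htail'.liminf_eq]
    exact Filter.liminf_le_liminf (Filter.Eventually.of_forall hbound)
  refine dimH_le_of_hausdorffMeasure_ne_top ?_
  rw [nonpos_iff_eq_zero.1 hzero]
  exact ENNReal.zero_ne_top

theorem dim_base {d : ℕ} {B : ℕ → Set (Fin d → ℝ)} {N : ℕ} {ρ : ℕ → ℝ}
    (hρ : ∀ᶠ i : ℕ in atTop, 0 < ρ i) (hρ0 : Tendsto ρ atTop (𝓝 0))
    (h : ∀ᶠ i : ℕ in atTop, ∀ P : Finset (Fin d → ℝ), (∀ t ∈ P, t ∈ B i) → Sepd P (ρ i) →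
      P.card ≤ N)
    {s : NNReal} (hs : 0 < s) (hsum : Summable fun i => ρ i ^ (s : ℝ)) :
    dimH {t | ∃ᶠ i : ℕ in atTop, t ∈ B i} ≤ s := by
  obtain ⟨i₀, hi₀⟩ := Filter.eventually_atTop.1 (hρ.and h)
  have h1 : dimH {t | ∃ᶠ i : ℕ in atTop, t ∈ B (i + i₀)} ≤ s := by
    refine dim_base' (B := fun i => B (i + i₀)) (N := N) (ρ := fun i => ρ (i + i₀))
      (fun i => (hi₀ (i + i₀) (Nat.le_add_left _ _)).1)
      ((tendsto_add_atTop_iff_nat i₀).2 hρ0)
      (fun i => (hi₀ (i + i₀) (Nat.le_add_left _ _)).2) hs ?_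
    exact (summable_nat_add_iff i₀).2 hsum
  refine (dimH_mono ?_).trans h1
  intro x hx
  rw [Set.mem_setOf_eq, Filter.frequently_atTop] at hx ⊢
  intro a
  obtain ⟨b, hb, hxb⟩ := hx (a + i₀)
  refine ⟨b - i₀, by omega, ?_⟩
  have h2 : b - i₀ + i₀ = b := by omega
  rw [h2]
  exact hxb

end Pool.Agent.Work.MP_58cfe3_nt
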