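import Pool.Agent.Work.MP_58cfe3_nt.Z.Defs

/-!
# Block Z, module OrdLog (size S-M)

From ordinary averages over `n ≤ x`, `X^η ≤ x ≤ X`, to the logarithmic average over `n ≤ X`, uniformly
in the function.

PROOF. Put `S(x) = ∑_{n ≤ x} (f n - M) = ∑_{n ≤ x} f n - x M`, `H = ∑_{n ≤ X} 1/n ≥ log X` (`X ≥ 1`).
Summation by parts: `∑_{n ≤ X} (f n - M)/n = S(X)/X + ∑_{x=1}^{X-1} S(x) (1/x - 1/(x+1))`
(easy induction on `X`), so
`‖∑_{n ≤ X} (f n - M)/n‖ ≤ ‖S(X)‖/X + ∑_{x=1}^{X-1} ‖S(x)‖/(x (x+1))`. For `x ≥ X^η` use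
`‖S(x)‖ ≤ η x`, for `x < X^η` use `‖S(x)‖ ≤ 2 x`. So the right side is at most
`η + 2 ∑_{x < X^η} 1/(x+1) + η ∑_{x<X} 1/(x+1) ≤ η + 2 (η log X + 1) + η (log X + 1)`
(`∑_{x ≤ y} 1/(x+1) ≤ log (y+1)` or `harmonic_le_one_add_log`: `∑_{x ≤ N} 1/x ≤ 1 + log N`; there are only
`x ≤ ⌊X^η⌋`, `log ⌊X^η⌋ ≤ η log X`). Divide by `H ≥ log X`
(`Real.add_pow_le_pow_mul_pow_of_sq_le_sq`-free: mathlib `log_add_one_le_harmonic`):
`‖Elog f X - M‖ ≤ 3 η + (2 η + 2)/log X ≤ 5 η` as soon as `log X ≥ (2 η + 2)/(2 η)`.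
(`Elog f X - M = (∑ (f n - M)/n)/H`, `H ≠ 0`.) See `WLog` for the same computation with `M = 0`.
-/

set_option autoImplicit false

namespace Pool.Agent.Work.MP_58cfe3_nt

open Filter Topology

/-- the harmonic sum -/
private noncomputable def HS (X : ℕ) : ℝ := ∑ i ∈ Finset.range X, (1 : ℝ) / ((i : ℝ) + 1)

private theorem HS_eq (X : ℕ) : HS X = ((harmonic X : ℚ) : ℝ) := by
  unfold HS harmonic
  push_cast
  exact Finset.sum_congr rfl fun i _ => by rw [one_div]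

private theorem HS_ge (X : ℕ) : Real.log (X + 1) ≤ HS X := by
  rw [HS_eq]
  exact_mod_cast log_add_one_le_harmonic X

private theorem HS_le (X : ℕ) : HS X ≤ 1 + Real.log X := by
  rw [HS_eq]
  exact harmonic_le_one_add_log X

private theorem HS_tendsto : Tendsto HS atTop atTop := Real.tendsto_sum_range_one_div_nat_succ_atTop

private theorem harm_eq (X : ℕ) : ∑ n ∈ Finset.Icc 1 X, (1 / n : ℂ) = ((HS X : ℝ) : ℂ) := by
  unfold HS
  induction X with
  | zero => simp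
  | succ X ih =>
    rw [Finset.sum_Icc_succ_top (by omega), ih, Finset.sum_range_succ]
    push_cast
    ring

theorem elog_ord {η : ℝ} (hη : 0 < η) :
    ∀ᶠ X : ℕ in atTop, ∀ (f : ℤ → ℂ) (M : ℂ), (∀ n, ‖f n‖ ≤ 1) → ‖M‖ ≤ 1 →
      (∀ x : ℕ, (X : ℝ) ^ η ≤ x → x ≤ X → ‖∑ n ∈ Finset.Icc 1 x, f n - x * M‖ ≤ η * x) →
      ‖Elog f X - M‖ ≤ 5 * η := by
  filter_upwards [HS_tendsto.eventually_ge_atTop (3 / η), eventually_ge_atTop 1] with X hXH hX1
  intro f M hb hM hX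
  obtain ⟨F, hF⟩ : ∃ F : ℕ → ℂ, F = fun n : ℕ => ∑ m ∈ Finset.Icc 1 n, f m - (n : ℂ) * M :=
    ⟨_, rfl⟩
  have hF0 : F 0 = 0 := by rw [hF]; simp
  have hFs : ∀ n, F (n + 1) = F n + (f ((n + 1 : ℕ) : ℤ) - M) := by
    intro n
    rw [hF]
    simp only
    rw [Finset.sum_Icc_succ_top (by omega)]
    push_cast
    ring
  have hFn : ∀ n, ‖F n‖ ≤ 2 * n := by
    intro n
    rw [hF]
    refine (norm_sub_le _ _).trans ?_
    have h1 : ‖∑ m ∈ Finset.Icc 1 n, f m‖ ≤ n := by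
      refine (norm_sum_le _ _).trans ?_
      refine (Finset.sum_le_card_nsmul _ _ 1 fun m _ => hb _).trans (le_of_eq ?_)
      simp
    have h2 : ‖(n : ℂ) * M‖ ≤ n := by
      rw [norm_mul, Complex.norm_natCast]
      exact mul_le_of_le_one_right (Nat.cast_nonneg n) hM
    linarith
  have hid : ∀ X : ℕ, ∑ n ∈ Finset.Icc 1 X, (f n - M) / (n : ℂ) =
      F X / (X : ℂ) + ∑ n ∈ Finset.range X, F n / ((n : ℂ) * ((n : ℂ) + 1)) := by
    intro X
    induction X with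
    | zero => simp [hF0]
    | succ X ih =>
      rw [Finset.sum_Icc_succ_top (by omega), ih, Finset.sum_range_succ, hFs]
      have h1 : ((X : ℂ) + 1) ≠ 0 := by exact_mod_cast Nat.succ_ne_zero X
      rcases Nat.eq_zero_or_pos X with h0 | h0
      · subst h0
        simp [hF0]
      · have h2 : (X : ℂ) ≠ 0 := by exact_mod_cast h0.ne'
        push_cast
        field_simp
        ring
  have hXr : (1 : ℝ) ≤ X := by exact_mod_cast hX1
  have hHpos : 0 < HS X := lt_of_lt_of_le (by positivity) hXH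
  have hHne : ((HS X : ℝ) : ℂ) ≠ 0 := by exact_mod_cast hHpos.ne'
  have hdiff : Elog f X - M = (∑ n ∈ Finset.Icc 1 X, (f n - M) / (n : ℂ)) / ((HS X : ℝ) : ℂ) := by
    rw [Elog, harm_eq X, eq_div_iff hHne, sub_mul, div_mul_cancel₀ _ hHne, ← harm_eq X,
      Finset.mul_sum, ← Finset.sum_sub_distrib]
    refine Finset.sum_congr rfl fun n _ => ?_
    ring
  rw [hdiff, hid X, norm_div, Complex.norm_real, Real.norm_eq_abs,
    abs_of_pos hHpos, div_le_iff₀ hHpos]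
  -- the terms
  have hN : ∀ n ∈ Finset.range X, ‖F n / ((n : ℂ) * ((n : ℂ) + 1))‖ ≤
      2 * (if (n : ℝ) < (X : ℝ) ^ η then 1 / ((n : ℝ) + 1) else 0) + η * (1 / ((n : ℝ) + 1)) := by
    intro n hn
    have hnX := Finset.mem_range.1 hn
    have h2 : ‖(n : ℂ) + 1‖ = (n : ℝ) + 1 := by
      have : (n : ℂ) + 1 = (((n : ℝ) + 1 : ℝ) : ℂ) := by push_cast; rfl
      rw [this, Complex.norm_real, Real.norm_eq_abs, abs_of_nonneg (by positivity)]
    rw [← div_div, norm_div, h2, norm_div, Complex.norm_natCast]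
    have h3 : 0 ≤ η * (1 / ((n : ℝ) + 1)) := by positivity
    split_ifs with hlt
    · have h4 : ‖F n‖ / n ≤ 2 := by
        rcases Nat.eq_zero_or_pos n with h0 | h0
        · subst h0
          simp
        · have : (0 : ℝ) < n := by exact_mod_cast h0
          rw [div_le_iff₀ this]
          exact hFn n
      have h5 : ‖F n‖ / n / ((n : ℝ) + 1) ≤ 2 / ((n : ℝ) + 1) :=
        div_le_div_of_nonneg_right h4 (by positivity)
      have h6 : 2 / ((n : ℝ) + 1) = 2 * (1 / ((n : ℝ) + 1)) := by ring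
      linarith
    · rw [mul_zero, zero_add]
      have h4 : ‖F n‖ ≤ η * n := by
        rw [hF]
        exact hX n (not_lt.1 hlt) hnX.le
      have h5 : ‖F n‖ / n ≤ η := by
        rcases Nat.eq_zero_or_pos n with h0 | h0
        · subst h0
          simp [hη.le]
        · have : (0 : ℝ) < n := by exact_mod_cast h0
          rwa [div_le_iff₀ this]
      calc ‖F n‖ / n / ((n : ℝ) + 1) ≤ η / ((n : ℝ) + 1) :=
            div_le_div_of_nonneg_right h5 (by positivity)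
        _ = η * (1 / ((n : ℝ) + 1)) := by ring
  have hS1 : ∑ n ∈ Finset.range X, (if (n : ℝ) < (X : ℝ) ^ η then 1 / ((n : ℝ) + 1) else 0) ≤
      2 + η * Real.log X := by
    rw [← Finset.sum_filter]
    have hsub : (Finset.range X).filter (fun n : ℕ => (n : ℝ) < (X : ℝ) ^ η) ⊆
        Finset.range ⌈(X : ℝ) ^ η⌉₊ := by
      intro n hn
      exact Finset.mem_range.2 (Nat.lt_ceil.2 (Finset.mem_filter.1 hn).2)
    have h1 : ∑ n ∈ (Finset.range X).filter (fun n : ℕ => (n : ℝ) < (X : ℝ) ^ η),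
        1 / ((n : ℝ) + 1) ≤ HS ⌈(X : ℝ) ^ η⌉₊ :=
      Finset.sum_le_sum_of_subset_of_nonneg hsub fun n _ _ => by positivity
    have h2 := HS_le ⌈(X : ℝ) ^ η⌉₊
    have hXδ : (1 : ℝ) ≤ (X : ℝ) ^ η := Real.one_le_rpow hXr hη.le
    have h3 : ((⌈(X : ℝ) ^ η⌉₊ : ℕ) : ℝ) ≤ 2 * (X : ℝ) ^ η := by
      have := (Nat.ceil_lt_add_one (by positivity : (0 : ℝ) ≤ (X : ℝ) ^ η)).le
      linarith
    have h4 : Real.log ((⌈(X : ℝ) ^ η⌉₊ : ℕ) : ℝ) ≤ Real.log (2 * (X : ℝ) ^ η) := by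
      refine Real.log_le_log ?_ h3
      have : 0 < ⌈(X : ℝ) ^ η⌉₊ := Nat.ceil_pos.2 (by positivity)
      exact_mod_cast this
    have h5 : Real.log (2 * (X : ℝ) ^ η) = Real.log 2 + η * Real.log X := by
      rw [Real.log_mul (by norm_num) (by positivity), Real.log_rpow (by linarith)]
    have h6 : Real.log 2 ≤ 1 := by
      have := Real.log_two_lt_d9
      linarith
    linarith
  have hS2 : ∑ n ∈ Finset.range X, η * (1 / ((n : ℝ) + 1)) = η * HS X := by
    rw [HS, Finset.mul_sum]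
  have hS : ‖∑ n ∈ Finset.range X, F n / ((n : ℂ) * ((n : ℂ) + 1))‖ ≤
      2 * (2 + η * Real.log X) + η * HS X := by
    refine (norm_sum_le _ _).trans ((Finset.sum_le_sum hN).trans ?_)
    rw [Finset.sum_add_distrib, hS2, ← Finset.mul_sum]
    linarith
  have hlast : ‖F X / (X : ℂ)‖ ≤ 2 := by
    rw [norm_div, Complex.norm_natCast]
    have : (0 : ℝ) < X := by linarith
    rw [div_le_iff₀ this]
    exact hFn X
  have hlog : Real.log X ≤ HS X := by
    refine le_trans (Real.log_le_log (by linarith) ?_) (HS_ge X)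
    linarith
  have h9 : 3 ≤ η * HS X := by
    rw [div_le_iff₀ hη] at hXH
    linarith
  have h10 : η * Real.log X ≤ η * HS X := mul_le_mul_of_nonneg_left hlog hη.le
  refine (norm_add_le _ _).trans ?_
  linarith

end Pool.Agent.Work.MP_58cfe3_nt
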