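import Pool.Agent.Work.MP_58cfe3_nt.Z.Defs

/-!
# Block Z, module Tw (size S-M)

The cube of the deformation `g(n) exp(i t·F(n))`.

PROOF. `twist g univ ε m = g m * ∏ p ∈ m.toNat.primeFactors, ε p ^ v_p` (the `if p ∈ univ` is true),
and with `ε p = exp(i dot t (F p))` the product is `exp(i ∑_p v_p dot t (F p)) = ei (dot t (Fa F m))`
(`ei` of a finite sum is the product; `ei (k x) = ei x ^ k` for natural `k`; exchange the sums over `p`
and over `l`). So `defo g F t m = g m * ei (dot t (Fa F m))` for every integer `m`.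
Then `cube (defo g F t) e n = ∏_A (if Even A.card then g(n_A) ei(x_A) else star (g(n_A) ei(x_A)))` with
`n_A = n + vert e A`, `x_A = dot t (Fa F n_A)`; `star (ei x) = ei (-x)`; the factor is
`(if .. then g(n_A) else star (g (n_A))) * ei (sg A * x_A)`. Multiply over `A` (`Finset.prod_mul_distrib`)
and use `∏ ei (y_A) = ei (∑ y_A)`, `∑_A sg A * dot t (Fa F n_A) = dot t (DD F e n)`.
-/

set_option autoImplicit false

namespace Pool.Agent.Work.MP_58cfe3_nt

open Filter Topology

private theorem w_ei_add (x y : ℝ) : ei (x + y) = ei x * ei y := by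
  unfold ei; rw [← Complex.exp_add]; congr 1; push_cast; ring

private theorem w_ei_zero : ei 0 = 1 := by unfold ei; simp

private theorem w_ei_star (x : ℝ) : star (ei x) = ei (-x) := by
  unfold ei
  rw [Complex.star_def, ← Complex.exp_conj]
  simp

private theorem w_ei_pow (x : ℝ) (k : ℕ) : ei x ^ k = ei (k * x) := by
  unfold ei
  rw [← Complex.exp_nat_mul]
  congr 1
  push_cast
  ring

private theorem w_ei_sum {ι : Type} (s : Finset ι) (y : ι → ℝ) :
    ∏ i ∈ s, ei (y i) = ei (∑ i ∈ s, y i) := by
  classical
  induction s using Finset.induction_on with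
  | empty => simp [w_ei_zero]
  | insert a s ha ih => rw [Finset.prod_insert ha, Finset.sum_insert ha, ih, w_ei_add]

private theorem w_defo (g : ℤ → ℂ) {d : ℕ} (F : ℕ → Fin d → ℝ) (t : Fin d → ℝ) (m : ℤ) :
    defo g F t m = g m * ei (dot t (Fa F m)) := by
  unfold defo twist
  congr 1
  simp only [Set.mem_univ, if_true]
  rw [Finset.prod_congr rfl fun p _ => w_ei_pow _ _, w_ei_sum]
  congr 1
  unfold dot Fa
  simp only [Finset.mul_sum]
  rw [Finset.sum_comm]
  exact Finset.sum_congr rfl fun l _ => Finset.sum_congr rfl fun p _ => by ring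

theorem cube_defo (g : ℤ → ℂ) {d : ℕ} (F : ℕ → Fin d → ℝ) (t : Fin d → ℝ) {r : ℕ}
    (e : Fin r → ℤ) (n : ℤ) :
    cube (defo g F t) e n = cube g e n * ei (dot t (DD F e n)) := by
  have h1 : ∀ A : Finset (Fin r), (if Even A.card then defo g F t (n + vert e A)
      else star (defo g F t (n + vert e A))) =
      (if Even A.card then g (n + vert e A) else star (g (n + vert e A))) *
        ei (sg A * dot t (Fa F (n + vert e A))) := by
    intro A
    rw [w_defo]
    unfold sg
    split_ifs with h
    · rw [one_mul]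
    · rw [star_mul', w_ei_star]
      congr 2
      ring
  unfold cube
  rw [Finset.prod_congr rfl fun A _ => h1 A, Finset.prod_mul_distrib, w_ei_sum]
  congr 2
  unfold dot DD
  simp only [Finset.mul_sum]
  rw [Finset.sum_comm]
  exact Finset.sum_congr rfl fun l _ => Finset.sum_congr rfl fun A _ => by ring

end Pool.Agent.Work.MP_58cfe3_nt
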